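import Pool.Agent.H71.KW.Defs
import Pool.Agent.H87.KW.Red

/-!
# Module Kegel: Kegel's lemma on permuting subgroups
-/

open scoped Pointwise

namespace Pool.Agent.H71.KW

variable {G : Type*} [Group G]

theorem Per.perm {H K : Subgroup G} (h : Per H K) : H87.KW.Perm H K := by
  intro x hx y hy
  obtain ⟨b, hb, a, ha, e⟩ := h.symm (x * y) (mul_mem ((le_sup_right : H ≤ K ⊔ H) hx)
    ((le_sup_left : K ≤ K ⊔ H) hy))
  exact ⟨b, hb, a, ha, e⟩

theorem _root_.H87.KW.Perm.per {H K : Subgroup G} (h : H87.KW.Perm H K) : Per H K := by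
  intro x hx
  exact h.exists_mul hx

/-- Conjugating both subgroups. -/
theorem Per.conj {H K : Subgroup G} (h : Per H K) (g : G) :
    Per (MulAut.conj g • H) (MulAut.conj g • K) :=
  (h.perm.conj g).per

/-- If `H` is normalised by `A`, `K` is normalised by `B`, `G = AB` and `HK = KH` then `H` permutes
with all conjugates of `K`: for `g = a b` the conjugate of `K` by `g` is its conjugate by `a`. -/
theorem per_conj {A B H K : Subgroup G} (fac : Fac A B)
    (hH : ∀ a ∈ A, MulAut.conj a • H = H) (hK : ∀ b ∈ B, MulAut.conj b • K = K) (h : Per H K) :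
    ∀ g : G, Per H (MulAut.conj g • K) := by
  intro g
  obtain ⟨a, ha, b, hb, rfl⟩ := fac g
  have h1 := h.conj a
  rw [hH a ha] at h1
  rwa [map_mul, mul_smul, hK b hb]

/-- The hypothesis of Kegel's lemma is symmetric. -/
theorem per_all_symm {H K : Subgroup G} (h : ∀ g : G, Per H (MulAut.conj g • K)) :
    ∀ g : G, Per K (MulAut.conj g • H) := by
  intro g
  have h1 := ((h g⁻¹).conj g).symm
  rwa [← mul_smul, ← map_mul, mul_inv_cancel, map_one, one_smul] at h1

/-- If `H` permutes with all conjugates of `K` then all `H ⊔ K'` are conjugate. -/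
theorem sup_conj_ne_top {H K : Subgroup G} (h : ∀ g : G, Per H (MulAut.conj g • K))
    (hne : H ⊔ K ≠ ⊤) (g : G) : H ⊔ MulAut.conj g • K ≠ ⊤ := by
  intro ht
  obtain ⟨k, hk, x, hx, e⟩ := (h g).symm g (by rw [sup_comm, ht]; exact Subgroup.mem_top g)
  have h1 : MulAut.conj g • K = MulAut.conj x • K := by
    have h2 : MulAut.conj k⁻¹ • (MulAut.conj g • K) = MulAut.conj g • K :=
      Subgroup.conj_smul_eq_self_of_mem (inv_mem hk)
    rw [← h2, ← mul_smul, ← map_mul]
    congr 2
    rw [e]; group
  have h3 : MulAut.conj x • (H ⊔ K) = ⊤ := by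
    rw [Subgroup.smul_sup, Subgroup.conj_smul_eq_self_of_mem hx, ← h1, ht]
  apply hne
  have h4 : MulAut.conj x⁻¹ • (MulAut.conj x • (H ⊔ K)) = ⊤ := by
    rw [h3]
    ext z
    rw [H87.KW.mem_conj]
    simp
  rwa [← mul_smul, ← map_mul, inv_mul_cancel, map_one, one_smul] at h4

/-- KEGEL'S LEMMA. Proof: suppose both normal closures are `G`; induction on `|G| - |H|`. If every
conjugate of `K` normalises `H`, then the normal closure `G` of `K` normalises `H`, so `H` is normal,
`H = G`, against `H ⊔ K ≠ ⊤`. Otherwise some `k` in a conjugate `K'` of `K` does not normalise `H`; the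
conjugate `H'` of `H` by `k` permutes with all conjugates of `K`, so `H ⊔ H'` does too (products
`h₁ h₂ ... k` are rearranged step by step). Moreover `H ⊔ H' ⊔ K' ≤ H ⊔ K' ≠ ⊤` (if
`H K' = G` for a conjugate `K'` of `K` by `x`, write `x = h k`: then `K'` is the conjugate of `K` by
an element of `H` and `H K = G`), hence `(H ⊔ H') ⊔ K ≠ ⊤` in the same way. `H ⊔ H'` is bigger
than `H`. -/
theorem kegel [Finite G] {H K : Subgroup G} (h : ∀ g : G, Per H (MulAut.conj g • K))
    (hne : H ⊔ K ≠ ⊤) :
    Subgroup.normalClosure (H : Set G) ≠ ⊤ ∨ Subgroup.normalClosure (K : Set G) ≠ ⊤ := by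
  by_contra hcon
  push Not at hcon
  obtain ⟨hHt, hKt⟩ := hcon
  obtain ⟨n, hn⟩ : ∃ n, n = Nat.card G - Nat.card H := ⟨_, rfl⟩
  induction n using Nat.strong_induction_on generalizing H with
  | _ n ih =>
    by_cases hN : ∀ g : G, MulAut.conj g • K ≤ Subgroup.normalizer (H : Set G)
    · have h1 : Subgroup.normalClosure (K : Set G) ≤ Subgroup.normalizer (H : Set G) := by
        rw [Subgroup.normalClosure, Subgroup.closure_le]
        intro x hx
        obtain ⟨k, hk, hkx⟩ := Group.mem_conjugatesOfSet_iff.1 hx
        obtain ⟨c, hc⟩ := isConj_iff.1 hkx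
        refine hN c ?_
        rw [H87.KW.mem_conj, ← hc]
        have : c⁻¹ * (c * k * c⁻¹) * c = k := by group
        rw [this]; exact hk
      rw [hKt, top_le_iff] at h1
      have h2 : H.Normal := Subgroup.normalizer_eq_top_iff.1 h1
      have h3 : Subgroup.normalClosure (H : Set G) = H := Subgroup.normalClosure_eq_self H
      rw [h3] at hHt
      exact hne (by rw [hHt, top_sup_eq])
    · push Not at hN
      obtain ⟨g, hg⟩ := hN
      obtain ⟨k, hk, hkn⟩ := SetLike.not_le_iff_exists.1 hg
      set H2 := H ⊔ MulAut.conj k • H with hH2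
      have hlt : H < H2 := by
        refine lt_of_le_of_ne le_sup_left fun he => hkn ?_
        have h4 : MulAut.conj k • H ≤ H := (le_sup_right.trans hH2.ge).trans he.ge
        have hc : Nat.card (MulAut.conj k • H : Subgroup G) = Nat.card H :=
          Nat.card_congr (Subgroup.equivSMul (MulAut.conj k) H).symm.toEquiv
        have h5 : MulAut.conj k • H = H := Subgroup.eq_of_le_of_card_ge h4 hc.ge
        rw [Subgroup.mem_normalizer_iff]
        intro y
        constructor
        · intro hy
          rw [← h5, H87.KW.mem_conj]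
          have : k⁻¹ * (k * y * k⁻¹) * k = y := by group
          simpa [this] using hy
        · intro hy
          have hy' := hy
          rw [← h5, H87.KW.mem_conj] at hy'
          have : k⁻¹ * (k * y * k⁻¹) * k = y := by group
          rwa [this] at hy'
      have hper : ∀ x : G, Per H2 (MulAut.conj x • K) := by
        intro x
        have e1 : Per (MulAut.conj k • H) (MulAut.conj x • K) := by
          have := (h (k⁻¹ * x)).conj k
          rwa [← mul_smul, ← map_mul, mul_inv_cancel_left] at this
        have e2 : H2 = ⨆ b : Bool, cond b H (MulAut.conj k • H) := by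
          rw [iSup_bool_eq]; rfl
        rw [e2]
        refine (H87.KW.Perm.iSup (X := MulAut.conj x • K) fun b => ?_).symm.per
        cases b
        · exact e1.symm.perm
        · exact (h x).symm.perm
      have hne1 : H2 ⊔ MulAut.conj g • K ≠ ⊤ := by
        intro ht
        refine sup_conj_ne_top h hne g (top_le_iff.1 ?_)
        rw [← ht, hH2]
        refine sup_le (sup_le le_sup_left ?_) le_sup_right
        have e3 : MulAut.conj k • (H ⊔ MulAut.conj g • K) = H ⊔ MulAut.conj g • K :=
          Subgroup.conj_smul_eq_self_of_mem ((le_sup_right : _ ≤ H ⊔ MulAut.conj g • K) hk)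
        rw [← e3, Subgroup.smul_sup]
        exact le_sup_left
      have hne2 : H2 ⊔ K ≠ ⊤ := by
        have e4 : ∀ x : G, Per H2 (MulAut.conj x • (MulAut.conj g • K)) := by
          intro x
          rw [← mul_smul, ← map_mul]
          exact hper _
        have := sup_conj_ne_top e4 hne1 g⁻¹
        rwa [← mul_smul, ← map_mul, inv_mul_cancel, map_one, one_smul] at this
      have hHt2 : Subgroup.normalClosure (H2 : Set G) = ⊤ := by
        rw [← top_le_iff, ← hHt]
        exact Subgroup.normalClosure_mono hlt.le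
      have hcl : Nat.card H < Nat.card H2 := by
        by_contra hcl
        push Not at hcl
        exact hlt.ne (Subgroup.eq_of_le_of_card_ge hlt.le hcl)
      have hcG : Nat.card H2 ≤ Nat.card G := Subgroup.card_le_card_group H2
      exact ih (Nat.card G - Nat.card H2) (by omega) hper hne2 hHt2 rfl

/-- Kegel's lemma in a simple group. -/
theorem kegel_simp [Finite G] (hs : Simp G) {H K : Subgroup G} (hH : H ≠ ⊥) (hK : K ≠ ⊥)
    (h : ∀ g : G, Per H (MulAut.conj g • K)) : H ⊔ K = ⊤ := by
  by_contra hne
  rcases kegel h hne with h1 | h1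
  · rcases hs _ Subgroup.normalClosure_normal with h2 | h2
    · exact hH (le_bot_iff.1 (h2 ▸ Subgroup.le_normalClosure))
    · exact h1 h2
  · rcases hs _ Subgroup.normalClosure_normal with h2 | h2
    · exact hK (le_bot_iff.1 (h2 ▸ Subgroup.le_normalClosure))
    · exact h1 h2

end Pool.Agent.H71.KW
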