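import Pool.Agent.H71.KW.Nil
import Pool.Agent.H71.KW.Kegel

/-!
# Module Basic: first consequences in the minimal situation
-/

open scoped Pointwise

namespace Pool.Agent.H71.KW

set_option linter.unusedSectionVars false
set_option linter.deprecated false

variable {G : Type*} [Group G] [Finite G] {A B X : Subgroup G} {p q : ℕ}

/-- `A ⊓ B = 1` by coprimality; the map `(a, b) ↦ a b` is a bijection. -/
theorem card_eq (m : Min A B) : Nat.card G = Nat.card A * Nat.card B := by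
  have hd : A ⊓ B = ⊥ := Subgroup.inf_eq_bot_of_coprime m.cop
  have h1 : Subgroup.IsComplement' A B := by
    apply Subgroup.isComplement'_of_disjoint_and_mul_eq_univ
    · exact disjoint_iff.mpr hd
    · ext g
      simp only [Set.mem_univ, iff_true]
      obtain ⟨a, ha, b, hb, h⟩ := m.fac g
      exact ⟨a, ha, b, hb, h.symm⟩
  exact h1.card_mul_card.symm

theorem disj (m : Min A B) : A ⊓ B = ⊥ := by
  exact Subgroup.inf_eq_bot_of_coprime m.cop

/-- Dedekind. -/
theorem facS_of_le (fac : Fac A B) (h : A ≤ X) : FacS A B X := by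
  intro x hx
  obtain ⟨a, ha, b, hb, hg⟩ := fac x
  refine ⟨a, ha, b, hb, h ha, ?_, hg⟩
  have : b = a⁻¹ * x := by rw [hg]; group
  rw [this]
  exact mul_mem (inv_mem (h ha)) hx

theorem sol_of_le (m : Min A B) (h : A ≤ X) (hX : X ≠ ⊤) : Group.IsSolvable X :=
  m.sub X hX (facS_of_le m.fac h)

/-- For a factorised `X`: `|X| = |A ⊓ X| |B ⊓ X|`. -/
theorem card_facS (m : Min A B) (h : FacS A B X) :
    Nat.card X = Nat.card (A ⊓ X : Subgroup G) * Nat.card (B ⊓ X : Subgroup G) := by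
  have hd : A ⊓ B = ⊥ := Subgroup.inf_eq_bot_of_coprime m.cop
  rw [← Nat.card_prod]
  symm
  apply Nat.card_congr
  refine Equiv.ofBijective (fun z => ⟨(z.1 : G) * z.2, mul_mem z.1.2.2 z.2.2.2⟩) ⟨?_, ?_⟩
  · rintro ⟨⟨a, ha⟩, ⟨b, hb⟩⟩ ⟨⟨a', ha'⟩, ⟨b', hb'⟩⟩ h
    simp only [Subtype.mk.injEq] at h
    have h1 : a'⁻¹ * a = b' * b⁻¹ := by
      have : a'⁻¹ * (a * b) * b⁻¹ = a'⁻¹ * (a' * b') * b⁻¹ := by rw [h]
      simpa [mul_assoc] using this
    have h2 : a'⁻¹ * a ∈ A ⊓ B := by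
      rw [Subgroup.mem_inf]
      refine ⟨A.mul_mem (A.inv_mem ha'.1) ha.1, ?_⟩
      rw [h1]
      exact B.mul_mem hb'.1 (B.inv_mem hb.1)
    rw [hd, Subgroup.mem_bot] at h2
    have e1 : a = a' := (inv_mul_eq_one.mp h2).symm
    rw [h2] at h1
    have e2 : b' = b := (mul_inv_eq_one.mp h1.symm)
    subst e1
    subst e2
    rfl
  · rintro ⟨x, hx⟩
    obtain ⟨a, ha, b, hb, haX, hbX, hg⟩ := h x hx
    exact ⟨⟨⟨a, ha, haX⟩, ⟨b, hb, hbX⟩⟩, Subtype.ext hg.symm⟩

/-- `S p A` is a Sylow subgroup of `G`. -/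
theorem S_sylow (m : Min A B) (hp : p.Prime) (hpA : p ∣ Nat.card A) :
    ∃ P : Sylow p G, (P : Subgroup G) = S p A := by
  have : Fact p.Prime := ⟨hp⟩
  have hB : ¬ p ∣ Nat.card B := by
    intro h
    have h1 := Nat.dvd_gcd hpA h
    rw [m.cop] at h1
    exact hp.one_lt.ne' (Nat.dvd_one.mp h1)
  have hc : Nat.card (S p A) = p ^ (Nat.card G).factorization p := by
    rw [S_card hp, card_eq m, Nat.factorization_mul Nat.card_pos.ne' Nat.card_pos.ne', Finsupp.add_apply,
      Nat.factorization_eq_zero_of_not_dvd hB, add_zero]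
  exact ⟨Sylow.ofCard (S p A) hc, Sylow.coe_ofCard _ _⟩

/-- Every `p` subgroup, `p ∣ |A|`, lies in a conjugate of `S p A`. -/
theorem sub_conj (m : Min A B) (hp : p.Prime) (hpA : p ∣ Nat.card A) {Y : Subgroup G}
    (hY : IsPGroup p Y) : ∃ g : G, Y ≤ MulAut.conj g • S p A := by
  have : Fact p.Prime := ⟨hp⟩
  obtain ⟨P, hP⟩ := S_sylow m hp hpA
  obtain ⟨Q, hQ⟩ := hY.exists_le_sylow
  obtain ⟨g, hg⟩ := MulAction.exists_smul_eq G P Q
  refine ⟨g, ?_⟩
  have e : MulAut.conj g • S p A = (Q : Subgroup G) := by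
    rw [← hP, ← hg]
    rfl
  rw [e]
  exact hQ

/-- The prime divisors of `|A|` and `|B|` are different. -/
theorem ne_of_dvd (m : Min A B) (hp : p.Prime) (hpA : p ∣ Nat.card A)
    (hqB : q ∣ Nat.card B) : p ≠ q := by
  rintro rfl
  have := Nat.dvd_gcd hpA hqB
  rw [m.cop] at this
  exact hp.one_lt.ne' (Nat.dvd_one.mp this)

theorem A_ne_bot (m : Min2 A B) : A ≠ ⊥ := by
  rintro rfl
  obtain ⟨s, hs, -, h⟩ := m.twoA 0
  rw [Subgroup.card_bot] at h
  exact hs.one_lt.ne' (Nat.dvd_one.mp h)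

/-- `G` is not commutative, and a normal subgroup `≠ 1` is `G`; the centre of `G` is trivial. -/
theorem center_bot (m : Min A B) : Subgroup.center G = ⊥ := by
  rcases m.simp (Subgroup.center G) inferInstance with h | h
  · exact h
  · exfalso
    apply m.ns
    apply Group.isSolvable_of_comm
    intro a b
    have : a ∈ Subgroup.center G := by rw [h]; trivial
    exact (Subgroup.mem_center_iff.mp this b).symm

/-- The centraliser of a nontrivial subgroup is not `G`. -/
theorem cent_ne_top (m : Min A B) {D : Subgroup G} (hD : D ≠ ⊥) :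
    Subgroup.centralizer (D : Set G) ≠ ⊤ := by
  intro h
  apply hD
  rw [eq_bot_iff, ← center_bot m]
  intro d hd
  rw [Subgroup.mem_center_iff]
  intro g
  have : g ∈ Subgroup.centralizer (D : Set G) := by rw [h]; trivial
  exact (Subgroup.mem_centralizer_iff.mp this d hd).symm

/-- The normaliser of a nontrivial subgroup, not `G`, is not `G`. -/
theorem norm_ne_top (m : Min A B) {D : Subgroup G} (hD : D ≠ ⊥) (hD' : D ≠ ⊤) :
    Subgroup.normalizer (D : Set G) ≠ ⊤ := by
  intro h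
  have : D.Normal := Subgroup.normalizer_eq_top_iff.mp h
  rcases m.simp D this with h1 | h1
  · exact hD h1
  · exact hD' h1

/-- `g S_p(A) g⁻¹` and `h S_q(B) h⁻¹` are the conjugates of `S_p(A)` and `S_q(B)` by ONE element `x`:
write `g⁻¹ h = a b` and let `x = g a = h b⁻¹`; use `S_norm`. -/
theorem conj_pair (m : Min A B) (hp : p.Prime) (hq : q.Prime) (g h : G) :
    ∃ x : G, MulAut.conj g • S p A = MulAut.conj x • S p A ∧
      MulAut.conj h • S q B = MulAut.conj x • S q B := by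
  obtain ⟨a, ha, b, hb, hab⟩ := m.fac (g⁻¹ * h)
  refine ⟨g * a, ?_, ?_⟩
  · rw [map_mul, mul_smul, S_norm m.nA hp ha]
  · have e : g * a = h * b⁻¹ := by
      have : g * a = g * (a * b) * b⁻¹ := by group
      rw [this, ← hab]
      group
    rw [e, map_mul, mul_smul, S_norm m.nB hq (inv_mem hb)]

end Pool.Agent.H71.KW
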