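import Pool.Agent.H71.KW.Burn
import Pool.Agent.H71.KW.Basic

/-!
# Module Cls: Burnside's class size lemma, and two primes
-/

namespace Pool.Agent.H71.KW

/-- If `|A|` were a power of a prime `p` (or `A = 1`): `B ≠ 1` (a `p` group is soluble); let `w ≠ 1` be in
the centre of `B`; the centraliser of `w` contains `B`, so its index divides `|G : B| = |A|`
(`|G| = |A| |B|` as the orders are coprime and `G = AB`), a power of `p`, so `G` is commutative by
`class_size`, hence soluble, against `m.ns`. -/
theorem two_left {G : Type*} [Group G] [Finite G] {A B : Subgroup G} (m : Min A B) : Two A := by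
  intro p
  by_contra hcon
  have hcon' : ∀ {s : ℕ}, s.Prime → s ∣ Nat.card A → s = p := by
    intro s hs hd
    by_contra hne
    exact hcon ⟨s, hs, hne, hd⟩
  have hA0 : Nat.card A ≠ 0 := Nat.card_pos.ne'
  obtain ⟨p', hp', a, ha⟩ : ∃ p' : ℕ, p'.Prime ∧ ∃ a, Nat.card A = p' ^ a := by
    by_cases hp : p.Prime
    · exact ⟨p, hp, _, Nat.eq_prime_pow_of_unique_prime_dvd hA0 hcon'⟩
    · refine ⟨2, Nat.prime_two, 0, ?_⟩
      rw [pow_zero]
      by_contra h1
      obtain ⟨s, hs, hd⟩ := Nat.exists_prime_and_dvd h1
      exact hp (hcon' hs hd ▸ hs)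
  -- `B` is not trivial
  have hB : Nontrivial B := by
    by_contra hB
    rw [not_nontrivial_iff_subsingleton] at hB
    have hBbot : B = ⊥ := (Subgroup.eq_bot_iff_card _).mpr (Nat.card_eq_one_iff_unique.mpr
      ⟨hB, ⟨1⟩⟩)
    have hAtop : A = ⊤ := by
      rw [eq_top_iff]
      intro g _
      obtain ⟨x, hx, y, hy, rfl⟩ := m.fac g
      rw [hBbot, Subgroup.mem_bot] at hy
      simpa [hy] using hx
    have := m.nA
    have h2 : Group.IsSolvable A := inferInstance
    rw [hAtop] at h2
    exact m.ns (Group.isSolvable_of_surjective (f := (Subgroup.topEquiv (G := G)).toMonoidHom)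
      (Subgroup.topEquiv (G := G)).surjective)
  have hBn := m.nB
  obtain ⟨⟨w, hw⟩, hw1⟩ := Subgroup.ne_bot_iff_exists_ne_one.mp
    (Group.IsNilpotent.center_ne_bot (G := B))
  have hw1' : ((w : B) : G) ≠ 1 := by
    intro h
    apply hw1
    apply Subtype.ext
    apply Subtype.ext
    simpa using h
  have hcent : B ≤ Subgroup.centralizer {((w : B) : G)} := by
    intro b hb
    rw [Subgroup.mem_centralizer_iff]
    intro h hh
    rw [Set.mem_singleton_iff] at hh
    subst hh
    have := (Subgroup.mem_center_iff.mp hw) ⟨b, hb⟩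
    exact (congrArg Subtype.val this).symm
  have hidx : (Subgroup.centralizer {((w : B) : G)}).index ∣ p' ^ a := by
    rw [← ha]
    have h1 : B.index = Nat.card A := by
      have := card_eq m
      have h2 := B.card_mul_index
      rw [this, mul_comm (Nat.card A)] at h2
      exact Nat.eq_of_mul_eq_mul_left Nat.card_pos h2
    rw [← h1]
    exact Subgroup.index_dvd_of_le hcent
  obtain ⟨k, _, hk⟩ := (Nat.dvd_prime_pow hp').mp hidx
  exact m.ns (Group.isSolvable_of_comm (class_size m.simp hw1' hp' hk))

theorem Min.two {G : Type*} [Group G] [Finite G] {A B : Subgroup G} (m : Min A B) : Min2 A B where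
  toMin := m
  twoA := two_left m
  twoB := two_left m.symm

end Pool.Agent.H71.KW
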