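import Pool.Agent.H71.KW.Defs

/-!
# Module Red1: proper subgroups and quotients in a counterexample of minimal order
-/

open scoped Pointwise

namespace Pool.Agent.H71.KW

universe u

/-- The theorem for groups of order less than `n`. -/
def IH (n : ℕ) : Prop :=
  ∀ (G : Type u) [Group G] [Finite G] (A B : Subgroup G), Group.IsNilpotent A →
    Group.IsNilpotent B → Fac A B → Nat.card G < n → Group.IsSolvable G

variable {G : Type u} [Group G] [Finite G] {A B X N : Subgroup G} {p : ℕ}

/-- A proper factorised subgroup is soluble: `IH` for `X` and the subgroups `A.subgroupOf X`,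
`B.subgroupOf X`. -/
theorem sol_sub (ih : IH.{u} (Nat.card G)) (hA : Group.IsNilpotent A)
    (hB : Group.IsNilpotent B) (hX : X ≠ ⊤) (hf : FacS A B X) : Group.IsSolvable X := by
  have hinj : ∀ C : Subgroup G, Group.IsNilpotent C → Group.IsNilpotent (C.subgroupOf X) := by
    intro C hC
    have := hC
    have h1 : Group.IsNilpotent ((C ⊓ X).subgroupOf C) := inferInstance
    have h2 : Group.IsNilpotent (C ⊓ X : Subgroup G) :=
      Group.nilpotent_of_mulEquiv (Subgroup.subgroupOfEquivOfLe inf_le_left)
    have h3 : Group.IsNilpotent ((C ⊓ X).subgroupOf X) :=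
      Group.nilpotent_of_mulEquiv (Subgroup.subgroupOfEquivOfLe inf_le_right).symm
    rwa [Subgroup.inf_subgroupOf_right] at h3
  refine ih X (A.subgroupOf X) (B.subgroupOf X) (hinj A hA) (hinj B hB) ?_ ?_
  · intro g
    obtain ⟨a, ha, b, hb, haX, hbX, hg⟩ := hf g g.2
    exact ⟨⟨a, haX⟩, ha, ⟨b, hbX⟩, hb, Subtype.ext hg⟩
  · refine lt_of_le_of_ne (Subgroup.card_le_card_group X) ?_
    intro h
    exact hX (Subgroup.eq_top_of_card_eq X h)

/-- A proper quotient is soluble: `IH` for `G ⧸ N` and the images of `A` and `B`. -/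
theorem sol_quot (ih : IH.{u} (Nat.card G)) (hA : Group.IsNilpotent A)
    (hB : Group.IsNilpotent B) (fac : Fac A B) [N.Normal] (hN : N ≠ ⊥) :
    Group.IsSolvable (G ⧸ N) := by
  have hlt : Nat.card (G ⧸ N) < Nat.card G := by
    have h1 : Nat.card G = Nat.card (G ⧸ N) * Nat.card N :=
      Subgroup.card_eq_card_quotient_mul_card_subgroup N
    have h2 : 1 < Nat.card N := by
      by_contra hc
      exact hN (Subgroup.eq_bot_of_card_le N (by omega))
    have h3 : 0 < Nat.card (G ⧸ N) := Nat.card_pos
    rw [h1]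
    nlinarith
  refine ih (G ⧸ N) (A.map (QuotientGroup.mk' N)) (B.map (QuotientGroup.mk' N)) ?_ ?_ ?_ hlt
  · exact Group.nilpotent_of_surjective ((QuotientGroup.mk' N).subgroupMap A)
      ((QuotientGroup.mk' N).subgroupMap_surjective A)
  · exact Group.nilpotent_of_surjective ((QuotientGroup.mk' N).subgroupMap B)
      ((QuotientGroup.mk' N).subgroupMap_surjective B)
  · intro q
    induction q using QuotientGroup.induction_on with
    | H g =>
      obtain ⟨a, ha, b, hb, rfl⟩ := fac g
      exact ⟨_, ⟨a, ha, rfl⟩, _, ⟨b, hb, rfl⟩, rfl⟩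

private theorem solvable_of_quot {N : Subgroup G} [N.Normal] (h1 : Group.IsSolvable N)
    (h2 : Group.IsSolvable (G ⧸ N)) : Group.IsSolvable G := by
  have := h1
  have := h2
  refine Group.isSolvable_of_ker_le_range N.subtype (QuotientGroup.mk' N) ?_
  rw [QuotientGroup.ker_mk', Subgroup.range_subtype]

/-- If `G` is not soluble then a normal soluble subgroup is trivial. -/
theorem no_sol (ih : IH.{u} (Nat.card G)) (hA : Group.IsNilpotent A)
    (hB : Group.IsNilpotent B) (fac : Fac A B) (ns : ¬ Group.IsSolvable G)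
    (hN : N.Normal) (hs : Group.IsSolvable N) : N = ⊥ := by
  by_contra hne
  have := hN
  exact ns (solvable_of_quot hs (sol_quot ih hA hB fac hne))

/-- Two normal subgroups which commute elementwise: one of them is trivial (their
intersection is abelian, so trivial by `no_sol`, and `G` embeds in the product of the two quotients,
which are soluble). -/
theorem comm_normal (ih : IH.{u} (Nat.card G)) (hA : Group.IsNilpotent A)
    (hB : Group.IsNilpotent B) (fac : Fac A B) (ns : ¬ Group.IsSolvable G)
    {N₁ N₂ : Subgroup G} (h₁ : N₁.Normal) (h₂ : N₂.Normal) (h : ⁅N₁, N₂⁆ = ⊥) :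
    N₁ = ⊥ ∨ N₂ = ⊥ := by
  by_contra hc
  push Not at hc
  obtain ⟨hc1, hc2⟩ := hc
  have s1 : Group.IsSolvable (G ⧸ N₁) := sol_quot ih hA hB fac hc1
  have s2 : Group.IsSolvable (G ⧸ N₂) := sol_quot ih hA hB fac hc2
  have hab : Group.IsSolvable (N₁ ⊓ N₂ : Subgroup G) := by
    refine Group.isSolvable_of_comm ?_
    intro x y
    have h1 := Subgroup.commutator_mem_commutator x.2.1 y.2.2
    rw [h, Subgroup.mem_bot, commutatorElement_eq_one_iff_mul_comm] at h1
    exact Subtype.ext h1
  have hD : N₁ ⊓ N₂ = ⊥ := no_sol ih hA hB fac ns inferInstance hab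
  apply ns
  let f : G →* (G ⧸ N₁) × (G ⧸ N₂) := (QuotientGroup.mk' N₁).prod (QuotientGroup.mk' N₂)
  have hf : Function.Injective f := by
    rw [← MonoidHom.ker_eq_bot_iff, MonoidHom.ker_prod, QuotientGroup.ker_mk',
      QuotientGroup.ker_mk']
    exact hD
  exact Group.isSolvable_of_isSolvable_injective hf

end Pool.Agent.H71.KW
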