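import Pool.Agent.H71.KW.Nil
import Pool.Agent.H87.KW.Red

/-!
# Module Red2: the Sylow subgroups of `A` and `B` permute
-/

open scoped Pointwise

namespace Pool.Agent.H71.KW

variable {G : Type*} [Group G] [Finite G] {A B X : Subgroup G} {p q : ℕ}

/-- `S p A` and `S p B` permute (for every finite `G = AB`, `A`, `B` nilpotent): there is a Sylow
`p` subgroup `P` of `G` containing `S p A` and one containing `S p B`, conjugate to `P` by `g = a b`,
and so (conjugating) a Sylow `p` subgroup `Q` containing both. The order of `Q` is
`|A|_p |B|_p / |A ⊓ B|_p`, and the set `S p A * S p B` has at least that many elements, as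
`S p A ⊓ S p B` is a `p` subgroup of `A ⊓ B`. So `Q = S_p(A) S_p(B)`. -/
theorem per_S (hA : Group.IsNilpotent A) (hB : Group.IsNilpotent B) (fac : Fac A B)
    (hp : p.Prime) : Per (S p A) (S p B) := by
  have := hA
  have := hB
  have : Fact p.Prime := ⟨hp⟩
  have h : H87.KW.Perm (S p A) (S p B) :=
    H87.KW.perm_sylow A B fac (default : Sylow p A) (default : Sylow p B)
  exact fun x hx => h.exists_mul hx

end Pool.Agent.H71.KW
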