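import Pool.Agent.H71.KW.Kegel
import Pool.Agent.H71.KW.Red1
import Pool.Agent.H71.KW.Red2

/-!
# Module Red: reduction of the theorem to the situation `Min`
-/

open scoped Pointwise

namespace Pool.Agent.H71.KW

universe u

variable {G : Type u} [Group G] [Finite G] {A B X N : Subgroup G} {p : ℕ}

/-- The orders of `A` and `B` are coprime: if the prime `p` divides both, `per_S` and `per_conj`
show that `S p A` permutes with all conjugates of `S p B`; by `pw` (for all conjugates of
`S p B`) and `no_sol` (a normal `p` subgroup is trivial) `S p A` commutes with all conjugates of `S p B`, so the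
normal closures of `S p A` and `S p B` commute; `comm_normal` and `S_ne_bot`. -/
theorem cop (ih : IH.{u} (Nat.card G)) (hA : Group.IsNilpotent A)
    (hB : Group.IsNilpotent B) (fac : Fac A B) (ns : ¬ Group.IsSolvable G) :
    (Nat.card A).Coprime (Nat.card B) := by
  by_contra hc
  obtain ⟨p, hp, hpA, hpB⟩ := Nat.Prime.not_coprime_iff_dvd.1 hc
  have : Fact p.Prime := ⟨hp⟩
  have hconj : ∀ g : G, H87.KW.Perm (S p A) (MulAut.conj g • S p B) := by
    intro g
    have h := per_conj fac (fun a ha => S_norm hA hp ha) (fun b hb => S_norm hB hp hb)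
      (per_S hA hB fac hp) g
    intro x hx y hy
    obtain ⟨k, hk, l, hl, e⟩ := h.symm (x * y) (mul_mem ((le_sup_right : S p A ≤ _) hx)
      ((le_sup_left : MulAut.conj g • S p B ≤ _) hy))
    exact ⟨k, hk, l, hl, e⟩
  obtain ⟨N, hN, hNp, hle⟩ := H87.KW.kegel_comm (S p A) (S p B) (S_pgroup hp A) (S_pgroup hp B)
    hconj
  have hNnil : Group.IsNilpotent N := hNp.isNilpotent
  have hNs : Group.IsSolvable N := inferInstance
  have hNb := no_sol ih hA hB fac ns hN hNs
  rw [hNb, le_bot_iff] at hle
  rcases comm_normal ih hA hB fac ns Subgroup.normalClosure_normal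
    Subgroup.normalClosure_normal hle with h | h
  · exact S_ne_bot hp hpA (le_bot_iff.1 (h ▸ Subgroup.le_normalClosure))
  · exact S_ne_bot hp hpB (le_bot_iff.1 (h ▸ Subgroup.le_normalClosure))

private theorem index_eq (fac : Fac A B) (hc : (Nat.card A).Coprime (Nat.card B)) :
    A.index = Nat.card B := by
  have hd : A ⊓ B = ⊥ := Subgroup.inf_eq_bot_of_coprime hc
  have h1 := H87.KW.relIndex_sup_of_perm (H87.KW.perm_of_mul fac).symm
  rw [sup_comm, H87.KW.sup_eq_top_of_mul fac, Subgroup.relIndex_top_right] at h1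
  have h2 := H87.KW.card_relIndex_mul B A
  rw [inf_comm, hd, Subgroup.card_bot, mul_one] at h2
  rw [h1, h2]

private theorem relIndex_dvd (hN : N.Normal) : A.relIndex N ∣ A.index := by
  have hp : H87.KW.Perm N A := by
    intro x hx y hy
    refine ⟨y, hy, y⁻¹ * x * y, ?_, by group⟩
    have := hN.conj_mem x hx y⁻¹
    simpa using this
  rw [← H87.KW.relIndex_sup_of_perm hp]
  exact Dvd.intro _ (Subgroup.relIndex_mul_index le_sup_right)

/-- When the orders are coprime every normal subgroup `N` is factorised: `|N|` divides `|A| |B|`, and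
`|N ⊓ A|` is the part of `|N|` prime to `|B|` (`A` is a Hall subgroup, `N` is normal: `|A N : A|`
divides `|B|` and `= |N : N ⊓ A|`). -/
theorem facS_normal (fac : Fac A B) (hc : (Nat.card A).Coprime (Nat.card B)) (hN : N.Normal) :
    FacS A B N := by
  have hA : A.relIndex N ∣ Nat.card B := index_eq fac hc ▸ relIndex_dvd hN
  have hB : B.relIndex N ∣ Nat.card A := index_eq fac.symm hc.symm ▸ relIndex_dvd hN
  have eA := H87.KW.card_relIndex_mul N A
  have eB := H87.KW.card_relIndex_mul N B
  have dA : Nat.card (N ⊓ A : Subgroup G) ∣ Nat.card A := Subgroup.card_dvd_of_le inf_le_right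
  have dB : Nat.card (N ⊓ B : Subgroup G) ∣ Nat.card B := Subgroup.card_dvd_of_le inf_le_right
  have hcard : Nat.card (N ⊓ A : Subgroup G) * Nat.card (N ⊓ B : Subgroup G) = Nat.card N := by
    set a := Nat.card (N ⊓ A : Subgroup G) with ha
    set b := Nat.card (N ⊓ B : Subgroup G) with hb
    set b' := A.relIndex N with hb'
    set a' := B.relIndex N with ha'
    have c1 : Nat.Coprime b' a' := (hc.symm.coprime_dvd_left hA).coprime_dvd_right hB
    have c2 : Nat.Coprime b a := (hc.symm.coprime_dvd_left dB).coprime_dvd_right dA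
    have h1 : b' ∣ b := by
      have : b' ∣ a' * b := by rw [eB, ← eA]; exact Dvd.intro _ rfl
      exact c1.dvd_of_dvd_mul_left this
    have h2 : b ∣ b' := by
      have : b ∣ b' * a := by rw [eA, ← eB]; exact Dvd.intro_left _ rfl
      exact c2.dvd_of_dvd_mul_right this
    rw [← eA, Nat.dvd_antisymm h1 h2, mul_comm]
  have cA : Nat.card (A.subgroupOf N) = Nat.card (N ⊓ A : Subgroup G) := by
    rw [← Subgroup.inf_subgroupOf_left]
    exact Nat.card_congr (Subgroup.subgroupOfEquivOfLe inf_le_left).toEquiv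
  have cB : Nat.card (B.subgroupOf N) = Nat.card (N ⊓ B : Subgroup G) := by
    rw [← Subgroup.inf_subgroupOf_left]
    exact Nat.card_congr (Subgroup.subgroupOfEquivOfLe inf_le_left).toEquiv
  have hcompl : Subgroup.IsComplement' (A.subgroupOf N) (B.subgroupOf N) := by
    refine Subgroup.isComplement'_of_coprime ?_ ?_
    · rw [cA, cB]; exact hcard
    · rw [cA, cB]; exact (hc.coprime_dvd_left dA).coprime_dvd_right dB
  intro x hx
  obtain ⟨⟨⟨a, ha⟩, ⟨b, hb⟩⟩, hab⟩ := hcompl.2 ⟨x, hx⟩
  refine ⟨a, ha, b, hb, a.2, b.2, ?_⟩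
  have := congrArg (fun z : N => (z : G)) hab
  simpa using this.symm

/-- Conclusion. `Simp`: `N` normal, not trivial and not `G`, is soluble by `facS_normal`
and `sol_sub`, against `no_sol`. -/
theorem min_of (ih : IH.{u} (Nat.card G)) (hA : Group.IsNilpotent A)
    (hB : Group.IsNilpotent B) (fac : Fac A B) (ns : ¬ Group.IsSolvable G) : Min A B := by
  have hc := cop ih hA hB fac ns
  refine ⟨hA, hB, fac, hc, ?_, ns, fun X hX hf => sol_sub ih hA hB hX hf⟩
  intro N hN
  by_cases ht : N = ⊤
  · exact Or.inr ht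
  · exact Or.inl (no_sol ih hA hB fac ns hN (sol_sub ih hA hB ht (facS_normal fac hc hN)))

end Pool.Agent.H71.KW
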