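import Pool.Agent.H71.KW.Fin
import Pool.Agent.H71.KW.Red
import Pool.Agent.H71.KW.Cls

/-!
# Kegel Wielandt: a finite product of two nilpotent groups is soluble
-/

namespace Pool.Agent.H71.KW

universe u

theorem ih_all (n : ℕ) : IH.{u} n := by
  induction n with
  | zero => intro G _ _ A B _ _ _ h; exact absurd h (Nat.not_lt_zero _)
  | succ n ih =>
    intro G _ _ A B hA hB fac h
    by_contra ns
    rcases Nat.lt_succ_iff_lt_or_eq.mp h with h1 | h1
    · exact ns (ih G A B hA hB fac h1)
    · subst h1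
      exact no_min2 (min_of ih hA hB fac ns).two

/-- THEOREM (Wielandt, Kegel). -/
theorem isSolvable_of_mul {G : Type u} [Group G] [Finite G] (A B : Subgroup G)
    (hA : Group.IsNilpotent A) (hB : Group.IsNilpotent B)
    (h : ∀ g : G, ∃ a ∈ A, ∃ b ∈ B, g = a * b) : Group.IsSolvable G :=
  ih_all (Nat.card G + 1) G A B hA hB h (Nat.lt_succ_self _)

end Pool.Agent.H71.KW
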