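import Pool.Agent.H71.KW.Defs
import Pool.Agent.H10.Burn

/-!
# Module Burn: Burnside's class size lemma (proved by helper10 in H10/Burn)
-/

namespace Pool.Agent.H71.KW

theorem class_size {G : Type*} [Group G] [Finite G] (hs : Simp G) {g : G} (hg : g ≠ 1)
    {p a : ℕ} (hp : p.Prime) (h : (Subgroup.centralizer {g}).index = p ^ a) :
    ∀ x y : G, x * y = y * x := by
  have : Nontrivial G := ⟨⟨g, 1, hg⟩⟩
  have hsimple : IsSimpleGroup G := ⟨fun N hN => hs N hN⟩
  exact H10.Burn.burnside_class g hg p a hp h hsimple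

end Pool.Agent.H71.KW
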