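import Pool.Agent.H71.KW.ClA2

/-!
# Module ClA: `A` is normal in every proper subgroup containing it
-/

open scoped Pointwise

namespace Pool.Agent.H71.KW

variable {G : Type*} [Group G] [Finite G] {A B X : Subgroup G} {p q r : ℕ}

/-- The index of `A ⊓ C` in `C` divides the index of `A` if `A` normalises `C`. -/
theorem ClA_relIndex {A C : Subgroup G} (h : A ≤ Subgroup.normalizer (C : Set G)) :
    A.relIndex C ∣ A.index := by
  let N := Subgroup.normalizer (C : Set G)
  have hCN : C ≤ N := Subgroup.le_normalizer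
  let A' := A.subgroupOf N
  let C' := C.subgroupOf N
  have hn : C'.Normal := Subgroup.normal_in_normalizer
  have h1 : C'.relIndex (A' ⊔ C') = C'.relIndex A' := Subgroup.relIndex_sup_right _ _
  -- cardinalities in `A' ⊔ C'`
  have h2 : Nat.card A' * A'.relIndex (A' ⊔ C') = Nat.card (A' ⊔ C' : Subgroup N) := by
    have := Subgroup.card_mul_index (A'.subgroupOf (A' ⊔ C'))
    rwa [Nat.card_congr (Subgroup.subgroupOfEquivOfLe (le_sup_left : A' ≤ A' ⊔ C')).toEquiv] at this
  have h3 : Nat.card C' * C'.relIndex (A' ⊔ C') = Nat.card (A' ⊔ C' : Subgroup N) := by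
    have := Subgroup.card_mul_index (C'.subgroupOf (A' ⊔ C'))
    rwa [Nat.card_congr (Subgroup.subgroupOfEquivOfLe (le_sup_right : C' ≤ A' ⊔ C')).toEquiv] at this
  have h4 : Nat.card (A' ⊓ C' : Subgroup N) * C'.relIndex A' = Nat.card A' := by
    have := Subgroup.card_mul_index (C'.subgroupOf A')
    rw [← Subgroup.inf_subgroupOf_left] at this
    rwa [Nat.card_congr (Subgroup.subgroupOfEquivOfLe (inf_le_left : A' ⊓ C' ≤ A')).toEquiv,
      Subgroup.inf_subgroupOf_left] at this
  have h5 : Nat.card (A' ⊓ C' : Subgroup N) * A'.relIndex C' = Nat.card C' := by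
    have := Subgroup.card_mul_index (A'.subgroupOf C')
    rw [← Subgroup.inf_subgroupOf_right] at this
    rwa [Nat.card_congr (Subgroup.subgroupOfEquivOfLe (inf_le_right : A' ⊓ C' ≤ C')).toEquiv,
      Subgroup.inf_subgroupOf_right] at this
  have h6 : A'.relIndex (A' ⊔ C') = A'.relIndex C' := by
    have hpos1 : 0 < Nat.card (A' ⊓ C' : Subgroup N) := Nat.card_pos
    have hpos2 : 0 < C'.relIndex A' := by
      rw [Nat.pos_iff_ne_zero]
      exact Subgroup.index_ne_zero_of_finite
    have h7 : (Nat.card (A' ⊓ C' : Subgroup N) * C'.relIndex A') * A'.relIndex (A' ⊔ C') =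
        (Nat.card (A' ⊓ C' : Subgroup N) * C'.relIndex A') * A'.relIndex C' := by
      rw [h4, h2, ← h3, h1, ← h5, ← h4]
      ring
    exact Nat.eq_of_mul_eq_mul_left (Nat.mul_pos hpos1 hpos2) h7
  have h8 : A.relIndex C = A'.relIndex C' := by
    rw [Subgroup.relIndex_subgroupOf hCN]
  have h9 : A'.relIndex (A' ⊔ C') ∣ A'.index :=
    Subgroup.relIndex_dvd_index_of_le le_sup_left
  have h10 : A'.index ∣ A.index := Subgroup.relIndex_dvd_index_of_le h
  rw [h8, ← h6]
  exact h9.trans h10

/-- So `C = CA A X r` is normal in `X`, of order prime to `|B|`, hence `C ≤ A` (`A C` is a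
subgroup of order prime to `|B|`, and `|G| = |A| |B|`, so `|A C|` divides `|A|`). So `S r A ≤ C ≤ A`: `S r A`
is the set of `r` elements of `C` (`S_mem`), so `X` normalises `S r A`. For all `r`: `X` normalises
`A` (`le_of_S`). -/
theorem clA (m : Min2 A B) (h : A ≤ X) (hX : X ≠ ⊤) :
    X ≤ Subgroup.normalizer (A : Set G) := by
  have hidx : A.index = Nat.card B := by
    have h1 := A.card_mul_index
    rw [card_eq m.toMin] at h1
    exact Nat.eq_of_mul_eq_mul_left Nat.card_pos h1
  have hCA : ∀ r : ℕ, r.Prime → r ∣ Nat.card A → CA A X r ≤ A := by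
    intro r hr hrA
    rw [← Subgroup.relIndex_eq_one]
    have h1 : A.relIndex (CA A X r) ∣ Nat.card B := by
      rw [← hidx]
      exact ClA_relIndex (h.trans (CA_norm A X r))
    have h2 : A.relIndex (CA A X r) ∣ Nat.card (CA A X r) := Subgroup.relIndex_dvd_card _ _
    have h3 : Nat.Coprime (Nat.card (CA A X r)) (Nat.card B) := by
      rw [Nat.coprime_iff_gcd_eq_one]
      by_contra hne
      obtain ⟨q, hq, hqd⟩ := Nat.exists_prime_and_dvd hne
      exact CA_no_q m h hX hr hrA hq (hqd.trans (Nat.gcd_dvd_right _ _))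
        (hqd.trans (Nat.gcd_dvd_left _ _))
    have h4 := Nat.dvd_gcd h2 h1
    rw [h3] at h4
    exact Nat.dvd_one.1 h4
  -- conjugation preserves `S r A`
  have hS : ∀ x ∈ X, ∀ r : ℕ, r.Prime → r ∣ Nat.card A → ∀ y ∈ S r A, x * y * x⁻¹ ∈ S r A := by
    intro x hx r hr hrA y hy
    have h1 : y ∈ CA A X r := S_le_CA m h hr hy
    have h2 := CA_norm A X r hx
    rw [Subgroup.mem_normalizer_iff] at h2
    have h3 : x * y * x⁻¹ ∈ A := hCA r hr hrA ((h2 y).1 h1)
    obtain ⟨k, hk⟩ := (S_pgroup hr A) ⟨y, hy⟩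
    have h4 : y ^ r ^ k = 1 := by simpa using congrArg Subtype.val hk
    refine S_mem m.nA hr h3 (k := k) ?_
    rw [conj_pow, h4, mul_one, mul_inv_cancel]
  have hA : ∀ x ∈ X, ∀ y ∈ A, x * y * x⁻¹ ∈ A := by
    intro x hx
    have h1 : A ≤ A.comap (MulAut.conj x).toMonoidHom := by
      apply le_of_S
      intro p hp hpA y hy
      rw [Subgroup.mem_comap]
      exact S_le p A (hS x hx p hp hpA y hy)
    intro y hy
    exact h1 hy
  intro x hx
  rw [Subgroup.mem_normalizer_iff]
  intro y
  constructor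
  · exact hA x hx y
  · intro hy
    have := hA x⁻¹ (inv_mem hx) _ hy
    simpa [mul_assoc] using this

end Pool.Agent.H71.KW
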