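import Pool.Agent.H71.KW.Nil

/-!
# Module Core: the subgroups `Op p X` and the Fitting subgroup of a soluble group
-/

open scoped Pointwise

namespace Pool.Agent.H71.KW

variable {G : Type*} [Group G] [Finite G] {X : Subgroup G} {p : ℕ}

theorem Op_le (p : ℕ) (X : Subgroup G) : Op p X ≤ X :=
  sSup_le fun _ hN => hN.1

theorem Op_norm (p : ℕ) (X : Subgroup G) : X ≤ Subgroup.normalizer (Op p X : Set G) := by
  rw [Subgroup.le_normalizer_iff]
  intro x hx k hk
  have h1 : Op p X ≤ (Op p X).comap (MulAut.conj x).toMonoidHom := by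
    refine sSup_le fun N hN => ?_
    intro n hn
    rw [Subgroup.mem_comap]
    have h2 : N ≤ Op p X := le_sSup hN
    exact h2 ((Subgroup.le_normalizer_iff.1 hN.2.1) x hx n hn)
  exact h1 hk

private theorem Core_dir (p : ℕ) (X : Subgroup G) :
    DirectedOn (· ≤ ·) {N : Subgroup G | N ≤ X ∧ X ≤ Subgroup.normalizer (N : Set G) ∧
      IsPGroup p N} := by
  intro N hN K hK
  refine ⟨N ⊔ K, ⟨sup_le hN.1 hK.1, ?_, ?_⟩, le_sup_left, le_sup_right⟩
  · rw [Subgroup.le_normalizer_iff]
    intro x hx k hk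
    have h1 : N ⊔ K ≤ (N ⊔ K).comap (MulAut.conj x).toMonoidHom := by
      refine sup_le ?_ ?_
      · intro n hn
        rw [Subgroup.mem_comap]
        exact (le_sup_left : N ≤ N ⊔ K) ((Subgroup.le_normalizer_iff.1 hN.2.1) x hx n hn)
      · intro n hn
        rw [Subgroup.mem_comap]
        exact (le_sup_right : K ≤ N ⊔ K) ((Subgroup.le_normalizer_iff.1 hK.2.1) x hx n hn)
    exact h1 hk
  · exact IsPGroup.to_sup_of_normal_right' hN.2.2 hK.2.2 (hN.1.trans hK.2.1)

theorem Op_pgroup (hp : p.Prime) (X : Subgroup G) : IsPGroup p (Op p X) := by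
  intro g
  have h1 : (g : G) ∈ sSup {N : Subgroup G | N ≤ X ∧ X ≤ Subgroup.normalizer (N : Set G) ∧
      IsPGroup p N} := g.2
  have hne : {N : Subgroup G | N ≤ X ∧ X ≤ Subgroup.normalizer (N : Set G) ∧
      IsPGroup p N}.Nonempty := by
    refine ⟨⊥, bot_le, ?_, IsPGroup.of_bot⟩
    rw [Subgroup.le_normalizer_iff]
    intro x _ k hk
    rw [Subgroup.mem_bot] at hk ⊢
    simp [hk]
  rw [Subgroup.mem_sSup_of_directedOn hne (Core_dir p X)] at h1
  obtain ⟨N, hN, hg⟩ := h1
  obtain ⟨k, hk⟩ := hN.2.2 ⟨g, hg⟩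
  refine ⟨k, ?_⟩
  apply Subtype.ext
  have := congrArg Subtype.val hk
  simpa using this

theorem Op_max {N : Subgroup G} (h1 : N ≤ X) (h2 : X ≤ Subgroup.normalizer (N : Set G))
    (h3 : IsPGroup p N) : N ≤ Op p X :=
  le_sSup ⟨h1, h2, h3⟩

/-- `Op p X` lies in every Sylow `p` subgroup of `X`. -/
theorem Op_le_sylow (hp : p.Prime) {P : Subgroup G} (hP : P ≤ X) (hPp : IsPGroup p P)
    (hidx : ¬ p ∣ P.relIndex X) : Op p X ≤ P := by
  have : Fact p.Prime := ⟨hp⟩
  have h1 : IsPGroup p (P ⊔ Op p X : Subgroup G) :=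
    IsPGroup.to_sup_of_normal_right' hPp (Op_pgroup hp X) (hP.trans (Op_norm p X))
  have h2 : P ⊔ Op p X ≤ X := sup_le hP (Op_le p X)
  have h3 : P.relIndex (P ⊔ Op p X) ∣ P.relIndex X :=
    Dvd.intro _ (Subgroup.relIndex_mul_relIndex P (P ⊔ Op p X) X le_sup_left h2)
  obtain ⟨n, hn⟩ := IsPGroup.iff_card.1 h1
  have h4 : P.relIndex (P ⊔ Op p X) ∣ p ^ n := hn ▸ Subgroup.relIndex_dvd_card _ _
  obtain ⟨m, -, hm⟩ := (Nat.dvd_prime_pow hp).1 h4
  have h5 : m = 0 := by
    by_contra hne
    apply hidx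
    refine dvd_trans ?_ h3
    rw [hm]
    exact dvd_pow_self p hne
  rw [h5, pow_zero, Subgroup.relIndex_eq_one] at hm
  exact le_sup_right.trans hm

private theorem Core_S_le_Op {K : Subgroup G} (hK : Group.IsNilpotent K) (hKX : K ≤ X)
    (hn : X ≤ Subgroup.normalizer (K : Set G)) (hp : p.Prime) : S p K ≤ Op p X := by
  refine Op_max ((S_le p K).trans hKX) ?_ (S_pgroup hp K)
  intro x hx
  rw [Subgroup.mem_normalizer_iff_map_conj_eq]
  have h1 : MulAut.conj x • K = K := by
    have := Subgroup.mem_normalizer_iff_map_conj_eq.1 (hn hx)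
    exact this
  exact S_char hK hp h1

omit [Finite G] in
private theorem Core_nil2 {K : Subgroup G}
    (h : ∀ a ∈ K, ∀ b ∈ K, ∀ c ∈ K, (a * b * a⁻¹ * b⁻¹) * c = c * (a * b * a⁻¹ * b⁻¹)) :
    Group.IsNilpotent K := by
  have hc : commutator K ≤ Subgroup.center K := by
    rw [commutator_def, Subgroup.commutator_le]
    intro a _ b _
    rw [Subgroup.mem_center_iff]
    intro c
    have := h a a.2 b b.2 c c.2
    apply Subtype.ext
    simp only [commutatorElement_def, Subgroup.coe_mul, Subgroup.coe_inv]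
    exact this.symm
  refine Subgroup.isNilpotent_of_ker_le_center (Abelianization.of (G := K)) ?_
  rw [Abelianization.ker_of]
  exact hc

/-- the derived series of `C` inside `G` -/
private def Core_D (C : Subgroup G) : ℕ → Subgroup G
  | 0 => C
  | n + 1 => ⁅Core_D C n, Core_D C n⁆

omit [Finite G] in
private theorem Core_D_le (C : Subgroup G) (n : ℕ) : Core_D C n ≤ C := by
  induction n with
  | zero => exact le_refl _
  | succ n ih =>
    refine le_trans ?_ ih
    change ⁅Core_D C n, Core_D C n⁆ ≤ _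
    rw [Subgroup.commutator_le]
    intro a ha b hb
    exact mul_mem (mul_mem (mul_mem ha hb) (inv_mem ha)) (inv_mem hb)

omit [Finite G] in
private theorem Core_D_bound {C : Subgroup G} (hC : C ≤ X) (n : ℕ) :
    Core_D C n ≤ (derivedSeries X n).map X.subtype := by
  induction n with
  | zero =>
    rw [derivedSeries_zero, ← MonoidHom.range_eq_map, Subgroup.range_subtype]
    exact hC
  | succ n ih =>
    rw [derivedSeries_succ, Subgroup.map_commutator]
    exact Subgroup.commutator_mono ih ih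

omit [Finite G] in
private theorem Core_D_norm {C : Subgroup G} (hC : X ≤ Subgroup.normalizer (C : Set G)) (n : ℕ) :
    X ≤ Subgroup.normalizer (Core_D C n : Set G) := by
  induction n with
  | zero => exact hC
  | succ n ih =>
    intro x hx
    have h1 := ih hx
    rw [Subgroup.mem_normalizer_iff_map_conj_eq] at h1 ⊢
    change Subgroup.map _ ⁅Core_D C n, Core_D C n⁆ = ⁅Core_D C n, Core_D C n⁆
    rw [Subgroup.map_commutator, h1]

private theorem Core_nil_le {K : Subgroup G} (hK : Group.IsNilpotent K) (hKX : K ≤ X)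
    (hn : X ≤ Subgroup.normalizer (K : Set G)) : K ≤ Fit X := by
  refine le_of_S fun r hr _ => ?_
  exact (Core_S_le_Op hK hKX hn hr).trans
    (le_iSup (fun q : {q : ℕ // q.Prime} => Op q.1 X) ⟨r, hr⟩)

omit [Finite G] in
private theorem Core_Fit_norm' {F : Subgroup G} (h : ∀ g ∈ X, ∀ y ∈ F, g * y * g⁻¹ ∈ F) :
    X ≤ Subgroup.normalizer ((X ⊓ Subgroup.centralizer (F : Set G) : Subgroup G) : Set G) := by
  rw [Subgroup.le_normalizer_iff]
  intro x hx k hk
  obtain ⟨hk1, hk2⟩ := Subgroup.mem_inf.1 hk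
  refine Subgroup.mem_inf.2 ⟨mul_mem (mul_mem hx hk1) (inv_mem hx), ?_⟩
  rw [Subgroup.mem_centralizer_iff] at hk2 ⊢
  intro y hy
  have h1 := hk2 (x⁻¹ * y * x) (by
    have := h x⁻¹ (inv_mem hx) y hy
    simpa using this)
  calc y * (x * k * x⁻¹) = x * ((x⁻¹ * y * x) * k) * x⁻¹ := by group
    _ = x * (k * (x⁻¹ * y * x)) * x⁻¹ := by rw [h1]
    _ = x * k * x⁻¹ * y := by group

private theorem Core_Fit_norm (X : Subgroup G) : ∀ g ∈ X, ∀ y ∈ Fit X, g * y * g⁻¹ ∈ Fit X := by
  intro g hg y hy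
  have h1 : Fit X ≤ (Fit X).comap (MulAut.conj g).toMonoidHom := by
    refine iSup_le fun q => ?_
    intro n hn
    rw [Subgroup.mem_comap]
    exact (le_iSup (fun q : {q : ℕ // q.Prime} => Op q.1 X) q)
      ((Subgroup.le_normalizer_iff.1 (Op_norm q.1 X)) g hg n hn)
  exact h1 hy

/-- For a finite soluble `X`: an element of `X` of `p` power order which commutes with all
`O_r(X)`, `r` prime, lies in `O_p(X)`. Proof: let `F` be the join of all `Op r X`, `C = C_X(F)`
(normal in `X`), `Z = C ⊓ F`, the centre of `F` . If `C` is not contained in `F`, then `C/Z` is a nontrivial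
normal soluble subgroup of `X/Z`; its last nontrivial derived subgroup is `K/Z` with `K` normal in
`X`, `K ≤ C`, `⁅K, K⁆ ≤ Z`, and `Z` central in `K`, so `K` is nilpotent; the Sylow subgroups of `K` are
characteristic in `K`, hence normalised by `X`, so they lie in `F`, `K ≤ F ⊓ C = Z`, contradiction. So
`C ≤ F`. (One can also use: a subgroup `K`, normal in `X`, `K` nilpotent, lies in `F`.) So our element
`x` is in `F`, even in the centre of `F`; the subgroup of all `p` elements of the (abelian) centre of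
`F` is normalised by `X`, it is a `p` group, so it lies in `Op p X` by `Op_max`. -/
theorem fit_p (hX : Group.IsSolvable X) (hp : p.Prime) {x : G} (hx : x ∈ X) {k : ℕ}
    (hk : x ^ p ^ k = 1) (h : ∀ r : ℕ, r.Prime → ∀ y ∈ Op r X, x * y = y * x) :
    x ∈ Op p X := by
  set C : Subgroup G := X ⊓ Subgroup.centralizer (Fit X : Set G) with hC
  have hCn : X ≤ Subgroup.normalizer (C : Set G) := Core_Fit_norm' (Core_Fit_norm X)
  have hCX : C ≤ X := inf_le_left
  have hcomm : ∀ c ∈ C, ∀ y ∈ Fit X, y * c = c * y := fun c hc y hy =>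
    (Subgroup.mem_centralizer_iff.1 (Subgroup.mem_inf.1 hc).2) y hy
  have hxC : x ∈ C := by
    refine Subgroup.mem_inf.2 ⟨hx, ?_⟩
    have h1 : Fit X ≤ Subgroup.centralizer ({x} : Set G) := by
      refine iSup_le fun q => ?_
      intro y hy
      rw [Subgroup.mem_centralizer_singleton_iff]
      first
        | exact (h q.1 q.2 y hy)
        | exact (h q.1 q.2 y hy).symm
    rw [Subgroup.mem_centralizer_iff]
    intro y hy
    have := Subgroup.mem_centralizer_singleton_iff.1 (h1 hy)
    exact this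
  have hCF : C ≤ Fit X := by
    obtain ⟨n, hn⟩ := hX.solvable
    have h0 : ∃ n, Core_D C n ≤ Fit X := by
      refine ⟨n, (Core_D_bound hCX n).trans ?_⟩
      rw [hn, Subgroup.map_bot]
      exact bot_le
    classical
    set m := Nat.find h0 with hm
    have hm1 : Core_D C m ≤ Fit X := Nat.find_spec h0
    rcases Nat.eq_zero_or_pos m with hz | hpos
    · rw [hz] at hm1
      exact hm1
    · exfalso
      obtain ⟨j, hj⟩ := Nat.exists_eq_succ_of_ne_zero hpos.ne'
      have hnot : ¬ Core_D C j ≤ Fit X := Nat.find_min h0 (by omega)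
      apply hnot
      have hKC : Core_D C j ≤ C := Core_D_le C j
      refine Core_nil_le (Core_nil2 ?_) (hKC.trans hCX) (Core_D_norm hCn j)
      intro a ha b hb c hc
      have h2 : a * b * a⁻¹ * b⁻¹ ∈ Core_D C (j + 1) :=
        Subgroup.commutator_mem_commutator ha hb
      have h3 : a * b * a⁻¹ * b⁻¹ ∈ Fit X := by
        rw [hj] at hm1
        exact hm1 h2
      exact hcomm c (hKC hc) _ h3
  have hCnil : Group.IsNilpotent C := by
    refine Core_nil2 ?_
    intro a ha b hb c hc
    have hab : a * b = b * a := hcomm b hb a (hCF ha)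
    have : a * b * a⁻¹ * b⁻¹ = 1 := by rw [hab]; group
    rw [this, one_mul, mul_one]
  exact Core_S_le_Op hCnil hCX hCn hp (S_mem hCnil hp hxC hk)

end Pool.Agent.H71.KW
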