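import Pool.Agent.H71.KW.P1
import Pool.Agent.H71.KW.Core

/-!
# Module ClA1: definitions and first facts for claim A
-/

open scoped Pointwise

namespace Pool.Agent.H71.KW

variable {G : Type*} [Group G] [Finite G] {A B X : Subgroup G} {p q r : ℕ}

/-- The join of the `O_s(X)` for the primes `s ∣ |A|`, `s ≠ r`. -/
def RA {G : Type*} [Group G] (A X : Subgroup G) (r : ℕ) : Subgroup G :=
  ⨆ s : {s : ℕ // s.Prime ∧ s ∣ Nat.card A ∧ s ≠ r}, Op s.1 X

/-- Its centraliser in `X`. -/
def CA {G : Type*} [Group G] (A X : Subgroup G) (r : ℕ) : Subgroup G :=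
  X ⊓ Subgroup.centralizer (RA A X r : Set G)

private theorem clA1_RA_conj (A X : Subgroup G) (r : ℕ) {x h : G} (hx : x ∈ X)
    (hh : h ∈ RA A X r) : x * h * x⁻¹ ∈ RA A X r := by
  have key : RA A X r ≤ (RA A X r).comap (MulAut.conj x).toMonoidHom := by
    refine iSup_le fun s => ?_
    intro z hz
    rw [Subgroup.mem_comap]
    have h1 : x ∈ Subgroup.normalizer (Op s.1 X : Set G) := Op_norm s.1 X hx
    have h2 : x * z * x⁻¹ ∈ Op s.1 X := by
      have := (Subgroup.mem_normalizer_iff.mp h1 z).mp hz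
      exact this
    have h3 : Op s.1 X ≤ RA A X r :=
      le_iSup (fun s : {s : ℕ // s.Prime ∧ s ∣ Nat.card A ∧ s ≠ r} => Op s.1 X) s
    exact h3 h2
  exact key hh

private theorem clA1_CA_conj (A X : Subgroup G) (r : ℕ) {x h : G} (hx : x ∈ X)
    (hh : h ∈ CA A X r) : x * h * x⁻¹ ∈ CA A X r := by
  obtain ⟨h1, h2⟩ := Subgroup.mem_inf.mp hh
  refine Subgroup.mem_inf.mpr ⟨X.mul_mem (X.mul_mem hx h1) (X.inv_mem hx), ?_⟩
  rw [Subgroup.mem_centralizer_iff] at h2 ⊢
  intro y hy
  have h3 : x⁻¹ * y * x ∈ RA A X r := by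
    have := clA1_RA_conj A X r (X.inv_mem hx) hy
    simpa using this
  have h4 := h2 _ h3
  calc y * (x * h * x⁻¹) = x * ((x⁻¹ * y * x) * h) * x⁻¹ := by group
    _ = x * (h * (x⁻¹ * y * x)) * x⁻¹ := by rw [h4]
    _ = x * h * x⁻¹ * y := by group

/-- `X` normalises all `Op s X`. -/
theorem CA_norm (A X : Subgroup G) (r : ℕ) :
    X ≤ Subgroup.normalizer (CA A X r : Set G) := by
  intro x hx
  rw [Subgroup.mem_normalizer_iff]
  intro h
  refine ⟨fun hh => clA1_CA_conj A X r hx hh, fun hh => ?_⟩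
  have := clA1_CA_conj A X r (X.inv_mem hx) hh
  have e : x⁻¹ * (x * h * x⁻¹) * x⁻¹⁻¹ = h := by group
  rwa [e] at this

/-- For a prime `s ∣ |A|` and `A ≤ X`: `Op s X ≤ S s A` (`Op_le_sylow`, `S_sylow`). -/
theorem Op_le_S (m : Min2 A B) (h : A ≤ X) (hp : p.Prime) (hpA : p ∣ Nat.card A) :
    Op p X ≤ S p A := by
  have : Fact p.Prime := ⟨hp⟩
  have hle : S p A ≤ X := (S_le p A).trans h
  refine Op_le_sylow hp hle (S_pgroup hp A) ?_
  obtain ⟨P, hP⟩ := S_sylow m.toMin hp hpA
  intro hd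
  have h1 : (S p A).relIndex X ∣ (S p A).index := by
    rw [← Subgroup.relIndex_mul_index hle]
    exact dvd_mul_right _ _
  have h2 : p ∣ (P : Subgroup G).index := by
    rw [hP]
    exact hd.trans h1
  exact P.not_dvd_index h2

/-- `S_comm`. -/
theorem S_le_CA (m : Min2 A B) (h : A ≤ X) (hr : r.Prime) : S r A ≤ CA A X r := by
  refine le_inf ((S_le r A).trans h) ?_
  have key : RA A X r ≤ Subgroup.centralizer (S r A : Set G) := by
    refine iSup_le fun s => ?_
    refine (Op_le_S m h s.2.1 s.2.2.1).trans ?_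
    intro z hz
    rw [Subgroup.mem_centralizer_iff]
    intro y hy
    exact S_comm m.nA hr s.2.1 (Ne.symm s.2.2.2) hy hz
  exact Subgroup.le_centralizer_iff.mp key

/-- `S₀ = S s A ⊓ C`, `C = CA A X r`, `s ≠ r`, commutes with `C`: it commutes with all `Op t X`, `t` prime
(for `t ≠ r`, `t ∣ |A|`: `S₀ ≤ C`; for `t = r`: `Op r X ≤ S r A`, `S_comm`; for `t ∣ |B|`: `Op_bot`; other
`t` do not divide `|G|`), so `S₀ ≤ Op s X ≤ RA A X r` (`fit_p`; `X` is soluble by `sol_of_le`). -/
theorem S_comm_CA (m : Min2 A B) (h : A ≤ X) (hX : X ≠ ⊤) {s : ℕ} (hs : s.Prime)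
    (hr : r.Prime) (hrA : r ∣ Nat.card A) (hsA : s ∣ Nat.card A) (hsr : s ≠ r) {x y : G}
    (hx : x ∈ S s A) (hxC : x ∈ CA A X r) (hy : y ∈ CA A X r) : x * y = y * x := by
  have hRA : ∀ t : ℕ, t.Prime → t ∣ Nat.card A → t ≠ r → Op t X ≤ RA A X r := by
    intro t ht h1 h2
    exact le_iSup (fun s : {s : ℕ // s.Prime ∧ s ∣ Nat.card A ∧ s ≠ r} => Op s.1 X)
      ⟨t, ht, h1, h2⟩
  have hsol : Group.IsSolvable X := sol_of_le m.toMin h hX
  have hxX : x ∈ X := h (S_le s A hx)
  obtain ⟨k, hk⟩ := S_pgroup hs A ⟨x, hx⟩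
  have hk' : x ^ s ^ k = 1 := by
    have := congrArg Subtype.val hk
    simpa using this
  have hmem : x ∈ Op s X := by
    refine fit_p hsol hs hxX hk' ?_
    intro t ht z hz
    by_cases htA : t ∣ Nat.card A
    · by_cases htr : t = r
      · subst htr
        exact S_comm m.nA hs ht hsr hx (Op_le_S m h ht hrA hz)
      · have h1 := (Subgroup.mem_inf.mp hxC).2
        rw [Subgroup.mem_centralizer_iff] at h1
        exact (h1 z (hRA t ht htA htr hz)).symm
    · have hbot : Op t X = ⊥ := by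
        by_cases htB : t ∣ Nat.card B
        · exact Op_bot m hs ht hsA htB ((S_le s A).trans h)
        · have : Fact t.Prime := ⟨ht⟩
          obtain ⟨j, hj⟩ := IsPGroup.iff_card.mp (Op_pgroup ht X)
          have hd : Nat.card (Op t X) ∣ Nat.card G := Subgroup.card_subgroup_dvd_card _
          rw [card_eq m.toMin, hj] at hd
          have hj0 : j = 0 := by
            by_contra hne
            have h1 : t ∣ Nat.card A * Nat.card B := (dvd_pow_self t hne).trans hd
            rcases (Nat.Prime.dvd_mul ht).mp h1 with h2 | h2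
            · exact htA h2
            · exact htB h2
          rw [hj0, pow_zero] at hj
          exact Subgroup.card_eq_one.mp hj
      rw [hbot, Subgroup.mem_bot] at hz
      rw [hz, mul_one, one_mul]
  have h2 := (Subgroup.mem_inf.mp hy).2
  rw [Subgroup.mem_centralizer_iff] at h2
  exact h2 x (hRA s hs hsA hsr hmem)

end Pool.Agent.H71.KW
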