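import Pool.Agent.H71.KW.ClA1

/-!
# Module ClA2: the order of `CA A X r` is prime to `|B|`
-/

open scoped Pointwise

namespace Pool.Agent.H71.KW

variable {G : Type*} [Group G] [Finite G] {A B X : Subgroup G} {p q r : ℕ}

/-- A `s` group `P` normalising `C` normalises a Sylow `q` subgroup of `C` if the number of these is
prime to `s`. -/
theorem ClA2_inv {P C : Subgroup G} {s q : ℕ} (hs : s.Prime) (hP : IsPGroup s P)
    (hPC : P ≤ Subgroup.normalizer (C : Set G)) (hn : ¬ s ∣ Nat.card (Sylow q C)) :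
    ∃ Y : Sylow q C, P ≤ Subgroup.normalizer (((Y : Subgroup C).map C.subtype : Subgroup G) : Set G) := by
  have := Fact.mk hs
  let i1 : MulDistribMulAction P C := MulDistribMulAction.compHom C (Subgroup.inclusion hPC)
  let i2 : MulAction P (Sylow q C) := Sylow.pointwiseMulAction
  obtain ⟨Y, hY⟩ := hP.nonempty_fixed_point_of_prime_not_dvd_card (Sylow q C) hn
  refine ⟨Y, ?_⟩
  have key : ∀ x : P, ∀ y : C, y ∈ (Y : Subgroup C) → x • y ∈ (Y : Subgroup C) := by
    intro x y hy
    have h1 : x • Y = Y := hY x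
    have h2 : x • y ∈ x • (Y : Subgroup C) := Subgroup.smul_mem_pointwise_smul y x _ hy
    have h3 : (x • (Y : Subgroup C)) = (Y : Subgroup C) := by
      have := congrArg (fun Z : Sylow q C => (Z : Subgroup C)) h1
      exact this
    rw [h3] at h2
    exact h2
  have key2 : ∀ x ∈ P, ∀ y : G, y ∈ (Y : Subgroup C).map C.subtype →
      x * y * x⁻¹ ∈ (Y : Subgroup C).map C.subtype := by
    rintro x hx y ⟨z, hz, rfl⟩
    exact ⟨(⟨x, hx⟩ : P) • z, key ⟨x, hx⟩ z hz, rfl⟩
  intro x hx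
  rw [Subgroup.mem_normalizer_iff]
  intro y
  constructor
  · exact key2 x hx y
  · intro h
    have := key2 x⁻¹ (inv_mem hx) _ h
    simpa [mul_assoc] using this

/-- A Sylow `s` subgroup of `C = CA A X r`, `s ≠ r`, is central in `C`. -/
theorem ClA2_central (m : Min2 A B) (h : A ≤ X) (hX : X ≠ ⊤) {s : ℕ} (hs : s.Prime)
    (hr : r.Prime) (hrA : r ∣ Nat.card A) (hsA : s ∣ Nat.card A) (hsr : s ≠ r)
    (Q : Sylow s (CA A X r)) (x : CA A X r) (hx : x ∈ (Q : Subgroup (CA A X r)))
    (y : CA A X r) : x * y = y * x := by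
  have := Fact.mk hs
  have hCX : CA A X r ≤ X := inf_le_left
  obtain ⟨P, hP⟩ := S_sylow m.toMin hs hsA
  have hPX : (P : Subgroup G) ≤ X := by
    rw [hP]; exact (S_le s A).trans h
  have hQ : IsPGroup s ((Q : Subgroup (CA A X r)).map (Subgroup.inclusion hCX)) :=
    Q.isPGroup'.map _
  obtain ⟨R, hR⟩ := hQ.exists_le_sylow
  obtain ⟨g, hg⟩ := MulAction.exists_smul_eq X (P.subtype hPX) R
  -- conjugation by `g⁻¹` maps `Q` into `S s A`
  have h1 : ∀ z : CA A X r, z ∈ (Q : Subgroup (CA A X r)) →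
      (g : G)⁻¹ * z * g ∈ S s A := by
    intro z hz
    have h2 : Subgroup.inclusion hCX z ∈ (R : Subgroup X) := hR ⟨z, hz, rfl⟩
    rw [← hg] at h2
    rw [Sylow.coe_subgroup_smul, Subgroup.mem_pointwise_smul_iff_inv_smul_mem] at h2
    have h3 : ((MulAut.conj g)⁻¹ • (Subgroup.inclusion hCX z) : X) =
        g⁻¹ * (Subgroup.inclusion hCX z) * g := by
      rw [← map_inv, MulAut.smul_def, MulAut.conj_apply, inv_inv]
    rw [h3, Sylow.coe_subtype, Subgroup.mem_subgroupOf] at h2
    rw [← hP]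
    exact h2
  have h4 : ∀ z : G, z ∈ CA A X r → (g : G)⁻¹ * z * g ∈ CA A X r := by
    intro z hz
    have h5 := CA_norm A X r (inv_mem g.2 : (g : G)⁻¹ ∈ X)
    rw [Subgroup.mem_normalizer_iff] at h5
    have := (h5 z).1 hz
    rwa [inv_inv] at this
  have h6 := S_comm_CA m h hX hs hr hrA hsA hsr (h1 x hx) (h4 x x.2) (h4 y y.2)
  apply Subtype.ext
  rw [Subgroup.coe_mul, Subgroup.coe_mul]
  have h7 : (g : G)⁻¹ * ((x : G) * y) * g = (g : G)⁻¹ * ((y : G) * x) * g := by
    calc (g : G)⁻¹ * ((x : G) * y) * g = ((g : G)⁻¹ * x * g) * ((g : G)⁻¹ * y * g) := by group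
      _ = ((g : G)⁻¹ * y * g) * ((g : G)⁻¹ * x * g) := h6
      _ = _ := by group
  exact mul_left_cancel (mul_right_cancel h7)

/-- No prime `q ∣ |B|` divides `|C|`, `C = CA A X r`. Let `s ∣ |A|`, `s ≠ r` (`m.twoA`). The Sylow
`s` subgroups of `C` are central in `C`, so the number of Sylow `q` subgroups of `C` is prime to `s`, and
`S s A` normalises one of them, against `p2`. -/
theorem CA_no_q (m : Min2 A B) (h : A ≤ X) (hX : X ≠ ⊤) (hr : r.Prime)
    (hrA : r ∣ Nat.card A) (hq : q.Prime) (hqB : q ∣ Nat.card B) :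
    ¬ q ∣ Nat.card (CA A X r) := by
  intro hdiv
  obtain ⟨s, hs, hsr, hsA⟩ := m.twoA r
  have := Fact.mk hs
  have := Fact.mk hq
  have hn : ¬ s ∣ Nat.card (Sylow q (CA A X r)) := by
    intro hcon
    let Y : Sylow q (CA A X r) := default
    let Q : Sylow s (CA A X r) := default
    rw [Sylow.card_eq_index_normalizer Y] at hcon
    have hle : (Q : Subgroup (CA A X r)) ≤ Subgroup.normalizer (Y : Set (CA A X r)) := by
      intro x hx
      rw [Subgroup.mem_set_normalizer_iff]
      intro y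
      have h1 : x * y * x⁻¹ = y := by
        rw [ClA2_central m h hX hs hr hrA hsA hsr Q x hx y, mul_assoc, mul_inv_cancel, mul_one]
      rw [h1]
    exact Q.not_dvd_index (hcon.trans (Subgroup.index_dvd_of_le hle))
  have hPC : S s A ≤ Subgroup.normalizer (CA A X r : Set G) :=
    ((S_le s A).trans h).trans (CA_norm A X r)
  obtain ⟨Y, hY⟩ := ClA2_inv hs (S_pgroup hs A) hPC hn
  refine p2 m hs hq hsA hqB (Y := (Y : Subgroup (CA A X r)).map (CA A X r).subtype)
    (Y.isPGroup'.map _) ?_ 1 ?_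
  · intro hbot
    have h2 : (Y : Subgroup (CA A X r)) = ⊥ := by
      rw [Subgroup.map_eq_bot_iff_of_injective _ (CA A X r).subtype_injective] at hbot
      exact hbot
    exact Y.ne_bot_of_dvd_card hdiv h2
  · rw [map_one, one_smul]
    exact hY

end Pool.Agent.H71.KW
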