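import Pool.Agent.H71.KW.Cons

/-!
# Module ClE: centralisers of subgroups of `S p A ⊓ N(B)`
-/

open scoped Pointwise

namespace Pool.Agent.H71.KW

variable {G : Type*} [Group G] [Finite G] {A B X : Subgroup G} {p q : ℕ}

/-- The centraliser `C` of a subgroup `D` of `A` normalising `B` is factorised: if `g = a b ∈ C` then
`a⁻¹ D a = b D b⁻¹`, contained in `A` and in `D B` (`D` normalises `B`), and `A ⊓ D B = D` as
`A ⊓ B = 1`; so `a` and `b` normalise `D`; `⁅b, D⁆ ≤ B ⊓ D = 1`, so `b ∈ C`, so `a ∈ C`. -/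
theorem facS_cent (m : Min A B) {D : Subgroup G} (hDA : D ≤ A)
    (hDB : D ≤ Subgroup.normalizer (B : Set G)) :
    FacS A B (Subgroup.centralizer (D : Set G)) := by
  intro g hg
  obtain ⟨a, ha, b, hb, hab⟩ := m.fac g
  have hbC : b ∈ Subgroup.centralizer (D : Set G) := by
    rw [Subgroup.mem_centralizer_iff]
    intro d hd
    have h1 : d * g = g * d := Subgroup.mem_centralizer_iff.mp hg d hd
    have h2 : b * d * b⁻¹ = a⁻¹ * d * a := by
      have : a * (b * d * b⁻¹) * a⁻¹ = d := by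
        have e : a * (b * d * b⁻¹) * a⁻¹ = (g * d) * g⁻¹ := by rw [hab]; group
        rw [e, ← h1]; group
      calc b * d * b⁻¹ = a⁻¹ * (a * (b * d * b⁻¹) * a⁻¹) * a := by group
        _ = a⁻¹ * d * a := by rw [this]
    have h3 : b * d * b⁻¹ ∈ A := by
      rw [h2]
      exact A.mul_mem (A.mul_mem (A.inv_mem ha) (hDA hd)) ha
    have h4 : d⁻¹ * b * d ∈ B := by
      have h5 : d⁻¹ ∈ Subgroup.normalizer (B : Set G) := hDB (D.inv_mem hd)
      have h6 := (Subgroup.mem_normalizer_iff.mp h5 b).mp hb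
      simpa using h6
    have h5 : d⁻¹ * (b * d * b⁻¹) ∈ A ⊓ B := by
      refine ⟨A.mul_mem (A.inv_mem (hDA hd)) h3, ?_⟩
      have e : d⁻¹ * (b * d * b⁻¹) = (d⁻¹ * b * d) * b⁻¹ := by group
      rw [e]
      exact B.mul_mem h4 (B.inv_mem hb)
    rw [disj m, Subgroup.mem_bot, inv_mul_eq_one] at h5
    have h6 : d * b = b * d * b⁻¹ * b := by rw [← h5]
    rw [h6]; group
  refine ⟨a, ha, b, hb, ?_, hbC, hab⟩
  have e : a = g * b⁻¹ := by rw [hab]; group
  rw [e]
  exact Subgroup.mul_mem _ hg (Subgroup.inv_mem _ hbC)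

theorem ClE_Op_le (m : Min A B) (h : FacS A B X) {r : ℕ} (hr : r.Prime) (hrA : r ∣ Nat.card A) :
    Op r X ≤ S r (A ⊓ X) := by
  have hrB : ¬ r ∣ Nat.card (B ⊓ X : Subgroup G) := by
    intro h1
    have h2 : r ∣ Nat.card B := h1.trans (Subgroup.card_dvd_of_le inf_le_left)
    exact ne_of_dvd m hr hrA h2 rfl
  refine Op_le_sylow hr ((S_le r _).trans inf_le_right) (S_pgroup hr _) ?_
  intro hd
  have h1 : Nat.card (S r (A ⊓ X)) * (S r (A ⊓ X)).relIndex X = Nat.card X := by
    have h0 := Subgroup.relIndex_mul_relIndex ⊥ (S r (A ⊓ X)) X bot_le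
      ((S_le r _).trans inf_le_right)
    rwa [Subgroup.relIndex_bot_left, Subgroup.relIndex_bot_left] at h0
  rw [S_card hr, card_facS m h] at h1
  have hA0 : Nat.card (A ⊓ X : Subgroup G) ≠ 0 := Nat.card_pos.ne'
  have hB0 : Nat.card (B ⊓ X : Subgroup G) ≠ 0 := Nat.card_pos.ne'
  have h2 : r ^ ((Nat.card (A ⊓ X : Subgroup G)).factorization r + 1) ∣
      Nat.card (A ⊓ X : Subgroup G) * Nat.card (B ⊓ X : Subgroup G) := by
    rw [← h1, pow_succ]
    exact Nat.mul_dvd_mul_left _ hd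
  rw [hr.pow_dvd_iff_le_factorization (mul_ne_zero hA0 hB0), Nat.factorization_mul hA0 hB0,
    Finsupp.add_apply, Nat.factorization_eq_zero_of_not_dvd hrB] at h2
  omega

theorem ClE_le_S (hA : Group.IsNilpotent A) {r : ℕ} (hr : r.Prime) {Y : Subgroup G}
    (hY : IsPGroup r Y) (h : Y ≤ A) : Y ≤ S r A := by
  intro y hy
  obtain ⟨k, hk⟩ := hY ⟨y, hy⟩
  exact S_mem hA hr (h hy) (k := k) (by simpa using congrArg Subtype.val hk)

/-- CLAIM E. Proof. Let `C` be the centraliser of `D`; it is soluble, `C ≠ ⊤` (`facS_cent`, `cent_ne_top`).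
`S s A ≤ C` for all primes `s ∣ |A|`, `s ≠ p` (`S_comm`), there is at least one. `Op q C = ⊥` for `q ∣ |B|`
(`Op_bot`). `A ⊓ C` contains a Sylow `r` subgroup of `C` for each `r ∣ |A|` (`card_facS`), so
`Op r C ≤ A` (`Op_le_sylow`). Let `z` be as in `S_center` (for `p`): `z ∈ C` commutes with
all `Op r C`, so `z ∈ Op p C` (`fit_p`). Let `K = C ⊓ centralizer (Op p C)`, normalised by `C`; `K` is
contained in the centraliser of `z`, so in `M = N(A)` (`cent_z_le`); `S s A ≤ K`, and `S s A` is the set of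
`s` elements of `M` (`mem_S_of_norm`), so of `K`, so `C` normalises `S s A`: `norm_S_le`. -/
theorem clE (m : Min2 A B) (hp : p.Prime) (hpA : p ∣ Nat.card A) {D : Subgroup G} (hD : D ≠ ⊥)
    (hDA : D ≤ S p A) (hDB : D ≤ Subgroup.normalizer (B : Set G)) :
    Subgroup.centralizer (D : Set G) ≤ Subgroup.normalizer (A : Set G) := by
  set C := Subgroup.centralizer (D : Set G) with hCdef
  have hDA' : D ≤ A := hDA.trans (S_le p A)
  have hne : C ≠ ⊤ := cent_ne_top m.toMin hD
  have hfac : FacS A B C := facS_cent m.toMin hDA' hDB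
  have hsol : Group.IsSolvable C := m.sub C hne hfac
  obtain ⟨s, hs, hsp, hsA⟩ := m.twoA p
  have hsC : S s A ≤ C := by
    intro x hx
    rw [hCdef, Subgroup.mem_centralizer_iff]
    intro d hd
    exact S_comm m.nA hp hs (Ne.symm hsp) (hDA hd) hx
  -- all `Op r C` lie in `A`
  have hOpA : ∀ r : ℕ, r.Prime → Op r C ≤ A := by
    intro r hr
    by_cases hrA : r ∣ Nat.card A
    · exact ((ClE_Op_le m.toMin hfac hr hrA).trans (S_le r _)).trans inf_le_left
    · by_cases hrB : r ∣ Nat.card B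
      · rw [Op_bot m hs hr hsA hrB hsC]
        exact bot_le
      · have hrG : ¬ r ∣ Nat.card G := by
          rw [card_eq m.toMin, hr.dvd_mul]
          tauto
        have : Fact r.Prime := ⟨hr⟩
        have h1 : Op r C = ⊥ := by
          by_contra hb
          have h2 : Nat.card (Op r C) ≠ 1 := by
            rwa [Ne, Subgroup.card_eq_one]
          obtain ⟨n, hn⟩ := (IsPGroup.iff_card.mp (Op_pgroup hr C))
          have h3 : r ∣ Nat.card (Op r C) := by
            rw [hn]
            apply dvd_pow_self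
            rintro rfl
            exact h2 (by rw [hn, pow_zero])
          exact hrG (h3.trans (Subgroup.card_subgroup_dvd_card _))
        rw [h1]
        exact bot_le
  obtain ⟨z, hz, hz1, hzc⟩ := S_center m.nA hp hpA
  have hzC : z ∈ C := by
    rw [hCdef, Subgroup.mem_centralizer_iff]
    intro d hd
    exact hzc d (hDA' hd)
  have hzO : z ∈ Op p C := by
    obtain ⟨k, hk⟩ := Nil_pow hp hz
    refine fit_p hsol hp hzC hk ?_
    intro r hr y hy
    exact (hzc y (hOpA r hr hy)).symm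
  intro c hc
  refine conj_S m hs hsA ?_
  intro x hx
  obtain ⟨y, hy, rfl⟩ := hx
  have hyC : y ∈ C := hsC hy
  have hyO : ∀ o ∈ Op p C, o * y = y * o := by
    intro o ho
    exact S_comm m.nA hp hs (Ne.symm hsp) (ClE_le_S m.nA hp (Op_pgroup hp C) (hOpA p hp) ho) hy
  -- `c y c⁻¹` commutes with `z`
  have hO : c⁻¹ * z * c ∈ Op p C := by
    have h1 : c⁻¹ ∈ Subgroup.normalizer (Op p C : Set G) := Op_norm p C (inv_mem hc)
    have h2 := (Subgroup.mem_normalizer_iff.mp h1 z).mp hzO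
    simpa using h2
  refine cent_z_le m hz1 hzc ?_
  rw [Subgroup.mem_centralizer_singleton_iff]
  have h1 := hyO _ hO
  show (c * y * c⁻¹) * z = z * (c * y * c⁻¹)
  calc (c * y * c⁻¹) * z = c * (y * (c⁻¹ * z * c)) * c⁻¹ := by group
    _ = c * ((c⁻¹ * z * c) * y) * c⁻¹ := by rw [h1]
    _ = z * (c * y * c⁻¹) := by group

end Pool.Agent.H71.KW
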