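import Pool.Agent.H71.KW.Cons

/-!
# Module ClF2: centralisers of subgroups of `S p A`, fusion
-/

open scoped Pointwise

namespace Pool.Agent.H71.KW

variable {G : Type*} [Group G] [Finite G] {A B X : Subgroup G} {p q : ℕ}

private theorem f2_mem_norm {G : Type*} [Group G] {H : Subgroup G} {g : G} :
    g ∈ Subgroup.normalizer (H : Set G) ↔ MulAut.conj g • H = H := by
  rw [Subgroup.mem_normalizer_iff'', SetLike.ext_iff]
  constructor
  · intro h x
    rw [Subgroup.mem_pointwise_smul_iff_inv_smul_mem, ← map_inv, MulAut.smul_def,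
      MulAut.conj_apply, inv_inv]
    exact (h x).symm
  · intro h x
    have := h x
    rw [Subgroup.mem_pointwise_smul_iff_inv_smul_mem, ← map_inv, MulAut.smul_def,
      MulAut.conj_apply, inv_inv] at this
    exact this.symm

private theorem f2_mem_conj {G : Type*} [Group G] {H : Subgroup G} {g x : G} :
    x ∈ MulAut.conj g • H ↔ g⁻¹ * x * g ∈ H := by
  rw [Subgroup.mem_pointwise_smul_iff_inv_smul_mem, ← map_inv, MulAut.smul_def,
    MulAut.conj_apply, inv_inv]

/-- Sylow conjugacy inside a subgroup `C`. -/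
private theorem f2_conj (hp : p.Prime) {H K C : Subgroup G} (hHC : H ≤ C) (hKC : K ≤ C)
    (hH : IsPGroup p H) (hK : IsPGroup p K) (hcard : Nat.card H = Nat.card K)
    (hidx : ¬ p ∣ H.relIndex C) : ∃ d ∈ C, MulAut.conj d • K = H := by
  have : Fact p.Prime := ⟨hp⟩
  have hH' : IsPGroup p (H.subgroupOf C) :=
    hH.of_equiv (Subgroup.subgroupOfEquivOfLe hHC).symm
  have hK' : IsPGroup p (K.subgroupOf C) :=
    hK.of_equiv (Subgroup.subgroupOfEquivOfLe hKC).symm
  have hi : (H.subgroupOf C).index = (K.subgroupOf C).index := by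
    have h1 := (H.subgroupOf C).card_mul_index
    have h2 := (K.subgroupOf C).card_mul_index
    have h3 : Nat.card (H.subgroupOf C) = Nat.card (K.subgroupOf C) := by
      rw [Nat.card_congr (Subgroup.subgroupOfEquivOfLe hHC).toEquiv,
        Nat.card_congr (Subgroup.subgroupOfEquivOfLe hKC).toEquiv, hcard]
    have h4 : 0 < Nat.card (K.subgroupOf C) := Nat.card_pos
    rw [h3, ← h2] at h1
    exact Nat.eq_of_mul_eq_mul_left h4 h1
  have hidxK : ¬ p ∣ (K.subgroupOf C).index := by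
    rw [← hi]
    exact hidx
  obtain ⟨d, hd⟩ := MulAction.exists_smul_eq C (hK'.toSylow hidxK) (hH'.toSylow hidx)
  refine ⟨d, d.2, ?_⟩
  have h5 : MulAut.conj d • K.subgroupOf C = H.subgroupOf C := by
    have h0 := congrArg (fun Q : Sylow p C => (Q : Subgroup C)) hd
    exact h0
  ext x
  rw [f2_mem_conj]
  constructor
  · intro hx
    have hxC : x ∈ C := by
      have h8 := C.mul_mem (C.mul_mem d.2 (hKC hx)) (C.inv_mem d.2)
      have h7 : (d : G) * ((d : G)⁻¹ * x * d) * (d : G)⁻¹ = x := by group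
      rwa [h7] at h8
    have h6 : (d⁻¹ : C) * ⟨x, hxC⟩ * d ∈ K.subgroupOf C := by
      rw [Subgroup.mem_subgroupOf]
      exact hx
    rw [← f2_mem_conj, h5, Subgroup.mem_subgroupOf] at h6
    exact h6
  · intro hx
    have h6 : (⟨x, hHC hx⟩ : C) ∈ H.subgroupOf C := by
      rw [Subgroup.mem_subgroupOf]
      exact hx
    rw [← h5, f2_mem_conj, Subgroup.mem_subgroupOf] at h6
    exact h6

omit [Finite G] in
private theorem f2_le_A : A ≤ Subgroup.normalizer (A : Set G) :=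
  Subgroup.le_normalizer

/-- In case 2: `P₀ = S p A ⊓ C` is a Sylow `p` subgroup of `C`: let `P₀ ≤ P₁`, `P₁ ≤ C` a Sylow
`p` subgroup of `C`, `P₁ ≤ x S_p(A) x⁻¹` (`sub_conj`); the central `z` of `S_center` is in `P₀`, so
`x⁻¹ z x ∈ S p A ≤ M`, `x ∈ M` by `clB`, so `P₁ ≤ S p A` (`S_char`). (No case distinction needed.) -/
theorem clF_syl (m : Min2 A B) (hp : p.Prime) (hpA : p ∣ Nat.card A) {D : Subgroup G}
    (hDA : D ≤ S p A) :
    ¬ p ∣ (S p A ⊓ Subgroup.centralizer (D : Set G)).relIndex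
      (Subgroup.centralizer (D : Set G)) := by
  have : Fact p.Prime := ⟨hp⟩
  set C := Subgroup.centralizer (D : Set G) with hC
  obtain ⟨z, hzS, hz1, hzA⟩ := S_center m.nA hp hpA
  have hzC : z ∈ C := by
    rw [hC, Subgroup.mem_centralizer_iff]
    intro d hd
    exact hzA d (S_le p A (hDA hd))
  have hP0 : IsPGroup p (S p A ⊓ C : Subgroup G) := (S_pgroup hp A).to_le inf_le_left
  have hP0' : IsPGroup p ((S p A ⊓ C).subgroupOf C) :=
    hP0.of_equiv (Subgroup.subgroupOfEquivOfLe inf_le_right).symm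
  obtain ⟨Q, hQ⟩ := hP0'.exists_le_sylow
  have hP1 : IsPGroup p ((Q : Subgroup C).map C.subtype) := Q.2.map _
  obtain ⟨x, hx⟩ := sub_conj m.toMin hp hpA hP1
  have hzQ : z ∈ (Q : Subgroup C).map C.subtype := by
    refine ⟨⟨z, hzC⟩, hQ ?_, rfl⟩
    rw [Subgroup.mem_subgroupOf]
    exact ⟨hzS, hzC⟩
  have hzx := f2_mem_conj.mp (hx hzQ)
  have hxM : x ∈ Subgroup.normalizer (A : Set G) :=
    clB m hp hpA hzS hz1 hzA (f2_le_A (S_le p A hzx))
  have hxS := S_char m.nA hp (f2_mem_norm.mp hxM)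
  rw [hxS] at hx
  have hQle : (Q : Subgroup C) ≤ (S p A ⊓ C).subgroupOf C := by
    intro y hy
    rw [Subgroup.mem_subgroupOf]
    exact ⟨hx ⟨y, hy, rfl⟩, y.2⟩
  have hEq : (Q : Subgroup C) = (S p A ⊓ C).subgroupOf C := le_antisymm hQle hQ
  unfold Subgroup.relIndex
  rw [← hEq]
  exact Q.not_dvd_index

/-- `N(P₀) ≤ M`: if `y` normalises `P₀` then `y⁻¹ z y ∈ P₀ ≤ M`, `z` the central element, so `y ∈ M`. -/
theorem clF_norm (m : Min2 A B) (hp : p.Prime) (hpA : p ∣ Nat.card A) {D : Subgroup G}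
    (hDA : D ≤ S p A) :
    Subgroup.normalizer ((S p A ⊓ Subgroup.centralizer (D : Set G) : Subgroup G) : Set G) ≤
      Subgroup.normalizer (A : Set G) := by
  obtain ⟨z, hzS, hz1, hzA⟩ := S_center m.nA hp hpA
  intro y hy
  rw [Subgroup.mem_normalizer_iff''] at hy
  have hz : z ∈ S p A ⊓ Subgroup.centralizer (D : Set G) := by
    refine Subgroup.mem_inf.mpr ⟨hzS, ?_⟩
    rw [Subgroup.mem_centralizer_iff]
    intro d hd
    exact hzA d (S_le p A (hDA hd))
  have h1 := (hy z).mp hz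
  exact clB m hp hpA hzS hz1 hzA (f2_le_A (S_le p A h1.1))

/-- Fusion in case 2: if `x` and `c x c⁻¹` are in `S s A`, `s ≠ p`, `c ∈ C`, they are conjugate in `S s A`:
`P₀` and `c P₀ c⁻¹` commute with `y = c x c⁻¹`, both are Sylow `p` subgroups of `C ⊓ centralizer {y}`, so
`d c P₀ c⁻¹ d⁻¹ = P₀` with `d ∈ C` commuting with `y`; `d c ∈ N(P₀) ⊓ C ≤ M ⊓ C ≤ A`, and
`y = (d c) x (d c)⁻¹`; then use `S_split`. -/
theorem clF_fus (m : Min2 A B) {s : ℕ} (hp : p.Prime) (hpA : p ∣ Nat.card A) (hs : s.Prime)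
    (hsA : s ∣ Nat.card A) (hsp : s ≠ p) {D : Subgroup G} (hDA : D ≤ S p A)
    (h : Subgroup.centralizer (D : Set G) ⊓ Subgroup.normalizer (A : Set G) ≤ A) :
    ∀ x ∈ S s A, ∀ c ∈ Subgroup.centralizer (D : Set G), c * x * c⁻¹ ∈ S s A →
      ∃ u ∈ S s A, c * x * c⁻¹ = u * x * u⁻¹ := by
  intro x hx c hc hy
  have hsyl := clF_syl m hp hpA hDA
  have hnorm := clF_norm m hp hpA hDA
  set C := Subgroup.centralizer (D : Set G) with hC
  set P0 := S p A ⊓ C with hP0
  set y := c * x * c⁻¹ with hydef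
  have hle1 : P0 ≤ C ⊓ Subgroup.centralizer {y} := by
    refine le_inf inf_le_right ?_
    intro t ht
    rw [Subgroup.mem_centralizer_singleton_iff]
    exact S_comm m.nA hp hs (Ne.symm hsp) ht.1 hy
  have hle2 : MulAut.conj c • P0 ≤ C ⊓ Subgroup.centralizer {y} := by
    intro t ht
    rw [f2_mem_conj] at ht
    refine Subgroup.mem_inf.mpr ⟨?_, ?_⟩
    · have := C.mul_mem (C.mul_mem hc ht.2) (C.inv_mem hc)
      have h7 : c * (c⁻¹ * t * c) * c⁻¹ = t := by group
      rwa [h7] at this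
    · rw [Subgroup.mem_centralizer_singleton_iff]
      have h8 := S_comm m.nA hp hs (Ne.symm hsp) ht.1 hx
      have h9 : c * (c⁻¹ * t * c * x) * c⁻¹ = c * (x * (c⁻¹ * t * c)) * c⁻¹ := by rw [h8]
      have h10 : c * (c⁻¹ * t * c * x) * c⁻¹ = t * y := by rw [hydef]; group
      have h11 : c * (x * (c⁻¹ * t * c)) * c⁻¹ = y * t := by rw [hydef]; group
      rw [← h10, h9, h11]
  have hpg : IsPGroup p P0 := (S_pgroup hp A).to_le inf_le_left
  have hpg' : IsPGroup p (MulAut.conj c • P0 : Subgroup G) :=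
    hpg.of_equiv (Subgroup.equivSMul (MulAut.conj c) P0)
  have hidx : ¬ p ∣ P0.relIndex (C ⊓ Subgroup.centralizer {y}) := by
    intro hdvd
    apply hsyl
    rw [← Subgroup.relIndex_mul_relIndex P0 (C ⊓ Subgroup.centralizer {y}) C hle1 inf_le_left]
    exact Dvd.dvd.mul_right hdvd _
  obtain ⟨d, hd, hdeq⟩ := f2_conj hp hle1 hle2 hpg hpg'
    (Nat.card_congr (Subgroup.equivSMul (MulAut.conj c) P0).toEquiv) hidx
  have hdc : d * c ∈ Subgroup.normalizer (P0 : Set G) := by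
    rw [f2_mem_norm, map_mul, mul_smul]
    exact hdeq
  have ha : d * c ∈ A := h ⟨C.mul_mem hd.1 hc, hnorm hdc⟩
  have hdy : d * y = y * d := by
    have h0 := (Subgroup.mem_inf.mp hd).2
    rw [Subgroup.mem_centralizer_singleton_iff] at h0
    exact h0
  obtain ⟨u, hu, v, hv, huv, hvc⟩ := S_split m.nA hs ha
  refine ⟨u, hu, ?_⟩
  have h12 : y = (d * c) * x * (d * c)⁻¹ := by
    have : (d * c) * x * (d * c)⁻¹ = d * y * d⁻¹ := by rw [hydef]; group
    rw [this, hdy]
    group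
  rw [h12, huv]
  have h13 := hvc x hx
  have h14 : u * v * x * (u * v)⁻¹ = u * (v * x) * v⁻¹ * u⁻¹ := by group
  rw [h14, h13]
  group

end Pool.Agent.H71.KW
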