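import Pool.Agent.H71.KW.Defs

/-!
# Module Compl: a Sylow subgroup controlling its own fusion has a normal complement
-/

open scoped Pointwise commutatorElement

namespace Pool.Agent.H71.KW

/-- The subgroup generated by the elements of order prime to `s`. -/
def complR (G : Type*) [Group G] (s : ℕ) : Subgroup G :=
  Subgroup.closure {x : G | (orderOf x).Coprime s}

instance complR_normal {G : Type*} [Group G] (s : ℕ) : (complR G s).Normal where
  conj_mem := by
    intro n hn g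
    have h : (complR G s).map (MulAut.conj g).toMonoidHom ≤ complR G s := by
      rw [complR, MonoidHom.map_closure, Subgroup.closure_le]
      rintro _ ⟨x, hx, rfl⟩
      apply Subgroup.subset_closure
      have : orderOf ((MulAut.conj g).toMonoidHom x) = orderOf x :=
        orderOf_injective (MulAut.conj g).toMonoidHom (MulAut.conj g).injective x
      change (orderOf ((MulAut.conj g).toMonoidHom x)).Coprime s
      rw [this]
      exact hx
    exact h ⟨n, hn, by simp⟩

theorem complR_pow_mem {G : Type*} [Group G] [Finite G] {s : ℕ} [Fact s.Prime] (x : G) :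
    ∃ k : ℕ, x ^ s ^ k ∈ complR G s := by
  obtain ⟨k, m, hm, hk⟩ := Nat.exists_eq_pow_mul_and_not_dvd (orderOf_pos x).ne' s
    (Fact.out (p := s.Prime)).ne_one
  refine ⟨k, Subgroup.subset_closure ?_⟩
  have h1 : orderOf (x ^ s ^ k) ∣ m := by
    apply orderOf_dvd_of_pow_eq_one
    rw [← pow_mul, ← hk, pow_orderOf_eq_one]
  have h2 : m.Coprime s := ((Nat.Prime.coprime_iff_not_dvd Fact.out).2 hm).symm
  exact Nat.Coprime.coprime_dvd_left h1 h2

theorem complR_isPGroup {G : Type*} [Group G] [Finite G] {s : ℕ} [Fact s.Prime] :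
    IsPGroup s (G ⧸ complR G s) := by
  intro y
  obtain ⟨x, rfl⟩ := QuotientGroup.mk'_surjective _ y
  obtain ⟨k, hk⟩ := complR_pow_mem (s := s) x
  refine ⟨k, ?_⟩
  rw [← map_pow]
  exact (QuotientGroup.eq_one_iff _).2 hk

/-- A homomorphism from `R` to an `s` group is trivial. -/
theorem complR_hom {G : Type*} [Group G] {s : ℕ} [Fact s.Prime] {H : Type*}
    [Group H] (hH : IsPGroup s H) (f : complR G s →* H) (x : complR G s) : f x = 1 := by
  have key : ∀ (x : G) (hx : x ∈ complR G s), f ⟨x, hx⟩ = 1 := by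
    intro x hx
    refine Subgroup.closure_induction (p := fun y hy => f ⟨y, hy⟩ = 1) ?_ ?_ ?_ ?_ hx
    · intro y hy
      obtain ⟨k, hk⟩ := hH (f ⟨y, Subgroup.subset_closure hy⟩)
      have h1 : orderOf (f ⟨y, Subgroup.subset_closure hy⟩) ∣ s ^ k :=
        orderOf_dvd_of_pow_eq_one hk
      have h2 : orderOf (f ⟨y, Subgroup.subset_closure hy⟩) ∣ orderOf y := by
        have h0 := orderOf_map_dvd f ⟨y, Subgroup.subset_closure hy⟩
        have h00 := orderOf_injective (complR G s).subtype Subtype.coe_injective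
          ⟨y, Subgroup.subset_closure hy⟩
        rw [← h00] at h0
        exact h0
      have h3 : (orderOf y).Coprime (s ^ k) := Nat.Coprime.pow_right k hy
      rw [← orderOf_eq_one_iff]
      exact Nat.eq_one_of_dvd_coprimes h3 h2 h1
    · exact f.map_one
    · intro y z hy hz h1 h2
      have : (⟨y * z, mul_mem hy hz⟩ : complR G s) = ⟨y, hy⟩ * ⟨z, hz⟩ := rfl
      rw [this, map_mul, h1, h2, one_mul]
    · intro y hy h1
      have : (⟨y⁻¹, inv_mem hy⟩ : complR G s) = ⟨y, hy⟩⁻¹ := rfl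
      rw [this, map_inv, h1, inv_one]
  exact key x.1 x.2

theorem compl_eq_bot {G : Type*} [Group G] [Finite G] {s : ℕ} [Fact s.Prime] {Q P : Subgroup G}
    (hP : IsPGroup s P) (hQP : Q ≤ P) (h : Q ≤ ⁅Q, P⁆) : Q = ⊥ := by
  have h1 : ∀ n : ℕ, Q ≤ P.lowerCentralSeries n := by
    intro n
    induction n with
    | zero => exact hQP
    | succ n ih => exact h.trans (Subgroup.commutator_mono ih le_rfl)
  have : Group.IsNilpotent P := hP.isNilpotent
  obtain ⟨n, hn⟩ := (Subgroup.isNilpotent_iff_lowerCentralSeries P).1 this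
  exact le_bot_iff.1 (hn ▸ h1 n)

theorem compl_conj {G : Type*} [Group G] [Finite G] {s : ℕ} [Fact s.Prime] (P P1 : Sylow s G)
    (h : ∀ x ∈ P, ∀ c : G, c * x * c⁻¹ ∈ P → ∃ u ∈ P, c * x * c⁻¹ = u * x * u⁻¹) :
    ∀ x ∈ P1, ∀ c : G, c * x * c⁻¹ ∈ P1 → ∃ u ∈ P1, c * x * c⁻¹ = u * x * u⁻¹ := by
  obtain ⟨g, rfl⟩ := MulAction.exists_smul_eq G P P1
  intro x hx c hc
  have hx' : g⁻¹ * x * g ∈ P := by
    have h2 : (MulAut.conj g)⁻¹ • x ∈ (P : Subgroup G) :=
      Subgroup.mem_pointwise_smul_iff_inv_smul_mem.1 hx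
    have h3 : (MulAut.conj g)⁻¹ • x = g⁻¹ * x * g := by simp [← map_inv]
    rw [h3] at h2
    exact h2
  have hc' : g⁻¹ * (c * x * c⁻¹) * g ∈ P := by
    have h2 : (MulAut.conj g)⁻¹ • (c * x * c⁻¹) ∈ (P : Subgroup G) :=
      Subgroup.mem_pointwise_smul_iff_inv_smul_mem.1 hc
    have h3 : (MulAut.conj g)⁻¹ • (c * x * c⁻¹) = g⁻¹ * (c * x * c⁻¹) * g := by
      rw [← map_inv, MulAut.smul_def, MulAut.conj_apply, inv_inv]
    rw [h3] at h2
    exact h2
  obtain ⟨u, hu, hcu⟩ := h (g⁻¹ * x * g) hx' (g⁻¹ * c * g) (by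
    convert hc' using 1; group)
  refine ⟨g * u * g⁻¹, ?_, ?_⟩
  · have h3 : (MulAut.conj g)⁻¹ • (g * u * g⁻¹) = u := by simp [← map_inv, mul_assoc]
    have h2 : (MulAut.conj g)⁻¹ • (g * u * g⁻¹) ∈ (P : Subgroup G) := by rw [h3]; exact hu
    exact Subgroup.mem_pointwise_smul_iff_inv_smul_mem.2 h2
  · have : c * x * c⁻¹ = g * (g⁻¹ * c * g * (g⁻¹ * x * g) * (g⁻¹ * c * g)⁻¹) * g⁻¹ := by group
    rw [this, hcu]
    group

/-- Proof: let `K` be the subgroup generated by the elements of order prime to `s`: it is normal, of `s` power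
index, and it has no nontrivial homomorphism to an `s` group. Let `Q` be a Sylow `s` subgroup of `K`, inside
a conjugate `P1` of `P`. By the focal subgroup theorem `Q = Foc`, generated by `⁅x, u⁆` in `Q`, `x ∈ Q`,
`u ∈ K`; by hypothesis this is in `⁅Q, P1⁆`. As `P1` is nilpotent, `Q = 1`. So `W = K`. -/
theorem compl {G : Type*} [Group G] [Finite G] {s : ℕ} [Fact s.Prime] (P : Sylow s G)
    (h : ∀ x ∈ P, ∀ c : G, c * x * c⁻¹ ∈ P → ∃ u ∈ P, c * x * c⁻¹ = u * x * u⁻¹) :
    ∃ W : Subgroup G, W.Normal ∧ Nat.card G = Nat.card W * Nat.card P ∧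
      ¬ s ∣ Nat.card W := by
  classical
  set K := complR G s with hK
  let Q0 : Sylow s K := default
  have hQp : IsPGroup s ((Q0 : Subgroup K).map K.subtype) := Q0.isPGroup'.map _
  obtain ⟨P1, hP1⟩ := hQp.exists_le_sylow
  have h1 := compl_conj P P1 h
  -- the transfer to `Q0 / Foc` is trivial
  have hfoc : (Q0 : Subgroup K).focalSubgroup = (Q0 : Subgroup K) := by
    have h2 : (Q0 : Subgroup K).focalSubgroupOf = ⊤ := by
      rw [eq_top_iff]
      intro y _
      obtain ⟨x, hx⟩ := Subgroup.transferFocal_surjective Q0 (QuotientGroup.mk' _ y)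
      have h3 : IsPGroup s (Q0 ⧸ (Q0 : Subgroup K).focalSubgroupOf) := Q0.2.to_quotient _
      have h4 := complR_hom h3 ((Q0 : Subgroup K).transferFocal) x
      rw [hx] at h4
      exact (QuotientGroup.eq_one_iff _).1 h4
    rw [← Subgroup.map_focalSubgroupOf, h2, ← MonoidHom.range_eq_map, Subgroup.range_subtype]
  have hQbot : (Q0 : Subgroup K).map K.subtype = ⊥ := by
    apply compl_eq_bot P1.isPGroup' hP1
    conv_lhs => rw [← hfoc]
    rw [Subgroup.focalSubgroup_def, MonoidHom.map_closure, Subgroup.closure_le]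
    rintro _ ⟨_, ⟨hxu, x, hx, u, rfl⟩, rfl⟩
    have hx1 : (x : G) ∈ (Q0 : Subgroup K).map K.subtype := ⟨x, hx, rfl⟩
    have h5 : u * x⁻¹ * u⁻¹ ∈ (Q0 : Subgroup K) := by
      have : u * x⁻¹ * u⁻¹ = x⁻¹ * ⁅x, u⁆ := by rw [commutatorElement_def]; group
      rw [this]
      exact mul_mem (inv_mem hx) hxu
    obtain ⟨v, hv, hv2⟩ := h1 (x⁻¹ : G) (inv_mem (hP1 hx1)) u (hP1 ⟨_, h5, by simp⟩)
    have h6 : K.subtype ⁅x, u⁆ = ⁅(x : G), v⁆ := by
      rw [commutatorElement_def, commutatorElement_def]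
      simp only [map_mul, map_inv, Subgroup.coe_subtype]
      rw [mul_assoc, mul_assoc, ← mul_assoc (u : G), hv2]
      group
    rw [h6]
    exact Subgroup.commutator_mem_commutator hx1 hv
  have hQ0 : (Q0 : Subgroup K) = ⊥ := by
    rw [Subgroup.map_eq_bot_iff, Subgroup.ker_subtype] at hQbot
    exact le_bot_iff.1 hQbot
  have hnd : ¬ s ∣ Nat.card K := by
    have := Q0.not_dvd_index
    rw [hQ0, Subgroup.index_bot] at this
    exact this
  refine ⟨K, inferInstance, ?_, hnd⟩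
  obtain ⟨n, hn⟩ := IsPGroup.iff_card.1 (complR_isPGroup (G := G) (s := s))
  have hc : Nat.card G = Nat.card K * s ^ n := by
    rw [← Subgroup.card_mul_index K, ← hn]; rfl
  rw [hc]
  congr 1
  rw [Sylow.card_eq_multiplicity, hc]
  have hK0 : Nat.card K ≠ 0 := Nat.card_pos.ne'
  rw [Nat.factorization_mul hK0 (pow_ne_zero _ (Fact.out (p := s.Prime)).ne_zero)]
  simp [Nat.Prime.factorization_pow (Fact.out (p := s.Prime)), Nat.factorization_eq_zero_of_not_dvd hnd]

/-- The same for subgroups of a group. -/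
theorem compl_sub {G : Type*} [Group G] [Finite G] {C P : Subgroup G} {s : ℕ} (hs : s.Prime)
    (hPC : P ≤ C) (hP : IsPGroup s P) (hidx : ¬ s ∣ P.relIndex C)
    (h : ∀ x ∈ P, ∀ c ∈ C, c * x * c⁻¹ ∈ P → ∃ u ∈ P, c * x * c⁻¹ = u * x * u⁻¹) :
    ∃ W : Subgroup G, W ≤ C ∧ C ≤ Subgroup.normalizer (W : Set G) ∧
      Nat.card C = Nat.card W * Nat.card P ∧ ¬ s ∣ Nat.card W := by
  have : Fact s.Prime := ⟨hs⟩
  have hP' : IsPGroup s (P.subgroupOf C) :=
    hP.of_injective (Subgroup.subgroupOfEquivOfLe hPC).toMonoidHom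
      (Subgroup.subgroupOfEquivOfLe hPC).injective
  let P0 : Sylow s C := hP'.toSylow hidx
  have hP0 : (P0 : Subgroup C) = P.subgroupOf C := rfl
  obtain ⟨W, hW, hc, hd⟩ := compl P0 (by
    intro x hx c hcx
    have hx' : (x : G) ∈ P := hx
    have hcx' : (c : G) * x * (c : G)⁻¹ ∈ P := hcx
    obtain ⟨u, hu, he⟩ := h x hx' c c.2 hcx'
    exact ⟨⟨u, hPC hu⟩, hu, Subtype.ext he⟩)
  have hcW : Nat.card (W.map C.subtype) = Nat.card W :=
    (Nat.card_congr (W.equivMapOfInjective C.subtype C.subtype_injective).toEquiv).symm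
  have hcP : Nat.card P0 = Nat.card P :=
    Nat.card_congr (Subgroup.subgroupOfEquivOfLe hPC).toEquiv
  refine ⟨W.map C.subtype, Subgroup.map_subtype_le W, ?_, ?_, ?_⟩
  · have h1 : (Subgroup.normalizer (W : Set C)).map C.subtype ≤
        Subgroup.normalizer ((W : Set C).image C.subtype) := Subgroup.le_normalizer_map C.subtype
    rw [Subgroup.normalizer_eq_top, ← MonoidHom.range_eq_map, Subgroup.range_subtype] at h1
    exact h1
  · rw [hcW, ← hcP]
    exact hc
  · rw [hcW]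
    exact hd

end Pool.Agent.H71.KW
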