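import Pool.Agent.H71.KW.Defs

/-!
# Module Inv: invariant Sylow subgroups
-/

open scoped Pointwise

namespace Pool.Agent.H71.KW

/-- A `s` group `P` normalising `W`, `s ∤ |W|`, normalises a Sylow `q` subgroup of `W` for every prime
`q ∣ |W|`: the number of Sylow `q` subgroups of `W` divides `|W|`, and `P` permutes them; the number of
fixed points is congruent to it modulo `s` (`IsPGroup.card_modEq_card_fixedPoints`). -/
theorem inv_sylow {G : Type*} [Group G] [Finite G] {P W : Subgroup G} {s q : ℕ} (hs : s.Prime)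
    (hq : q.Prime) (hP : IsPGroup s P) (hPW : P ≤ Subgroup.normalizer (W : Set G))
    (hsW : ¬ s ∣ Nat.card W) (hqW : q ∣ Nat.card W) :
    ∃ Y : Subgroup G, Y ≤ W ∧ IsPGroup q Y ∧ Y ≠ ⊥ ∧
      P ≤ Subgroup.normalizer (Y : Set G) := by
  classical
  have : Fact s.Prime := ⟨hs⟩
  have : Fact q.Prime := ⟨hq⟩
  -- the subgroups of `G` of the form `Q.map W.subtype`, `Q` Sylow in `W`
  let T : Set (Subgroup G) := Set.range fun Q : Sylow q W => (Q : Subgroup W).map W.subtype
  have hinj : Function.Injective fun Q : Sylow q W => (Q : Subgroup W).map W.subtype := by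
    intro Q Q' h
    exact Sylow.ext (Subgroup.map_injective W.subtype_injective h)
  have hTcard : Nat.card T = Nat.card (Sylow q W) := (Nat.card_congr (Equiv.ofInjective _ hinj)).symm
  -- characterisation of `T` by orders
  have hTmem : ∀ Y : Subgroup G, Y ∈ T ↔ Y ≤ W ∧ Nat.card Y = q ^ (Nat.card W).factorization q := by
    intro Y
    constructor
    · rintro ⟨Q, rfl⟩
      refine ⟨Subgroup.map_subtype_le _, ?_⟩
      rw [← Q.card_eq_multiplicity]
      exact (Nat.card_congr ((Q : Subgroup W).equivMapOfInjective W.subtype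
        W.subtype_injective).toEquiv).symm
    · rintro ⟨hYW, hY⟩
      have hc : Nat.card (Y.subgroupOf W) = q ^ (Nat.card W).factorization q := by
        rw [← hY]
        exact Nat.card_congr (Subgroup.subgroupOfEquivOfLe hYW).toEquiv
      refine ⟨Sylow.ofCard (Y.subgroupOf W) hc, ?_⟩
      show (Y.subgroupOf W).map W.subtype = Y
      rw [Subgroup.subgroupOf_map_subtype, inf_of_le_left hYW]
  have hstab : ∀ g : P, ∀ Y ∈ T, MulAut.conj (g : G) • Y ∈ T := by
    intro g Y hY
    rw [hTmem] at hY ⊢
    refine ⟨?_, ?_⟩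
    · have h1 : MulAut.conj (g : G) • W = W := by
        have hg := hPW g.2
        rw [Subgroup.mem_normalizer_iff] at hg
        ext x
        rw [Subgroup.mem_pointwise_smul_iff_inv_smul_mem]
        have h3 := hg ((g : G)⁻¹ * x * g)
        have h4 : (MulAut.conj (g : G))⁻¹ • x = (g : G)⁻¹ * x * g := by
          simp [MulAut.smul_def]
        rw [h4, h3]
        group
      rw [← h1]
      exact Subgroup.pointwise_smul_le_pointwise_smul_iff.mpr hY.1
    · rw [← hY.2]
      exact (Nat.card_congr (Subgroup.equivSMul (MulAut.conj (g : G)) Y).toEquiv).symm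
  let : MulAction P T :=
    { smul := fun g Y => ⟨MulAut.conj (g : G) • (Y : Subgroup G), hstab g Y.1 Y.2⟩
      one_smul := by
        rintro ⟨Y, hY⟩
        apply Subtype.ext
        show MulAut.conj ((1 : P) : G) • Y = Y
        simp
      mul_smul := by
        rintro a b ⟨Y, hY⟩
        apply Subtype.ext
        show MulAut.conj ((a * b : P) : G) • Y = MulAut.conj (a : G) • (MulAut.conj (b : G) • Y)
        simp [mul_smul] }
  have : Finite T := Set.toFinite _
  have hmod := hP.card_modEq_card_fixedPoints T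
  have hdvd : Nat.card (Sylow q W) ∣ Nat.card W :=
    (Sylow.card_dvd_index (default : Sylow q W)).trans (Subgroup.index_dvd_card _)
  have hne : Nat.card (MulAction.fixedPoints P T) ≠ 0 := by
    intro h0
    rw [h0, hTcard] at hmod
    exact hsW (((Nat.modEq_zero_iff_dvd).mp hmod).trans hdvd)
  have : Nonempty (MulAction.fixedPoints P T) := (Nat.card_ne_zero.mp hne).1
  obtain ⟨⟨⟨Y, hYT⟩, hfix⟩⟩ := this
  have hY := (hTmem Y).mp hYT
  refine ⟨Y, hY.1, IsPGroup.of_card hY.2, ?_, ?_⟩
  · intro hb
    have h1 := hY.2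
    rw [hb, Subgroup.card_bot] at h1
    have h2 : 0 < (Nat.card W).factorization q :=
      hq.factorization_pos_of_dvd (Nat.card_pos (α := W)).ne' hqW
    have := Nat.one_lt_pow h2.ne' hq.one_lt
    omega
  · intro g hg
    have h1 := congrArg Subtype.val (hfix ⟨g, hg⟩)
    have h2 : MulAut.conj g • Y = Y := h1
    rw [Subgroup.mem_normalizer_iff]
    intro x
    constructor
    · intro hx
      rw [← h2, Subgroup.mem_pointwise_smul_iff_inv_smul_mem]
      have h4 : (MulAut.conj g)⁻¹ • (g * x * g⁻¹) = x := by
        simp [MulAut.smul_def]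
        group
      rw [h4]; exact hx
    · intro hx
      rw [← h2, Subgroup.mem_pointwise_smul_iff_inv_smul_mem] at hx
      have h4 : (MulAut.conj g)⁻¹ • (g * x * g⁻¹) = x := by
        simp [MulAut.smul_def]
        group
      rw [h4] at hx; exact hx

end Pool.Agent.H71.KW
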