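import Pool.Agent.H71.KW.ClF1
import Pool.Agent.H71.KW.ClF2
import Pool.Agent.H71.KW.Compl
import Pool.Agent.H71.KW.Inv

/-!
# Module ClF: centralisers of subgroups of `S p A`
-/

open scoped Pointwise

namespace Pool.Agent.H71.KW

variable {G : Type*} [Group G] [Finite G] {A B X : Subgroup G} {p q : ℕ}

/-- A prime divisor of `|A|` does not divide `|B|`. -/
private theorem clF_not_dvd (m : Min2 A B) {s : ℕ} (hs : s.Prime) (hsA : s ∣ Nat.card A) :
    ¬ s ∣ Nat.card B := by
  intro h
  have h1 := Nat.dvd_gcd hsA h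
  rw [Nat.Coprime.gcd_eq_one m.cop] at h1
  exact hs.one_lt.ne' (Nat.dvd_one.mp h1)

/-- For a prime divisor `s` of `|A|` the `s` part of `|G|` is the one of `|A|`. -/
private theorem clF_fact (m : Min2 A B) {s : ℕ} (hs : s.Prime) (hsA : s ∣ Nat.card A) :
    (Nat.card G).factorization s = (Nat.card A).factorization s := by
  rw [card_eq m.toMin, Nat.factorization_mul Nat.card_pos.ne' Nat.card_pos.ne', Finsupp.add_apply,
    Nat.factorization_eq_zero_of_not_dvd (clF_not_dvd m hs hsA), add_zero]

/-- CLAIM F. If a prime `q ∣ |B|` divides `|C ⊓ M|` use `clF_one`. Otherwise `C ⊓ M ≤ A` (`clF_le`).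
Let `s ≠ p` be a prime divisor of `|A|` (`m.twoA`); `S s A ≤ C` is a Sylow `s` subgroup of `C`. By
`compl_sub` and `clF_fus` `C` has a normal complement `W` to `S s A`. If `q ∣ |B|` is a prime dividing `|W|`,
then `S s A` normalises a nontrivial `q` subgroup (`inv_sylow`), against `p2`. So `|C|` is prime to
`|B|`. And then `C ≤ A`: `A ⊓ C` contains a Sylow `r` subgroup of `C` for all `r ∣ |A|`
(`S r A ≤ C` for `r ≠ p`, and `clF_syl` for `p`), so `|C| = |A ⊓ C|`. -/
theorem clF (m : Min2 A B) (hp : p.Prime) (hpA : p ∣ Nat.card A) {D : Subgroup G} (hD : D ≠ ⊥)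
    (hDA : D ≤ S p A) :
    Subgroup.centralizer (D : Set G) ≤ Subgroup.normalizer (A : Set G) := by
  by_cases hq : ∃ q : ℕ, q.Prime ∧ q ∣ Nat.card B ∧
      q ∣ Nat.card (Subgroup.centralizer (D : Set G) ⊓ Subgroup.normalizer (A : Set G) :
        Subgroup G)
  · obtain ⟨q, hq, hqB, h⟩ := hq
    exact clF_one m hp hpA hq hqB hD hDA h
  have hCM : Subgroup.centralizer (D : Set G) ⊓ Subgroup.normalizer (A : Set G) ≤ A :=
    clF_le m inf_le_right fun q hqp hqB hqd => hq ⟨q, hqp, hqB, hqd⟩
  obtain ⟨s, hs, hsp, hsA⟩ := m.twoA p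
  set C := Subgroup.centralizer (D : Set G) with hC
  have hle : ∀ r : ℕ, r.Prime → r ≠ p → S r A ≤ C := by
    intro r hr hrp x hx
    rw [hC, Subgroup.mem_centralizer_iff]
    intro d hd
    exact S_comm m.nA hp hr hrp.symm (hDA hd) hx
  have hidx : ¬ s ∣ (S s A).relIndex C := by
    intro h
    have h1 : (S s A).relIndex C ∣ (S s A).index :=
      ⟨C.index, (Subgroup.relIndex_mul_index (hle s hs hsp)).symm⟩
    have h2 : s ∣ (S s A).index := h.trans h1
    have h3 := Subgroup.card_mul_index (S s A)
    rw [S_card hs A, ← clF_fact m hs hsA] at h3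
    have h4 : s ^ ((Nat.card G).factorization s + 1) ∣ Nat.card G := by
      rw [pow_succ]
      conv_rhs => rw [← h3]
      exact Nat.mul_dvd_mul_left _ h2
    exact Nat.pow_succ_factorization_not_dvd Nat.card_pos.ne' hs h4
  obtain ⟨W, hWC, hCW, hcard, hsW⟩ := compl_sub hs (hle s hs hsp) (S_pgroup hs A) hidx
    (clF_fus m hp hpA hs hsA hsp hDA hCM)
  have hqW : ∀ q : ℕ, q.Prime → q ∣ Nat.card B → ¬ q ∣ Nat.card C := by
    intro q hqp hqB hqC
    rw [hcard] at hqC
    rcases (hqp.dvd_mul).mp hqC with h | h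
    · obtain ⟨Y, _, hYq, hYne, hYn⟩ := inv_sylow hs hqp (S_pgroup hs A)
        ((hle s hs hsp).trans hCW) hsW h
      exact p2 m hs hqp hsA hqB hYq hYne 1 (by rw [map_one, one_smul]; exact hYn)
    · rw [S_card hs A] at h
      have h1 := (Nat.prime_dvd_prime_iff_eq hqp hs).mp (hqp.dvd_of_dvd_pow h)
      exact clF_not_dvd m hs hsA (h1 ▸ hqB)
  have hdvd : Nat.card C ∣ Nat.card (A ⊓ C : Subgroup G) := by
    rw [← Nat.factorization_prime_le_iff_dvd Nat.card_pos.ne' Nat.card_pos.ne']
    intro r hr
    by_cases hrC : r ∣ Nat.card C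
    · have hrG : r ∣ Nat.card A * Nat.card B := by
        rw [← card_eq m.toMin]
        exact hrC.trans (Subgroup.card_subgroup_dvd_card C)
      have hrA : r ∣ Nat.card A := by
        rcases (hr.dvd_mul).mp hrG with h | h
        · exact h
        · exact absurd hrC (hqW r hr h)
      by_cases hrp : r = p
      · subst hrp
        have h1 := clF_syl m hp hpA hDA
        rw [← hC] at h1
        have h2 : (S r A ⊓ C).relIndex C * Nat.card (S r A ⊓ C : Subgroup G) = Nat.card C := by
          rw [mul_comm]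
          have h3 := Subgroup.card_mul_index ((S r A ⊓ C).subgroupOf C)
          rw [Nat.card_congr (Subgroup.subgroupOfEquivOfLe (inf_le_right : S r A ⊓ C ≤ C)).toEquiv]
            at h3
          exact h3
        have h3 : (Nat.card C).factorization r =
            (Nat.card (S r A ⊓ C : Subgroup G)).factorization r := by
          rw [← h2]
          have h5 : (S r A ⊓ C).relIndex C ≠ 0 := by
            intro h0
            rw [h0, zero_mul] at h2
            exact Nat.card_pos.ne' h2.symm
          rw [Nat.factorization_mul h5 Nat.card_pos.ne', Finsupp.add_apply,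
            Nat.factorization_eq_zero_of_not_dvd h1, zero_add]
        rw [h3]
        have h4 : Nat.card (S r A ⊓ C : Subgroup G) ∣ Nat.card (A ⊓ C : Subgroup G) :=
          Subgroup.card_dvd_of_le (inf_le_inf_right _ (S_le r A))
        exact (Nat.factorization_le_iff_dvd Nat.card_pos.ne' Nat.card_pos.ne').mpr h4 r
      · have h1 : Nat.card (S r A) ∣ Nat.card (A ⊓ C : Subgroup G) :=
          Subgroup.card_dvd_of_le (le_inf (S_le r A) (hle r hr hrp))
        rw [S_card hr A] at h1
        have h2 := (hr.pow_dvd_iff_le_factorization Nat.card_pos.ne').mp h1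
        refine le_trans ?_ h2
        rw [← clF_fact m hr hrA]
        exact (Nat.factorization_le_iff_dvd Nat.card_pos.ne' Nat.card_pos.ne').mpr
          (Subgroup.card_subgroup_dvd_card C) r
    · rw [Nat.factorization_eq_zero_of_not_dvd hrC]
      exact Nat.zero_le _
  have heq : A ⊓ C = C :=
    Subgroup.eq_of_le_of_card_ge inf_le_right (Nat.le_of_dvd Nat.card_pos hdvd)
  have hCA : C ≤ A := by rw [← heq]; exact inf_le_left
  exact hCA.trans Subgroup.le_normalizer

end Pool.Agent.H71.KW
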