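import Pool.Agent.H71.KW.ClE

/-!
# Module ClF1: centralisers of subgroups of `S p A`, case 1
-/

open scoped Pointwise

namespace Pool.Agent.H71.KW

variable {G : Type*} [Group G] [Finite G] {A B X : Subgroup G} {p q : ℕ}

omit [Finite G] in
private theorem ClF1_pow {Y : Subgroup G} {y : G} {a b : ℕ} (hc : a.Coprime b)
    (ha : y ^ a ∈ Y) (hb : y ^ b ∈ Y) : y ∈ Y := by
  have h1 : y ^ ((a : ℤ) * Nat.gcdA a b + (b : ℤ) * Nat.gcdB a b) ∈ Y := by
    rw [zpow_add, zpow_mul, zpow_mul, zpow_natCast, zpow_natCast]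
    exact mul_mem (zpow_mem ha _) (zpow_mem hb _)
  have h2 := Nat.gcd_eq_gcd_ab a b
  rw [hc.gcd_eq_one] at h2
  rw [← h2] at h1
  simpa using h1

private theorem ClF1_index (m : Min A B) :
    A.relIndex (Subgroup.normalizer (A : Set G)) ∣ Nat.card B := by
  have hle : A ≤ Subgroup.normalizer (A : Set G) := Subgroup.le_normalizer
  have h1 : Nat.card A * A.relIndex (Subgroup.normalizer (A : Set G)) =
      Nat.card (Subgroup.normalizer (A : Set G)) := by
    rw [Subgroup.relIndex]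
    rw [← Nat.card_congr (Subgroup.subgroupOfEquivOfLe hle).toEquiv]
    exact Subgroup.card_mul_index _
  have h2 : Nat.card (Subgroup.normalizer (A : Set G)) ∣ Nat.card A * Nat.card B := by
    rw [← card_eq m]
    exact Subgroup.card_subgroup_dvd_card _
  rw [← h1] at h2
  exact Nat.dvd_of_mul_dvd_mul_left Nat.card_pos h2

/-- In case 2: `C ⊓ M ≤ A`: its order is prime to `|B|` and `A` is normal in `M`. -/
theorem clF_le (m : Min2 A B) {Y : Subgroup G} (hY : Y ≤ Subgroup.normalizer (A : Set G))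
    (h : ∀ q : ℕ, q.Prime → q ∣ Nat.card B → ¬ q ∣ Nat.card Y) : Y ≤ A := by
  intro y hy
  have hcop : (Nat.card B).Coprime (Nat.card Y) := by
    rw [Nat.coprime_iff_gcd_eq_one]
    by_contra hne
    obtain ⟨q, hq, hd⟩ := Nat.exists_prime_and_dvd hne
    exact h q hq (hd.trans (Nat.gcd_dvd_left _ _)) (hd.trans (Nat.gcd_dvd_right _ _))
  have h1 : y ^ Nat.card B ∈ A := by
    have hidx := ClF1_index m.toMin
    have hn : (A.subgroupOf (Subgroup.normalizer (A : Set G))).Normal :=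
      Subgroup.normal_in_normalizer
    have h2 := (A.subgroupOf (Subgroup.normalizer (A : Set G))).pow_index_mem
      (⟨y, hY hy⟩ : Subgroup.normalizer (A : Set G))
    rw [Subgroup.mem_subgroupOf] at h2
    obtain ⟨k, hk⟩ := hidx
    rw [hk, pow_mul]
    exact pow_mem h2 k
  have h2 : y ^ Nat.card Y ∈ A := by
    have : (⟨y, hy⟩ : Y) ^ Nat.card Y = 1 := pow_card_eq_one'
    have h3 := congrArg Subtype.val this
    simp only [Subgroup.coe_pow, Subgroup.coe_one] at h3
    rw [h3]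
    exact one_mem _
  exact ClF1_pow hcop h1 h2

/-- A `q` element of `M` is conjugate in `M` to an element of `S q B`. -/
private theorem ClF1_conj (m : Min A B) (hq : q.Prime) (hqB : q ∣ Nat.card B) {t : G}
    (ht : t ∈ Subgroup.normalizer (A : Set G)) {k : ℕ} (hk : t ^ q ^ k = 1) :
    ∃ n ∈ Subgroup.normalizer (A : Set G), n * t * n⁻¹ ∈ S q B := by
  have : Fact q.Prime := ⟨hq⟩
  set M := Subgroup.normalizer (A : Set G) with hM
  have hAM : A ≤ M := Subgroup.le_normalizer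
  have hcard := card_facS m (facS_of_le m.fac hAM)
  have hAM' : A ⊓ M = A := inf_eq_left.mpr hAM
  rw [hAM'] at hcard
  -- a Sylow subgroup of `B ⊓ M`
  obtain ⟨Q⟩ : Nonempty (Sylow q (B ⊓ M : Subgroup G)) := inferInstance
  let Q' : Subgroup G := (Q : Subgroup (B ⊓ M : Subgroup G)).map (B ⊓ M : Subgroup G).subtype
  have hQ'le : Q' ≤ B ⊓ M := Subgroup.map_subtype_le _
  have hQ'p : IsPGroup q Q' := Q.2.map _
  have hQ'card : Nat.card Q' = q ^ (Nat.card M).factorization q := by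
    have h1 : Nat.card Q' = Nat.card Q :=
      Nat.card_congr ((Q : Subgroup (B ⊓ M : Subgroup G)).equivMapOfInjective _
        (Subgroup.subtype_injective _)).symm.toEquiv
    rw [h1, Q.card_eq_multiplicity]
    congr 1
    rw [hcard, Nat.factorization_mul Nat.card_pos.ne' Nat.card_pos.ne']
    have h2 : ¬ q ∣ Nat.card A := by
      intro h2
      have := Nat.dvd_gcd h2 hqB
      rw [m.cop.gcd_eq_one] at this
      exact hq.one_lt.ne' (Nat.dvd_one.mp this)
    rw [Finsupp.add_apply, Nat.factorization_eq_zero_of_not_dvd h2, zero_add]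
  have hQ'S : Q' ≤ S q B := by
    intro x hx
    obtain ⟨j, hj⟩ := hQ'p ⟨x, hx⟩
    have hj' := congrArg Subtype.val hj
    simp only [Subgroup.coe_pow, Subgroup.coe_one] at hj'
    exact S_mem m.nB hq (hQ'le hx).1 hj'
  have hQ'M : Q' ≤ M := hQ'le.trans inf_le_right
  have hc2 : Nat.card (Q'.subgroupOf M) = q ^ (Nat.card M).factorization q := by
    rw [Nat.card_congr (Subgroup.subgroupOfEquivOfLe hQ'M).toEquiv, hQ'card]
  let P2 : Sylow q M := Sylow.ofCard (Q'.subgroupOf M) hc2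
  have hTp : IsPGroup q (Subgroup.zpowers (⟨t, ht⟩ : M)) := by
    have : orderOf (⟨t, ht⟩ : M) ∣ q ^ k := by
      rw [orderOf_dvd_iff_pow_eq_one]
      apply Subtype.ext
      simpa using hk
    obtain ⟨j, _, hj⟩ := (Nat.dvd_prime_pow hq).mp this
    exact IsPGroup.of_card (n := j) (by rw [Nat.card_zpowers, hj])
  obtain ⟨P1, hP1⟩ := hTp.exists_le_sylow
  obtain ⟨g, hg⟩ := MulAction.exists_smul_eq M P1 P2
  refine ⟨g, g.2, ?_⟩
  have h4 : (⟨t, ht⟩ : M) ∈ (P1 : Subgroup M) := hP1 (Subgroup.mem_zpowers _)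
  have h5 : g * ⟨t, ht⟩ * g⁻¹ ∈ (P2 : Subgroup M) := by
    rw [← hg]
    rw [Sylow.coe_subgroup_smul]
    exact Subgroup.smul_mem_pointwise_smul _ (MulAut.conj g) _ h4
  exact hQ'S (Subgroup.mem_subgroupOf.mp h5)

/-- Case 1 of claim F: some prime `q ∣ |B|` divides `|C ⊓ M|`, `C` the centraliser of `D`, `M = N(A)`.
`M = A (M ⊓ B)` (`facS_of_le`), so `S q B ⊓ M` is a Sylow `q` subgroup of `M`. Let `T ≤ C ⊓ M` be of order
`q`; a conjugate `m T m⁻¹`, `m ∈ M`, lies in `S q B ⊓ M`; by `clE m.symm` its centraliser lies in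
`N(B)`, so `m D m⁻¹ ≤ N(B)`, and `m D m⁻¹ ≤ S p A` (`S_char`); by `clE` the centraliser of `m D m⁻¹`, that
is `m C m⁻¹`, lies in `M`. -/
theorem clF_one (m : Min2 A B) (hp : p.Prime) (hpA : p ∣ Nat.card A) (hq : q.Prime)
    (hqB : q ∣ Nat.card B) {D : Subgroup G} (hD : D ≠ ⊥) (hDA : D ≤ S p A)
    (h : q ∣ Nat.card (Subgroup.centralizer (D : Set G) ⊓ Subgroup.normalizer (A : Set G) :
      Subgroup G)) :
    Subgroup.centralizer (D : Set G) ≤ Subgroup.normalizer (A : Set G) := by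
  have : Fact q.Prime := ⟨hq⟩
  obtain ⟨⟨t, htCM⟩, ht⟩ := exists_prime_orderOf_dvd_card' q h
  have htC := (Subgroup.mem_inf.mp htCM).1
  have htM := (Subgroup.mem_inf.mp htCM).2
  rw [Subgroup.orderOf_mk] at ht
  have htq : t ^ q ^ 1 = 1 := by rw [pow_one, ← ht]; exact pow_orderOf_eq_one t
  obtain ⟨n, hn, hnt⟩ := ClF1_conj m.toMin hq hqB htM htq
  set t' := n * t * n⁻¹ with ht'
  have ht'1 : t' ≠ 1 := by
    intro h1
    have : t = 1 := by
      rw [ht', conj_eq_one_iff] at h1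
      exact h1
    rw [this, orderOf_one] at ht
    exact hq.one_lt.ne ht
  have hT'S : Subgroup.zpowers t' ≤ S q B := (Subgroup.zpowers_le).mpr hnt
  have hT'M : Subgroup.zpowers t' ≤ Subgroup.normalizer (A : Set G) :=
    (Subgroup.zpowers_le).mpr (mul_mem (mul_mem hn htM) (inv_mem hn))
  have hT'ne : Subgroup.zpowers t' ≠ ⊥ := by
    rw [Ne, Subgroup.zpowers_eq_bot]
    exact ht'1
  have hE1 := clE m.symm hq hqB hT'ne hT'S hT'M
  have hnA : MulAut.conj n • A = A := by
    have := Subgroup.mem_normalizer_iff_map_conj_eq.mp hn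
    exact this
  have hchar := S_char m.nA hp hnA
  let D' : Subgroup G := MulAut.conj n • D
  have hD'S : D' ≤ S p A := by
    rw [← hchar]
    exact Subgroup.pointwise_smul_le_pointwise_smul_iff.mpr hDA
  have hD'mem : ∀ x ∈ D, n * x * n⁻¹ ∈ D' := fun x hx =>
    Subgroup.smul_mem_pointwise_smul x (MulAut.conj n) D hx
  have hD'out : ∀ y ∈ D', ∃ x ∈ D, y = n * x * n⁻¹ := by
    intro y hy
    obtain ⟨x, hx, hxy⟩ := (Subgroup.mem_smul_pointwise_iff_exists _ _ _).mp hy
    exact ⟨x, hx, hxy.symm⟩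
  have hD'ne : D' ≠ ⊥ := by
    intro h1
    apply hD
    rw [eq_bot_iff]
    intro x hx
    have h2 := hD'mem x hx
    rw [h1, Subgroup.mem_bot, conj_eq_one_iff] at h2
    exact h2
  have hD'B : D' ≤ Subgroup.normalizer (B : Set G) := by
    refine le_trans ?_ hE1
    intro y hy
    obtain ⟨x, hx, rfl⟩ := hD'out y hy
    rw [Subgroup.mem_centralizer_iff]
    intro z hz
    obtain ⟨i, rfl⟩ := Subgroup.mem_zpowers_iff.mp hz
    have hcomm : Commute t' (n * x * n⁻¹) := by
      have h3 : x * t = t * x := (Subgroup.mem_centralizer_iff.mp htC) x hx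
      show n * t * n⁻¹ * (n * x * n⁻¹) = n * x * n⁻¹ * (n * t * n⁻¹)
      have h4 : n * t * n⁻¹ * (n * x * n⁻¹) = n * (t * x) * n⁻¹ := by group
      have h5 : n * x * n⁻¹ * (n * t * n⁻¹) = n * (x * t) * n⁻¹ := by group
      rw [h4, h5, h3]
    exact (hcomm.zpow_left i)
  have hE2 := clE m hp hpA hD'ne hD'S hD'B
  intro c hc
  have h6 : n * c * n⁻¹ ∈ Subgroup.centralizer (D' : Set G) := by
    rw [Subgroup.mem_centralizer_iff]
    intro y hy
    obtain ⟨x, hx, rfl⟩ := hD'out y hy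
    have h3 : x * c = c * x := (Subgroup.mem_centralizer_iff.mp hc) x hx
    have h4 : n * x * n⁻¹ * (n * c * n⁻¹) = n * (x * c) * n⁻¹ := by group
    have h5 : n * c * n⁻¹ * (n * x * n⁻¹) = n * (c * x) * n⁻¹ := by group
    rw [h4, h5, h3]
  have h7 := hE2 h6
  have h8 := mul_mem (mul_mem (inv_mem hn) h7) hn
  have h9 : n⁻¹ * (n * c * n⁻¹) * n = c := by group
  rwa [h9] at h8

end Pool.Agent.H71.KW
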