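import Pool.Agent.H71.KW.ClA

/-!
# Module Cons: consequences of `clA`, and claim B
-/

open scoped Pointwise

namespace Pool.Agent.H71.KW

variable {G : Type*} [Group G] [Finite G] {A B X : Subgroup G} {p q : ℕ}

private theorem mem_norm_iff_conj {G : Type*} [Group G] {H : Subgroup G} {g : G} :
    g ∈ Subgroup.normalizer (H : Set G) ↔ MulAut.conj g • H = H := by
  rw [Subgroup.mem_normalizer_iff'', SetLike.ext_iff]
  constructor
  · intro h x
    rw [Subgroup.mem_pointwise_smul_iff_inv_smul_mem, ← map_inv, MulAut.smul_def,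
      MulAut.conj_apply, inv_inv]
    exact (h x).symm
  · intro h x
    have := h x
    rw [Subgroup.mem_pointwise_smul_iff_inv_smul_mem, ← map_inv, MulAut.smul_def,
      MulAut.conj_apply, inv_inv] at this
    exact this.symm

private theorem mem_conj_iff {G : Type*} [Group G] {H : Subgroup G} {g x : G} :
    x ∈ MulAut.conj g • H ↔ g⁻¹ * x * g ∈ H := by
  rw [Subgroup.mem_pointwise_smul_iff_inv_smul_mem, ← map_inv, MulAut.smul_def,
    MulAut.conj_apply, inv_inv]

omit [Finite G] in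
private theorem A_ne_top (m : Min2 A B) : A ≠ ⊤ := by
  intro h
  have hA : Group.IsNilpotent A := m.nA
  have hs : Group.IsSolvable A := inferInstance
  subst h
  exact m.ns (Group.isSolvable_of_surjective (f := (⊤ : Subgroup G).subtype)
    (fun x => ⟨⟨x, Subgroup.mem_top x⟩, rfl⟩))

theorem nA_ne (m : Min2 A B) : Subgroup.normalizer (A : Set G) ≠ ⊤ :=
  norm_ne_top m.toMin (A_ne_bot m) (A_ne_top m)

/-- `N_G(S p A) ≥ A` is proper. -/
theorem norm_S_le (m : Min2 A B) (hp : p.Prime) (hpA : p ∣ Nat.card A) :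
    Subgroup.normalizer (S p A : Set G) ≤ Subgroup.normalizer (A : Set G) := by
  refine clA m ?_ ?_
  · intro a ha
    exact mem_norm_iff_conj.mpr (S_norm m.nA hp ha)
  · refine norm_ne_top m.toMin (S_ne_bot hp hpA) ?_
    intro h
    exact A_ne_top m (top_le_iff.mp (h ▸ S_le p A))

/-- The centraliser of `z` contains `A` and is proper (`center_bot`). -/
theorem cent_z_le (m : Min2 A B) {z : G} (hz1 : z ≠ 1) (hc : ∀ a ∈ A, a * z = z * a) :
    Subgroup.centralizer {z} ≤ Subgroup.normalizer (A : Set G) := by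
  refine clA m ?_ ?_
  · intro a ha
    rw [Subgroup.mem_centralizer_singleton_iff]
    exact hc a ha
  · intro h
    apply hz1
    have hz : z ∈ Subgroup.center G := by
      rw [Subgroup.mem_center_iff]
      intro g
      have hg : g ∈ Subgroup.centralizer {z} := h ▸ Subgroup.mem_top g
      rw [Subgroup.mem_centralizer_singleton_iff] at hg
      exact hg
    rw [center_bot m.toMin] at hz
    exact Subgroup.mem_bot.mp hz

theorem le_S_of_norm (m : Min2 A B) (hp : p.Prime) (hpA : p ∣ Nat.card A) {Y : Subgroup G}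
    (hY : IsPGroup p Y) (h : Y ≤ Subgroup.normalizer (A : Set G)) : Y ≤ S p A := by
  obtain ⟨P, hP⟩ := S_sylow m.toMin hp hpA
  have h1 := hY.inf_normalizer_sylow P
  have h2 : Y ≤ Subgroup.normalizer (P : Set G) := by
    intro y hy
    have h3 := S_char m.nA hp (mem_norm_iff_conj.mp (h hy))
    have h4 : y ∈ Subgroup.normalizer (S p A : Set G) := mem_norm_iff_conj.mpr h3
    rw [← hP] at h4
    exact h4
  rw [inf_eq_left.mpr h2] at h1
  rw [← hP]
  exact inf_eq_left.mp h1.symm

/-- `A` is a normal Hall subgroup of its normaliser `M`, so it contains all `p` elements of `M`. -/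
theorem mem_S_of_norm (m : Min2 A B) (hp : p.Prime) (hpA : p ∣ Nat.card A) {x : G}
    (hx : x ∈ Subgroup.normalizer (A : Set G)) {k : ℕ} (hk : x ^ p ^ k = 1) : x ∈ S p A := by
  refine le_S_of_norm m hp hpA (Y := Subgroup.zpowers x) ?_ ?_ (Subgroup.mem_zpowers x)
  · rintro ⟨y, n, rfl⟩
    refine ⟨k, Subtype.ext ?_⟩
    simp only [Subgroup.coe_pow, Subgroup.coe_one]
    rw [← zpow_natCast, ← zpow_mul, mul_comm, zpow_mul, zpow_natCast, hk, one_zpow]
  · rw [Subgroup.zpowers_le]
    exact hx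

/-- If `g S_p(A) g⁻¹` lies in `M` then it is `S_p(A)` and `g ∈ M`. -/
theorem conj_S (m : Min2 A B) (hp : p.Prime) (hpA : p ∣ Nat.card A) {g : G}
    (h : MulAut.conj g • S p A ≤ Subgroup.normalizer (A : Set G)) :
    g ∈ Subgroup.normalizer (A : Set G) := by
  have h1 : IsPGroup p (MulAut.conj g • S p A : Subgroup G) :=
    (S_pgroup hp A).of_equiv (Subgroup.equivSMul (MulAut.conj g) (S p A))
  have h2 := le_S_of_norm m hp hpA h1 h
  have h3 : MulAut.conj g • S p A = S p A := by
    apply Subgroup.eq_of_le_of_card_ge h2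
    exact (Nat.card_congr (Subgroup.equivSMul (MulAut.conj g) (S p A)).toEquiv).le
  exact norm_S_le m hp hpA (mem_norm_iff_conj.mpr h3)

/-- CLAIM B. `g⁻¹ z g ∈ M` is in `S p A`, so `z ∈ g S_p(A) g⁻¹` commutes with `g S_s(A) g⁻¹`,
`s ≠ p` another prime divisor of `|A|`; by `cent_z_le` this lies in `M`, and `conj_S` applies. -/
theorem clB (m : Min2 A B) (hp : p.Prime) (hpA : p ∣ Nat.card A) {z : G} (hz : z ∈ S p A)
    (hz1 : z ≠ 1) (hc : ∀ a ∈ A, a * z = z * a) {g : G}
    (h : g⁻¹ * z * g ∈ Subgroup.normalizer (A : Set G)) :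
    g ∈ Subgroup.normalizer (A : Set G) := by
  obtain ⟨s, hs, hsp, hsA⟩ := m.twoA p
  obtain ⟨k, hk⟩ := S_pgroup hp A ⟨z, hz⟩
  have hk' : z ^ p ^ k = 1 := by
    have := congrArg Subtype.val hk
    simpa using this
  have h1 : g⁻¹ * z * g ∈ S p A := by
    refine mem_S_of_norm m hp hpA h (k := k) ?_
    have : g⁻¹ * z * g = g⁻¹ * z * (g⁻¹)⁻¹ := by rw [inv_inv]
    rw [this, conj_pow, hk']
    simp
  refine conj_S m hs hsA (g := g) ?_
  refine le_trans ?_ (cent_z_le m hz1 hc)
  intro x hx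
  rw [mem_conj_iff] at hx
  rw [Subgroup.mem_centralizer_singleton_iff]
  have h2 := S_comm m.nA hs hp hsp hx h1
  have h3 : g * (g⁻¹ * x * g * (g⁻¹ * z * g)) * g⁻¹ = g * (g⁻¹ * z * g * (g⁻¹ * x * g)) * g⁻¹ := by
    rw [h2]
  have h4 : g * (g⁻¹ * x * g * (g⁻¹ * z * g)) * g⁻¹ = x * z := by group
  have h5 : g * (g⁻¹ * z * g * (g⁻¹ * x * g)) * g⁻¹ = z * x := by group
  rw [← h4, h3, h5]

end Pool.Agent.H71.KW
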