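import Mathlib

/-!
# Kegel Wielandt: a finite group `G = AB`, `A` and `B` nilpotent, is soluble

Definitions. The whole proof on paper is in the file h71_kegel_wielandt.md of the team store.
Conjugates of subgroups are `MulAut.conj g • H` (which is `g H g⁻¹`).
-/

open scoped Pointwise

namespace Pool.Agent.H71.KW

/-- `G = AB` -/
def Fac {G : Type*} [Group G] (A B : Subgroup G) : Prop :=
  ∀ g : G, ∃ a ∈ A, ∃ b ∈ B, g = a * b

/-- The subgroup `X` is factorised: `X = (A ∩ X)(B ∩ X)`. -/
def FacS {G : Type*} [Group G] (A B X : Subgroup G) : Prop :=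
  ∀ x ∈ X, ∃ a ∈ A, ∃ b ∈ B, a ∈ X ∧ b ∈ X ∧ x = a * b

/-- The subgroups `H` and `K` permute: the subgroup they generate is the set `HK`. -/
def Per {G : Type*} [Group G] (H K : Subgroup G) : Prop :=
  ∀ x ∈ H ⊔ K, ∃ h ∈ H, ∃ k ∈ K, x = h * k

/-- A Sylow `p` subgroup of the subgroup `A`, as a subgroup of `G`. It is only used for finite
nilpotent `A`, where it is the only one. -/
noncomputable def S {G : Type*} [Group G] (p : ℕ) (A : Subgroup G) : Subgroup G :=
  ((default : Sylow p A) : Subgroup A).map A.subtype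

/-- `O_p(X)` for a subgroup `X` of `G`, as a subgroup of `G`: generated by all `p` subgroups of `X`
which are normalised by `X`. -/
def Op {G : Type*} [Group G] (p : ℕ) (X : Subgroup G) : Subgroup G :=
  sSup {N : Subgroup G | N ≤ X ∧ X ≤ Subgroup.normalizer (N : Set G) ∧ IsPGroup p N}

/-- The Fitting subgroup of `X`, as a subgroup of `G`. -/
def Fit {G : Type*} [Group G] (X : Subgroup G) : Subgroup G :=
  ⨆ p : {p : ℕ // p.Prime}, Op p.1 X

/-- `G` has no normal subgroup besides `1` and `G`. -/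
def Simp (G : Type*) [Group G] : Prop :=
  ∀ N : Subgroup G, N.Normal → N = ⊥ ∨ N = ⊤

/-- The order of `A` is divisible by two primes. -/
def Two {G : Type*} [Group G] (A : Subgroup G) : Prop :=
  ∀ p : ℕ, ∃ s : ℕ, s.Prime ∧ s ≠ p ∧ s ∣ Nat.card A

/-- The situation in the coprime case: a counterexample `G = AB` of minimal order. -/
structure Min {G : Type*} [Group G] (A B : Subgroup G) : Prop where
  nA : Group.IsNilpotent A
  nB : Group.IsNilpotent B
  fac : Fac A B
  cop : (Nat.card A).Coprime (Nat.card B)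
  simp : Simp G
  ns : ¬ Group.IsSolvable G
  sub : ∀ X : Subgroup G, X ≠ ⊤ → FacS A B X → Group.IsSolvable X

/-- The same, and both orders are divisible by two primes. -/
structure Min2 {G : Type*} [Group G] (A B : Subgroup G) : Prop extends Min A B where
  twoA : Two A
  twoB : Two B

theorem Fac.symm {G : Type*} [Group G] {A B : Subgroup G} (h : Fac A B) : Fac B A := by
  intro g
  obtain ⟨a, ha, b, hb, hg⟩ := h g⁻¹
  refine ⟨b⁻¹, inv_mem hb, a⁻¹, inv_mem ha, ?_⟩
  rw [← mul_inv_rev, ← hg, inv_inv]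

theorem FacS.symm {G : Type*} [Group G] {A B X : Subgroup G} (h : FacS A B X) : FacS B A X := by
  intro g hgX
  obtain ⟨a, ha, b, hb, haX, hbX, hg⟩ := h g⁻¹ (inv_mem hgX)
  refine ⟨b⁻¹, inv_mem hb, a⁻¹, inv_mem ha, inv_mem hbX, inv_mem haX, ?_⟩
  rw [← mul_inv_rev, ← hg, inv_inv]

theorem Per.symm {G : Type*} [Group G] {H K : Subgroup G} (h : Per H K) : Per K H := by
  intro g hg
  rw [sup_comm] at hg
  obtain ⟨a, ha, b, hb, hg⟩ := h g⁻¹ (inv_mem hg)
  refine ⟨b⁻¹, inv_mem hb, a⁻¹, inv_mem ha, ?_⟩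
  rw [← mul_inv_rev, ← hg, inv_inv]

theorem Min.symm {G : Type*} [Group G] {A B : Subgroup G} (m : Min A B) : Min B A where
  nA := m.nB
  nB := m.nA
  fac := m.fac.symm
  cop := m.cop.symm
  simp := m.simp
  ns := m.ns
  sub X hX hf := m.sub X hX hf.symm

theorem Min2.symm {G : Type*} [Group G] {A B : Subgroup G} (m : Min2 A B) : Min2 B A where
  toMin := m.toMin.symm
  twoA := m.twoB
  twoB := m.twoA

end Pool.Agent.H71.KW
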