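import Pool.Agent.H71.KW.ClF

/-!
# Module Fin: the final count
-/

open scoped Pointwise

namespace Pool.Agent.H71.KW

variable {G : Type*} [Group G] [Finite G] {A B X : Subgroup G} {p q : ℕ}

/-- For `g` not in `M = N(A)`: `A ⊓ g A g⁻¹ = 1`. Otherwise a prime `p` divides its order, so
there is `D ≠ ⊥` with `D ≤ S p A` and `D ≤ g S_p(A) g⁻¹`; for `s ≠ p` the subgroup `g S_s(A) g⁻¹` commutes
with `D`, so it lies in `M` by `clF`, and `conj_S` gives `g ∈ M`. -/
theorem inter_conj (m : Min2 A B) {g : G} (hg : g ∉ Subgroup.normalizer (A : Set G)) :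
    A ⊓ MulAut.conj g • A = ⊥ := by
  by_contra hne
  have h1 : Nat.card (A ⊓ MulAut.conj g • A : Subgroup G) ≠ 1 := fun h =>
    hne (Subgroup.eq_bot_of_card_eq _ h)
  obtain ⟨p, hp, hpd⟩ := Nat.exists_prime_and_dvd h1
  have : Fact p.Prime := ⟨hp⟩
  obtain ⟨⟨x, hxA, hxg⟩, hxo⟩ := exists_prime_orderOf_dvd_card' p hpd
  have hxp : orderOf x = p := by
    rw [← hxo]
    exact (Subgroup.orderOf_mk (H := (A ⊓ MulAut.conj g • A : Subgroup G)) x ⟨hxA, hxg⟩).symm
  have hx1 : x ≠ 1 := by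
    rintro rfl
    rw [orderOf_one] at hxp
    exact hp.one_lt.ne hxp
  have hxpow : x ^ p ^ 1 = 1 := by rw [pow_one, ← hxp, pow_orderOf_eq_one]
  have hpA : p ∣ Nat.card A := by
    rw [← hxp, ← Subgroup.orderOf_mk x hxA]
    exact orderOf_dvd_natCard _
  have hxS : x ∈ S p A := S_mem m.nA hp hxA hxpow
  have hx' : g⁻¹ * x * g ∈ A := by
    have h2 : (MulAut.conj g)⁻¹ • x ∈ A := Subgroup.mem_pointwise_smul_iff_inv_smul_mem.1 hxg
    rwa [← map_inv, MulAut.smul_def, MulAut.conj_apply, inv_inv] at h2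
  have hx'S : g⁻¹ * x * g ∈ S p A := by
    refine S_mem (k := 1) m.nA hp hx' ?_
    have : g⁻¹ * x * g = g⁻¹ * x * (g⁻¹)⁻¹ := by rw [inv_inv]
    rw [this, conj_pow, hxpow, mul_one, mul_inv_cancel]
  have hD : Subgroup.zpowers x ≠ ⊥ := by rwa [Ne, Subgroup.zpowers_eq_bot]
  have hDS : Subgroup.zpowers x ≤ S p A := by rwa [Subgroup.zpowers_le]
  have hcl := clF m hp hpA hD hDS
  obtain ⟨s, hs, hsp, hsA⟩ := m.twoA p
  refine hg (conj_S m hs hsA (le_trans ?_ hcl))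
  intro y hy
  have hy' : g⁻¹ * y * g ∈ S s A := by
    have h2 : (MulAut.conj g)⁻¹ • y ∈ S s A := Subgroup.mem_pointwise_smul_iff_inv_smul_mem.1 hy
    rwa [← map_inv, MulAut.smul_def, MulAut.conj_apply, inv_inv] at h2
  have hc := S_comm m.nA hp hs (Ne.symm hsp) hx'S hy'
  have hxy : x * y = y * x := by
    have h3 : g * (g⁻¹ * x * g * (g⁻¹ * y * g)) * g⁻¹ = g * (g⁻¹ * y * g * (g⁻¹ * x * g)) * g⁻¹ := by
      rw [hc]
    have h4 : g * (g⁻¹ * x * g * (g⁻¹ * y * g)) * g⁻¹ = x * y := by group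
    have h5 : g * (g⁻¹ * y * g * (g⁻¹ * x * g)) * g⁻¹ = y * x := by group
    rw [h4, h5] at h3
    exact h3
  rw [Subgroup.mem_centralizer_iff]
  rintro z hz
  obtain ⟨n, rfl⟩ := Subgroup.mem_zpowers_iff.1 hz
  exact (Commute.zpow_left (show Commute x y from hxy) n)

/-- `|A|² ≤ |G| = |A| |B|`: the products `a a'`, `a ∈ A`, `a' ∈ g A g⁻¹`, are different. -/
theorem card_le (m : Min2 A B) : Nat.card A ≤ Nat.card B := by
  obtain ⟨g, hg⟩ : ∃ g, g ∉ Subgroup.normalizer (A : Set G) := by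
    by_contra h
    push Not at h
    exact nA_ne m (by rw [eq_top_iff]; intro x _; exact h x)
  have hI := inter_conj m hg
  have hinj : Function.Injective
      (fun z : A × (MulAut.conj g • A : Subgroup G) => (z.1 : G) * (z.2 : G)) := by
    rintro ⟨⟨a, ha⟩, ⟨b, hb⟩⟩ ⟨⟨a', ha'⟩, ⟨b', hb'⟩⟩ h
    have h1 : a * b = a' * b' := h
    have h2 : a'⁻¹ * a = b' * b⁻¹ := by
      rw [inv_mul_eq_iff_eq_mul, ← mul_assoc, eq_mul_inv_iff_mul_eq, h1]
    have h3 : a'⁻¹ * a ∈ A ⊓ MulAut.conj g • A :=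
      Subgroup.mem_inf.2 ⟨A.mul_mem (A.inv_mem ha') ha, by
        rw [h2]
        exact Subgroup.mul_mem _ hb' (Subgroup.inv_mem _ hb)⟩
    rw [hI, Subgroup.mem_bot] at h3
    have h4 : a' = a := inv_mul_eq_one.1 h3
    have h5 : b' = b := by
      rw [h3] at h2
      exact (mul_inv_eq_one.1 h2.symm)
    subst h4 h5
    rfl
  have hc := Nat.card_le_card_of_injective _ hinj
  have hcA : Nat.card (MulAut.conj g • A : Subgroup G) = Nat.card A :=
    (Nat.card_congr (Subgroup.equivSMul (MulAut.conj g) A).toEquiv).symm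
  rw [Nat.card_prod, hcA, card_eq m.toMin] at hc
  exact Nat.le_of_mul_le_mul_left hc Nat.card_pos

/-- `|A| = |B|`, coprime, so `A = 1`, against `A_ne_bot`. -/
theorem no_min2 (m : Min2 A B) : False := by
  have h1 := card_le m
  have h2 := card_le m.symm
  have h3 : Nat.card A = Nat.card B := le_antisymm h1 h2
  have h4 := m.cop
  rw [← h3, Nat.coprime_self] at h4
  exact A_ne_bot m (Subgroup.eq_bot_of_card_eq _ h4)

end Pool.Agent.H71.KW
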