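import Pool.Agent.H71.KW.Defs

/-!
# Module Hall: existence of Hall subgroups in finite soluble groups
-/

namespace Pool.Agent.H71.KW

/-- A nontrivial finite soluble group has a nontrivial normal `r` subgroup. -/
private theorem hall_exists_normal {X : Type*} [Group X] [Finite X] [Group.IsSolvable X]
    [Nontrivial X] : ∃ (r : ℕ) (N : Subgroup X), r.Prime ∧ N.Normal ∧ IsPGroup r N ∧ N ≠ ⊥ := by
  classical
  obtain ⟨k, hk⟩ := Group.IsSolvable.solvable (G := X)
  have hex : ∃ k, derivedSeries X k = ⊥ := ⟨k, hk⟩
  set k0 := Nat.find hex with hk0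
  have h0 : derivedSeries X k0 = ⊥ := Nat.find_spec hex
  have hpos : k0 ≠ 0 := by
    intro h
    rw [h, derivedSeries_zero] at h0
    exact top_ne_bot h0
  obtain ⟨j, hj⟩ := Nat.exists_eq_succ_of_ne_zero hpos
  have hD : derivedSeries X j ≠ ⊥ := Nat.find_min hex (by omega)
  set D := derivedSeries X j with hDdef
  have hcomm : ⁅D, D⁆ = ⊥ := by
    rw [hDdef, ← derivedSeries_succ, ← Nat.succ_eq_add_one, ← hj]; exact h0
  have hDn : D.Normal := derivedSeries_normal X j
  have hc : ∀ a b : D, a * b = b * a := by
    intro a b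
    have := Subgroup.commutator_mem_commutator a.2 b.2
    rw [hcomm, Subgroup.mem_bot] at this
    have h2 := commutatorElement_eq_one_iff_mul_comm.mp this
    exact Subtype.ext h2
  have hcard : Nat.card D ≠ 1 := by
    intro h
    exact hD (Subgroup.card_eq_one.mp h)
  obtain ⟨r, hr, hrd⟩ := Nat.exists_prime_and_dvd hcard
  have : Fact r.Prime := ⟨hr⟩
  let P : Sylow r D := default
  have hPn : (P : Subgroup D).Normal := by
    constructor
    intro n hn g
    rw [hc g n, mul_inv_cancel_right]
    exact hn
  have hPc : (P : Subgroup D).Characteristic := P.characteristic_of_normal hPn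
  have := hDn
  have := hPc
  refine ⟨r, (P : Subgroup D).map D.subtype, hr, ?_, ?_, ?_⟩
  · exact ConjAct.normal_of_characteristic_of_normal
  · exact P.isPGroup'.map _
  · intro h
    have hb : (P : Subgroup D) = ⊥ := by
      rw [Subgroup.map_eq_bot_iff, Subgroup.ker_subtype, le_bot_iff] at h
      exact h
    have hd := P.dvd_card_of_dvd_card hrd
    rw [hb, Subgroup.card_bot] at hd
    exact hr.one_lt.ne' (Nat.dvd_one.mp hd)

private theorem hall_aux : ∀ (c : ℕ) (X : Type _) [Group X] [Finite X] [Group.IsSolvable X]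
    {n m : ℕ}, Nat.card X = c → Nat.card X = n * m → n.Coprime m →
    ∃ H : Subgroup X, Nat.card H = n := by
  intro c
  induction c using Nat.strong_induction_on with
  | _ c ih =>
  intro X _ _ _ n m hX h hc
  by_cases htriv : Nat.card X = 1
  · rw [h] at htriv
    have hn : n = 1 := Nat.eq_one_of_mul_eq_one_right htriv
    exact ⟨⊥, by rw [Subgroup.card_bot, hn]⟩
  have : Nontrivial X := by
    rw [← Finite.one_lt_card_iff_nontrivial]
    have := Nat.card_pos (α := X)
    omega
  obtain ⟨r, N, hr, hN, hNp, hNb⟩ := hall_exists_normal (X := X)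
  have := hN
  have : Fact r.Prime := ⟨hr⟩
  have hNc : 1 < Nat.card N := by
    have h1 : Nat.card N ≠ 1 := fun h => hNb (Subgroup.card_eq_one.mp h)
    have := Nat.card_pos (α := N)
    omega
  obtain ⟨e, he⟩ := (IsPGroup.iff_card (p := r)).mp hNp
  have hmul : Nat.card X = Nat.card (X ⧸ N) * Nat.card N := Subgroup.card_eq_card_quotient_mul_card_subgroup N
  have hqpos : 0 < Nat.card (X ⧸ N) := Nat.card_pos
  have hlt : Nat.card (X ⧸ N) < c := by
    rw [← hX, hmul]
    nlinarith
  have hdvd : Nat.card N ∣ n * m := by rw [← h, hmul]; exact Dvd.intro_left _ rfl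
  have hpre : ∀ K : Subgroup (X ⧸ N), Nat.card (K.comap (QuotientGroup.mk' N)) =
      Nat.card K * Nat.card N := by
    intro K
    have h2 : K.index * Nat.card K = Nat.card (X ⧸ N) := Subgroup.index_mul_card K
    have h3 : (K.comap (QuotientGroup.mk' N)).index = K.index :=
      Subgroup.index_comap_of_surjective K (QuotientGroup.mk'_surjective N)
    have h4 : (K.comap (QuotientGroup.mk' N)).index * Nat.card (K.comap (QuotientGroup.mk' N)) =
      Nat.card X := Subgroup.index_mul_card _
    have hipos : 0 < K.index := Nat.pos_of_ne_zero Subgroup.index_ne_zero_of_finite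
    rw [h3, hmul, ← h2, mul_assoc] at h4
    exact Nat.eq_of_mul_eq_mul_left hipos h4
  by_cases hrn : r ∣ n
  · -- `r ∣ n`
    have hrm : ¬ r ∣ m := fun h' => hr.one_lt.ne' (Nat.dvd_one.mp (by
      have := Nat.dvd_gcd hrn h'
      rwa [Nat.Coprime.gcd_eq_one hc] at this))
    have hcop : (Nat.card N).Coprime m := by
      rw [he]
      exact Nat.Coprime.pow_left _ ((Nat.Prime.coprime_iff_not_dvd hr).mpr hrm)
    have hNn : Nat.card N ∣ n := hcop.dvd_of_dvd_mul_right hdvd
    obtain ⟨n', hn'⟩ := hNn
    have hq : Nat.card (X ⧸ N) = n' * m := by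
      have : Nat.card (X ⧸ N) * Nat.card N = n' * m * Nat.card N := by
        rw [← hmul, h, hn']; ring
      exact Nat.eq_of_mul_eq_mul_right (by omega) this
    have hc' : n'.Coprime m := Nat.Coprime.coprime_dvd_left ⟨Nat.card N, by rw [hn']; ring⟩ hc
    obtain ⟨K, hK⟩ := ih _ hlt (X ⧸ N) rfl hq hc'
    exact ⟨K.comap (QuotientGroup.mk' N), by rw [hpre, hK, hn', mul_comm]⟩
  · have hcop : (Nat.card N).Coprime n := by
      rw [he]
      exact Nat.Coprime.pow_left _ ((Nat.Prime.coprime_iff_not_dvd hr).mpr hrn)
    have hNm : Nat.card N ∣ m := hcop.dvd_of_dvd_mul_left hdvd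
    obtain ⟨m', hm'⟩ := hNm
    have hq : Nat.card (X ⧸ N) = n * m' := by
      have : Nat.card (X ⧸ N) * Nat.card N = n * m' * Nat.card N := by
        rw [← hmul, h, hm']; ring
      exact Nat.eq_of_mul_eq_mul_right (by omega) this
    have hc' : n.Coprime m' := Nat.Coprime.coprime_dvd_right ⟨Nat.card N, by rw [hm']; ring⟩ hc
    obtain ⟨K, hK⟩ := ih _ hlt (X ⧸ N) rfl hq hc'
    set H := K.comap (QuotientGroup.mk' N) with hH
    have hHc : Nat.card H = n * Nat.card N := by rw [hpre, hK]
    by_cases hHt : H = ⊤
    · -- Schur Zassenhaus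
      have hXc : Nat.card X = n * Nat.card N := by
        rw [← hHc, hHt, Subgroup.card_top]
      have hidx : N.index = n := by
        have := Subgroup.index_mul_card N
        rw [hXc] at this
        exact Nat.eq_of_mul_eq_mul_right (by omega) this
      obtain ⟨L, hL⟩ := Subgroup.exists_right_complement'_of_coprime (N := N) (by rwa [hidx])
      refine ⟨L, ?_⟩
      have := hL.card_mul_card
      rw [hXc, mul_comm n] at this
      exact Nat.eq_of_mul_eq_mul_left (by omega) this
    · have hHlt : Nat.card H < c := by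
        rw [← hX]
        exact lt_of_le_of_ne (Subgroup.card_le_card_group H) (fun h' => hHt (Subgroup.eq_top_of_card_eq H h'))
      obtain ⟨L, hL⟩ := ih _ hHlt H rfl hHc hcop.symm
      refine ⟨L.map H.subtype, ?_⟩
      rw [← hL]
      exact (Nat.card_congr (L.equivMapOfInjective H.subtype H.subtype_injective).toEquiv).symm

/-- P. Hall: a finite soluble group of order `n m` with `n`, `m` coprime has a subgroup of order `n`.
Proof: strong induction on the order. Let `N` be a minimal normal subgroup `≠ 1`; it is a `r` group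
for a prime `r` (the last nontrivial term of the derived series of `G` is abelian and
characteristic, take the `r` torsion of it: no need for minimality, any normal `r` subgroup
`N ≠ 1` will do). If `r ∣ n`: then `|N|` divides `n` (`r ∤ m`), `G/N` has order `(n/|N|) m`, take the
preimage of a subgroup of order `n/|N|`. If `r ∣ m`: `|N|` divides `m`, `G/N` has a subgroup of
order `n`, let `H` be the preimage, `|H| = n |N|`. If `H ≠ G` use induction in `H` . If `H = G`,
`n` is prime to `|N|`: Schur Zassenhaus (`Subgroup.exists_right_complement'_of_coprime`). -/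
theorem hall {X : Type*} [Group X] [Finite X] [Group.IsSolvable X] {n m : ℕ}
    (h : Nat.card X = n * m) (hc : n.Coprime m) : ∃ H : Subgroup X, Nat.card H = n :=
  hall_aux _ X rfl h hc

end Pool.Agent.H71.KW
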