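import Pool.Agent.H71.KW.Defs

/-!
# Module Nil: the Sylow subgroups `S p A` of a finite nilpotent subgroup `A`

All Sylow subgroups of a finite nilpotent group are normal (Mathlib:
`Group.isNilpotent_of_finite_tfae` or `Sylow.normal_of_...`), so `S p A` is the set of the
`p` elements of `A`.
-/

open scoped Pointwise

namespace Pool.Agent.H71.KW

variable {G : Type*} [Group G] [Finite G] {A : Subgroup G} {p r : ℕ}

theorem S_le (p : ℕ) (A : Subgroup G) : S p A ≤ A := Subgroup.map_subtype_le _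

theorem S_pgroup (hp : p.Prime) (A : Subgroup G) : IsPGroup p (S p A) := by
  have h : IsPGroup p ((default : Sylow p A) : Subgroup A) := (default : Sylow p A).isPGroup'
  exact h.map A.subtype

theorem S_card (hp : p.Prime) (A : Subgroup G) :
    Nat.card (S p A) = p ^ (Nat.card A).factorization p := by
  haveI : Fact p.Prime := ⟨hp⟩
  unfold S
  rw [Subgroup.card_map_of_injective A.subtype_injective]
  exact (default : Sylow p A).card_eq_multiplicity

theorem S_ne_bot (hp : p.Prime) (h : p ∣ Nat.card A) : S p A ≠ ⊥ := by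
  intro he
  have h1 := S_card hp A
  rw [he, Subgroup.card_bot] at h1
  have h2 : 1 ≤ (Nat.card A).factorization p :=
    (hp.dvd_iff_one_le_factorization Nat.card_pos.ne').1 h
  have h3 : p ^ 1 ≤ p ^ (Nat.card A).factorization p := Nat.pow_le_pow_right hp.pos h2
  rw [← h1, pow_one] at h3
  exact absurd hp.one_lt (by omega)

theorem S_mem (hA : Group.IsNilpotent A) (hp : p.Prime) {x : G} (hx : x ∈ A) {k : ℕ}
    (hk : x ^ p ^ k = 1) : x ∈ S p A := by
  haveI : Fact p.Prime := ⟨hp⟩
  have hnorm : ∀ P : Sylow p A, (P : Subgroup A).Normal := by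
    have h := (Group.isNilpotent_of_finite_tfae (G := A)).out 0 3
    exact fun P => (h.1 hA) p inferInstance P
  have hpg : IsPGroup p (Subgroup.zpowers (⟨x, hx⟩ : A)) := by
    rintro ⟨y, hy⟩
    obtain ⟨m, rfl⟩ := Subgroup.mem_zpowers_iff.1 hy
    refine ⟨k, ?_⟩
    apply Subtype.ext
    apply Subtype.ext
    show ((x ^ m) ^ p ^ k : G) = 1
    rw [← zpow_natCast, ← zpow_mul, mul_comm, zpow_mul, zpow_natCast, hk, one_zpow]
  obtain ⟨Q, hQ⟩ := hpg.exists_le_sylow
  haveI := hnorm Q
  haveI : Unique (Sylow p A) := Sylow.unique_of_normal Q (hnorm Q)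
  have he : Q = default := Subsingleton.elim _ _
  rw [he] at hQ
  exact ⟨⟨x, hx⟩, hQ (Subgroup.mem_zpowers _), rfl⟩

/-- powers of the elements of `S p A` -/
theorem Nil_pow (hp : p.Prime) {x : G} (hx : x ∈ S p A) : ∃ k : ℕ, x ^ p ^ k = 1 := by
  obtain ⟨k, hk⟩ := S_pgroup hp A ⟨x, hx⟩
  exact ⟨k, by simpa using congrArg Subtype.val hk⟩

theorem Nil_char_le (hA : Group.IsNilpotent A) (hp : p.Prime) {g : G}
    (hg : MulAut.conj g • A = A) : MulAut.conj g • S p A ≤ S p A := by
  intro y hy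
  obtain ⟨x, hx, rfl⟩ := hy
  obtain ⟨k, hk⟩ := Nil_pow hp hx
  have h1 : (MulAut.conj g) • x ∈ MulAut.conj g • A :=
    Subgroup.smul_mem_pointwise_smul _ _ _ (S_le p A hx)
  rw [hg] at h1
  have h2 : ((MulAut.conj g) • x) ^ p ^ k = 1 := by
    rw [← smul_pow', hk, smul_one]
  exact S_mem hA hp h1 h2

/-- An automorphism of `G` which maps `A` into itself maps `S p A` into itself. -/
theorem S_char (hA : Group.IsNilpotent A) (hp : p.Prime) {g : G}
    (hg : MulAut.conj g • A = A) : MulAut.conj g • S p A = S p A := by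
  refine le_antisymm (Nil_char_le hA hp hg) ?_
  have h1 : MulAut.conj g⁻¹ • A = A := by
    conv_lhs => rw [← hg]
    rw [map_inv, inv_smul_smul]
  have h2 := Nil_char_le hA hp h1
  rw [map_inv] at h2
  have h3 := Subgroup.pointwise_smul_le_pointwise_smul_iff (a := MulAut.conj g) |>.2 h2
  rwa [smul_inv_smul] at h3

theorem S_norm (hA : Group.IsNilpotent A) (hp : p.Prime) {a : G} (ha : a ∈ A) :
    MulAut.conj a • S p A = S p A :=
  S_char hA hp (Subgroup.conj_smul_eq_self_of_mem ha)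

theorem S_comm (hA : Group.IsNilpotent A) (hp : p.Prime) (hr : r.Prime) (h : p ≠ r) {x y : G}
    (hx : x ∈ S p A) (hy : y ∈ S r A) : x * y = y * x := by
  have h1 : x * (y * x⁻¹ * y⁻¹) ∈ S p A := by
    refine mul_mem hx ?_
    have h2 : y * x⁻¹ * y⁻¹ ∈ MulAut.conj y • S p A :=
      Subgroup.smul_mem_pointwise_smul _ (MulAut.conj y) _ (inv_mem hx)
    rwa [S_norm hA hp (S_le r A hy)] at h2
  have h2 : (x * y * x⁻¹) * y⁻¹ ∈ S r A := by
    refine mul_mem ?_ (inv_mem hy)
    have h2 : x * y * x⁻¹ ∈ MulAut.conj x • S r A :=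
      Subgroup.smul_mem_pointwise_smul _ (MulAut.conj x) _ hy
    rwa [S_norm hA hr (S_le p A hx)] at h2
  have e : x * (y * x⁻¹ * y⁻¹) = (x * y * x⁻¹) * y⁻¹ := by group
  rw [e] at h1
  obtain ⟨k, hk⟩ := Nil_pow hp h1
  obtain ⟨l, hl⟩ := Nil_pow hr h2
  have h3 : orderOf ((x * y * x⁻¹) * y⁻¹) ∣ Nat.gcd (p ^ k) (r ^ l) :=
    Nat.dvd_gcd (orderOf_dvd_of_pow_eq_one hk) (orderOf_dvd_of_pow_eq_one hl)
  have h4 : Nat.gcd (p ^ k) (r ^ l) = 1 :=
    Nat.Coprime.pow k l ((Nat.coprime_primes hp hr).2 h)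
  rw [h4, Nat.dvd_one, orderOf_eq_one_iff] at h3
  rw [mul_inv_eq_one, mul_inv_eq_iff_eq_mul] at h3
  exact h3

/-- `A` is generated by its Sylow subgroups. -/
theorem le_of_S {X : Subgroup G}
    (h : ∀ p : ℕ, p.Prime → p ∣ Nat.card A → S p A ≤ X) : A ≤ X := by
  have h1 : Nat.card A ∣ Nat.card (A ⊓ X : Subgroup G) := by
    rw [← Nat.factorization_prime_le_iff_dvd Nat.card_pos.ne' Nat.card_pos.ne']
    intro q hq
    by_cases hd : q ∣ Nat.card A
    · have h2 : S q A ≤ A ⊓ X := le_inf (S_le q A) (h q hq hd)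
      have h3 := Subgroup.card_dvd_of_le h2
      rw [S_card hq A] at h3
      exact (hq.pow_dvd_iff_le_factorization Nat.card_pos.ne').1 h3
    · rw [Nat.factorization_eq_zero_of_not_dvd hd]
      exact Nat.zero_le _
  have h2 : A ⊓ X = A :=
    Subgroup.eq_of_le_of_card_ge inf_le_left (Nat.le_of_dvd Nat.card_pos h1)
  rw [← h2]
  exact inf_le_right

/-- A nontrivial central `p` element of `A` (centre of the `p` group `S p A`, and the other Sylow
subgroups commute with it). -/
theorem S_center (hA : Group.IsNilpotent A) (hp : p.Prime) (h : p ∣ Nat.card A) :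
    ∃ z ∈ S p A, z ≠ 1 ∧ ∀ a ∈ A, a * z = z * a := by
  haveI : Fact p.Prime := ⟨hp⟩
  haveI : Nontrivial (S p A) := by
    rw [Subgroup.nontrivial_iff_ne_bot]
    exact S_ne_bot hp h
  haveI := (S_pgroup hp A).center_nontrivial
  obtain ⟨z, hz⟩ := exists_ne (1 : Subgroup.center (S p A))
  have hzc := z.2
  rw [Subgroup.mem_center_iff] at hzc
  refine ⟨((z : S p A) : G), (z : S p A).2, ?_, ?_⟩
  · intro h1
    apply hz
    apply Subtype.ext
    apply Subtype.ext
    exact h1
  · have h1 : A ≤ Subgroup.centralizer {((z : S p A) : G)} := by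
      apply le_of_S
      intro r hr hd x hx
      rw [Subgroup.mem_centralizer_singleton_iff]
      by_cases hpr : p = r
      · subst hpr
        exact congrArg Subtype.val (hzc ⟨x, hx⟩)
      · exact (S_comm hA hp hr hpr (z : S p A).2 hx).symm
    intro a ha
    exact Subgroup.mem_centralizer_singleton_iff.1 (h1 ha)

/-- An element of `A` splits: `a = u v`, `u` in `S p A`, and `v` in `A` commutes with `S p A`. -/
theorem S_split (hA : Group.IsNilpotent A) (hp : p.Prime) {a : G} (ha : a ∈ A) :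
    ∃ u ∈ S p A, ∃ v ∈ A, a = u * v ∧ ∀ x ∈ S p A, v * x = x * v := by
  let X : Subgroup G :=
    { carrier := {a | ∃ u ∈ S p A, ∃ v ∈ A, a = u * v ∧ ∀ x ∈ S p A, v * x = x * v}
      one_mem' := ⟨1, one_mem _, 1, one_mem _, by simp, by simp⟩
      mul_mem' := by
        rintro a b ⟨u, hu, v, hv, rfl, h1⟩ ⟨u', hu', v', hv', rfl, h2⟩
        refine ⟨u * u', mul_mem hu hu', v * v', mul_mem hv hv', ?_, ?_⟩
        · calc u * v * (u' * v') = u * (v * u') * v' := by group
            _ = u * (u' * v) * v' := by rw [h1 u' hu']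
            _ = u * u' * (v * v') := by group
        · intro x hx
          rw [mul_assoc, h2 x hx, ← mul_assoc, h1 x hx, mul_assoc]
      inv_mem' := by
        rintro a ⟨u, hu, v, hv, rfl, h1⟩
        have h2 : ∀ x ∈ S p A, v⁻¹ * x = x * v⁻¹ := by
          intro x hx
          have h3 := h1 x hx
          rw [inv_mul_eq_iff_eq_mul, ← mul_assoc, h3, mul_inv_cancel_right]
        refine ⟨u⁻¹, inv_mem hu, v⁻¹, inv_mem hv, ?_, h2⟩
        rw [mul_inv_rev]
        exact h2 u⁻¹ (inv_mem hu) }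
  have h1 : A ≤ X := by
    apply le_of_S
    intro r hr hd x hx
    by_cases hpr : p = r
    · subst hpr
      exact ⟨x, hx, 1, one_mem _, (mul_one x).symm, fun y _ => by rw [one_mul, mul_one]⟩
    · exact ⟨1, one_mem _, x, S_le r A hx, (one_mul x).symm,
        fun y hy => (S_comm hA hp hr hpr hy hx).symm⟩
  exact h1 ha

end Pool.Agent.H71.KW
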