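import Pool.Agent.H71.KW.P1a
import Pool.Agent.H71.KW.Core

/-!
# Module P1: two Sylow subgroups `S p A`, `S q B` generate `G`, and P2
-/

open scoped Pointwise

namespace Pool.Agent.H71.KW

variable {G : Type*} [Group G] [Finite G] {A B X : Subgroup G} {p q : ℕ}

omit [Finite G] in
private theorem P1_norm_iff {J : Subgroup G} {g : G} :
    g ∈ Subgroup.normalizer (J : Set G) ↔ MulAut.conj g • J = J := by
  constructor
  · intro h
    ext y
    rw [Subgroup.mem_pointwise_smul_iff_inv_smul_mem]
    have h1 := Subgroup.mem_normalizer_iff.mp h (g⁻¹ * y * g)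
    have e : g * (g⁻¹ * y * g) * g⁻¹ = y := by group
    rw [e] at h1
    have e2 : (MulAut.conj g)⁻¹ • y = g⁻¹ * y * g := by
      rw [← map_inv, MulAut.smul_def, MulAut.conj_apply]
      simp
    rw [e2]
    exact h1
  · intro h
    rw [Subgroup.mem_normalizer_iff]
    intro y
    have h1 : (MulAut.conj g) • y ∈ MulAut.conj g • J ↔ y ∈ J :=
      Subgroup.smul_mem_pointwise_smul_iff
    rw [h] at h1
    exact h1.symm

/-- The normaliser of the subgroup generated by `S p A` and `S q B` is factorised: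
if `g = a b` normalises `J` then, with `J' = a⁻¹ J a = b J b⁻¹`, `S p A ≤ J'` and `S q B ≤ J'`, so `J ≤ J'`,
`J = J'`, and `a`, `b` normalise `J`. -/
theorem facS_norm (m : Min A B) (hp : p.Prime) (hq : q.Prime) :
    FacS A B (Subgroup.normalizer ((S p A ⊔ S q B : Subgroup G) : Set G)) := by
  intro g hg
  obtain ⟨a, ha, b, hb, hab⟩ := m.fac g
  set J : Subgroup G := S p A ⊔ S q B with hJ
  have h1 : MulAut.conj g • J = J := P1_norm_iff.1 hg
  have h2 : MulAut.conj b • J = MulAut.conj a⁻¹ • J := by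
    have : MulAut.conj a • (MulAut.conj b • J) = J := by
      rw [← mul_smul, ← map_mul, ← hab, h1]
    conv_rhs => rw [← this]
    rw [map_inv, inv_smul_smul]
  have h3 : S q B ≤ MulAut.conj b • J := by
    conv_lhs => rw [← S_norm m.nB hq hb]
    exact Subgroup.pointwise_smul_le_pointwise_smul_iff.2 le_sup_right
  have h4 : S p A ≤ MulAut.conj b • J := by
    rw [h2]
    conv_lhs => rw [← S_norm m.nA hp (inv_mem ha)]
    exact Subgroup.pointwise_smul_le_pointwise_smul_iff.2 le_sup_left
  have h5 : J = MulAut.conj b • J := by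
    apply Subgroup.eq_of_le_of_card_ge (sup_le h4 h3)
    exact (Nat.card_congr (Subgroup.equivSMul (MulAut.conj b) J).symm.toEquiv).le
  refine ⟨a, ha, b, hb, ?_, P1_norm_iff.2 h5.symm, hab⟩
  have h6 : a⁻¹ ∈ Subgroup.normalizer (J : Set G) := P1_norm_iff.2 (by rw [← h2, ← h5])
  simpa using inv_mem h6

/-- P1. Otherwise `J = S p A ⊔ S q B` is neither `1` nor `G`, its normaliser is proper, factorised, soluble, so
(`per_sol`) `S p A` and `S q B` permute, with all conjugates by `per_conj` (and `S_norm`), and `kegel_simp` gives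
`J = ⊤`. -/
theorem p1 (m : Min2 A B) (hp : p.Prime) (hq : q.Prime) (hpA : p ∣ Nat.card A)
    (hqB : q ∣ Nat.card B) : S p A ⊔ S q B = ⊤ := by
  by_contra hJ
  have hpb : S p A ≠ ⊥ := S_ne_bot hp hpA
  have hne : (S p A ⊔ S q B : Subgroup G) ≠ ⊥ := by
    intro h
    apply hpb
    rw [eq_bot_iff, ← h]
    exact le_sup_left
  have hN := norm_ne_top m.toMin hne hJ
  have hf := facS_norm m.toMin hp hq
  have hle : (S p A ⊔ S q B : Subgroup G) ≤
      Subgroup.normalizer ((S p A ⊔ S q B : Subgroup G) : Set G) := Subgroup.le_normalizer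
  have hper : Per (S p A) (S q B) := per_sol m.toMin hp hq hpA hqB (m.sub _ hN hf) hf
    (le_sup_left.trans hle) (le_sup_right.trans hle)
  exact hJ (kegel_simp m.simp hpb (S_ne_bot hq hqB)
    (per_conj m.fac (fun a ha => S_norm m.nA hp ha) (fun b hb => S_norm m.nB hq hb) hper))

/-- P2. Proof: let `s ≠ q` be a prime divisor of `|B|` (`m.twoB`). `Y` lies in a conjugate of `S q B`
(`sub_conj m.symm`), which commutes with the conjugate of `S s B` by the same element (`S_comm`). So the
normaliser of `Y` contains conjugates of `S p A` and `S s B`, which generate `G` by `conj_pair` and `p1`.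
So `Y` is normal: `Y = ⊤` is impossible (`Y` would be a `q` group, `G` soluble) and `Y ≠ ⊥`. -/
theorem p2 (m : Min2 A B) (hp : p.Prime) (hq : q.Prime) (hpA : p ∣ Nat.card A)
    (hqB : q ∣ Nat.card B) {Y : Subgroup G} (hY : IsPGroup q Y) (hne : Y ≠ ⊥) (g : G)
    (h : MulAut.conj g • S p A ≤ Subgroup.normalizer (Y : Set G)) : False := by
  obtain ⟨s, hs, hsq, hsB⟩ := m.twoB q
  obtain ⟨k, hk⟩ := sub_conj m.symm.toMin hq hqB hY
  have h1 : MulAut.conj k • S s B ≤ Subgroup.normalizer (Y : Set G) := by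
    rintro _ ⟨x, hx, rfl⟩
    have hc : ∀ y ∈ Y, (MulAut.conj k) x * y = y * (MulAut.conj k) x := by
      intro y hy
      obtain ⟨z, hz, rfl⟩ := hk hy
      have h2 : x * z = z * x := S_comm m.nB hs hq hsq hx hz
      change (MulAut.conj k) x * (MulAut.conj k) z = (MulAut.conj k) z * (MulAut.conj k) x
      rw [← map_mul, h2, map_mul]
    change (MulAut.conj k) x ∈ Subgroup.normalizer (Y : Set G)
    generalize (MulAut.conj k) x = c at hc ⊢
    rw [Subgroup.mem_normalizer_iff]
    intro y
    constructor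
    · intro hy
      rw [hc y hy, mul_inv_cancel_right]
      exact hy
    · intro hy
      have h3 := hc _ hy
      have h4 : y = c * y * c⁻¹ := by
        have h5 : c * y = c * (c * y * c⁻¹) := by
          rw [h3]; group
        exact mul_left_cancel h5
      rw [h4]
      exact hy
  obtain ⟨x, hx1, hx2⟩ := conj_pair m.toMin hp hs g k
  rw [hx1] at h
  rw [hx2] at h1
  rw [Subgroup.pointwise_smul_subset_iff] at h h1
  have h3 : (⊤ : Subgroup G) ≤ (MulAut.conj x)⁻¹ • Subgroup.normalizer (Y : Set G) := by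
    rw [← p1 m hp hs hpA hsB]
    exact sup_le h h1
  have h4 : Subgroup.normalizer (Y : Set G) = ⊤ := by
    rw [eq_top_iff]
    intro n _
    have h5 : (MulAut.conj x)⁻¹ • n ∈ (MulAut.conj x)⁻¹ • Subgroup.normalizer (Y : Set G) :=
      h3 (Subgroup.mem_top _)
    exact Subgroup.smul_mem_pointwise_smul_iff.1 h5
  by_cases hT : Y = ⊤
  · have : Fact q.Prime := ⟨hq⟩
    apply m.ns
    have h6 : IsPGroup q G := by
      intro a
      obtain ⟨e, he⟩ := hY ⟨a, hT ▸ Subgroup.mem_top a⟩
      exact ⟨e, by simpa using congrArg Subtype.val he⟩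
    have := h6.isNilpotent
    infer_instance
  · exact norm_ne_top m.toMin hne hT h4

/-- P2 in another form: a `q` group normalised by a group containing a conjugate of `S p A`. -/
theorem Op_bot (m : Min2 A B) (hp : p.Prime) (hq : q.Prime) (hpA : p ∣ Nat.card A)
    (hqB : q ∣ Nat.card B) (h : S p A ≤ X) : Op q X = ⊥ := by
  by_contra hne
  refine p2 m hp hq hpA hqB (Op_pgroup hq X) hne 1 ?_
  rw [map_one, one_smul]
  exact h.trans (Op_norm q X)

end Pool.Agent.H71.KW
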