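import Pool.Agent.H71.KW.Basic
import Pool.Agent.H71.KW.Hall

/-!
# Module P1a: `S p A` and `S q B` permute in a soluble factorised subgroup
-/

open scoped Pointwise

namespace Pool.Agent.H71.KW

set_option linter.unusedSectionVars false

variable {G : Type*} [Group G] [Finite G] {A B X : Subgroup G} {p q : ℕ}

/-- two subgroups of `X` with the order of a Sylow subgroup are conjugate in `X` -/
private theorem P1a_conj {X P Q : Subgroup G} {p : ℕ} (hp : p.Prime) (hP : P ≤ X) (hQ : Q ≤ X)
    (cP : Nat.card P = p ^ (Nat.card X).factorization p)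
    (cQ : Nat.card Q = p ^ (Nat.card X).factorization p) : ∃ x ∈ X, MulAut.conj x • P = Q := by
  have : Fact p.Prime := ⟨hp⟩
  have e1 : Nat.card (P.subgroupOf X) = p ^ (Nat.card X).factorization p := by
    rw [← cP]; exact Nat.card_congr (Subgroup.subgroupOfEquivOfLe hP).toEquiv
  have e2 : Nat.card (Q.subgroupOf X) = p ^ (Nat.card X).factorization p := by
    rw [← cQ]; exact Nat.card_congr (Subgroup.subgroupOfEquivOfLe hQ).toEquiv
  obtain ⟨x, hx⟩ := MulAction.exists_smul_eq X (Sylow.ofCard _ e1) (Sylow.ofCard _ e2)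
  have hx' : MulAut.conj x • (P.subgroupOf X) = Q.subgroupOf X := by
    have := congrArg (fun R : Sylow p X => (R : Subgroup X)) hx
    exact this
  refine ⟨x, x.2, ?_⟩
  apply Subgroup.eq_of_le_of_card_ge
  · rintro _ ⟨y, hy, rfl⟩
    have h1 : (⟨y, hP hy⟩ : X) ∈ P.subgroupOf X := hy
    have h2 := Subgroup.smul_mem_pointwise_smul _ (MulAut.conj x) _ h1
    rw [hx'] at h2
    exact h2
  · have : Nat.card (MulAut.conj (x : G) • P : Subgroup G) = Nat.card P :=
      Nat.card_congr (Subgroup.equivSMul (MulAut.conj (x : G)) P).symm.toEquiv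
    rw [this, cP, cQ]

private theorem P1a_per {H P Q : Subgroup G} (hP : P ≤ H) (hQ : Q ≤ H) (hd : P ⊓ Q = ⊥)
    (hc : Nat.card P * Nat.card Q = Nat.card H) : Per P Q := by
  let f : P × Q → H := fun z => ⟨z.1 * z.2, mul_mem (hP z.1.2) (hQ z.2.2)⟩
  have hf : Function.Injective f := by
    rintro ⟨⟨a, ha⟩, ⟨b, hb⟩⟩ ⟨⟨a', ha'⟩, ⟨b', hb'⟩⟩ h
    simp only [f, Subtype.mk.injEq] at h
    have h1 : a'⁻¹ * a = b' * b⁻¹ := by
      have : a'⁻¹ * (a * b) * b⁻¹ = a'⁻¹ * (a' * b') * b⁻¹ := by rw [h]
      simpa [mul_assoc] using this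
    have h2 : a'⁻¹ * a ∈ P ⊓ Q := by
      rw [Subgroup.mem_inf]
      refine ⟨mul_mem (inv_mem ha') ha, ?_⟩
      rw [h1]
      exact mul_mem hb' (inv_mem hb)
    rw [hd, Subgroup.mem_bot] at h2
    have e1 : a = a' := (inv_mul_eq_one.mp h2).symm
    rw [h2] at h1
    have e2 : b' = b := (mul_inv_eq_one.mp h1.symm)
    subst e1
    subst e2
    rfl
  have hb : Function.Bijective f := by
    apply Function.Injective.bijective_of_nat_card_le hf
    rw [Nat.card_prod, hc]
  intro x hx
  have hx' : x ∈ H := (sup_le hP hQ) hx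
  obtain ⟨⟨a, b⟩, hab⟩ := hb.2 ⟨x, hx'⟩
  exact ⟨a, a.2, b, b.2, (congrArg Subtype.val hab).symm⟩

/-- In a soluble factorised `X` containing `S p A` and `S q B` these two permute: let `H ≤ X` be a
subgroup of order the `{p, q}` part of `|X|` (`hall`). By Sylow in `X` the subgroup `H` contains
conjugates of `S p A` and `S q B` by elements `x, y` of `X` (`S p A` is a Sylow subgroup of `X`, because of
`G`, and `H` contains a Sylow `p` subgroup of `X`); by orders `H` is their product. By `conj_pair` in `X`
(write `x⁻¹ y = a b` with `a, b ∈ X` by `hf`) they are the conjugates by one element, and conjugating back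
`S p A` and `S q B` permute. -/
theorem per_sol (m : Min A B) (hp : p.Prime) (hq : q.Prime) (hpA : p ∣ Nat.card A)
    (hqB : q ∣ Nat.card B) (hX : Group.IsSolvable X) (hf : FacS A B X)
    (h1 : S p A ≤ X) (h2 : S q B ≤ X) : Per (S p A) (S q B) := by
  have : Fact p.Prime := ⟨hp⟩
  have : Fact q.Prime := ⟨hq⟩
  have hpq : p ≠ q := ne_of_dvd m hp hpA hqB
  obtain ⟨P, hP⟩ := S_sylow m hp hpA
  obtain ⟨Q, hQ⟩ := S_sylow m.symm hq hqB
  -- the factorizations of `|X|` and of `|G|` agree at `p` and `q`
  have key : ∀ {r : ℕ} (hr : r.Prime) (R : Sylow r G) {T : Subgroup G}, (R : Subgroup G) = T → T ≤ X →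
      Nat.card T = r ^ (Nat.card X).factorization r := by
    intro r hr R T hT hTX
    have : Fact r.Prime := ⟨hr⟩
    have c1 : Nat.card T = r ^ (Nat.card G).factorization r := by
      rw [← hT]; exact R.card_eq_multiplicity
    have c2 : Nat.card T ∣ Nat.card X := Subgroup.card_dvd_of_le hTX
    have c3 : Nat.card X ∣ Nat.card G := Subgroup.card_subgroup_dvd_card X
    have c4 : (Nat.card G).factorization r ≤ (Nat.card X).factorization r := by
      rw [c1] at c2
      exact (hr.pow_dvd_iff_le_factorization Nat.card_pos.ne').mp c2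
    have c5 : (Nat.card X).factorization r ≤ (Nat.card G).factorization r :=
      (Nat.factorization_le_iff_dvd Nat.card_pos.ne' Nat.card_pos.ne').mpr c3 r
    rw [c1, le_antisymm c4 c5]
  have cp : Nat.card (S p A) = p ^ (Nat.card X).factorization p := key hp P hP h1
  have cq : Nat.card (S q B) = q ^ (Nat.card X).factorization q := key hq Q hQ h2
  -- the Hall subgroup
  set N := Nat.card X with hN
  have hN0 : N ≠ 0 := Nat.card_pos.ne'
  have hdiv : p ^ N.factorization p * q ^ N.factorization q ∣ N := by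
    apply Nat.Coprime.mul_dvd_of_dvd_of_dvd
    · exact Nat.coprime_pow_primes _ _ hp hq hpq
    · exact Nat.ordProj_dvd N p
    · exact Nat.ordProj_dvd N q
  obtain ⟨k, hk⟩ := hdiv
  have hcop : (p ^ N.factorization p * q ^ N.factorization q).Coprime k := by
    have hk0 : k ≠ 0 := by
      rintro rfl
      rw [mul_zero] at hk
      exact hN0 hk
    have ha : p ^ N.factorization p ≠ 0 := pow_ne_zero _ hp.ne_zero
    have hb : q ^ N.factorization q ≠ 0 := pow_ne_zero _ hq.ne_zero
    apply Nat.Coprime.mul_left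
    · apply Nat.Coprime.pow_left
      rw [Nat.Prime.coprime_iff_not_dvd hp]
      intro hd
      have h := congrArg (fun n => n.factorization p) hk
      beta_reduce at h
      rw [Nat.factorization_mul (mul_ne_zero ha hb) hk0, Nat.factorization_mul ha hb] at h
      simp only [Finsupp.add_apply, Nat.Prime.factorization_pow hp, Nat.Prime.factorization_pow hq,
        Finsupp.single_apply] at h
      have h2 : 1 ≤ k.factorization p := (hp.dvd_iff_one_le_factorization hk0).mp hd
      simp only [if_true, if_neg (Ne.symm hpq)] at h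
      omega
    · apply Nat.Coprime.pow_left
      rw [Nat.Prime.coprime_iff_not_dvd hq]
      intro hd
      have h := congrArg (fun n => n.factorization q) hk
      beta_reduce at h
      rw [Nat.factorization_mul (mul_ne_zero ha hb) hk0, Nat.factorization_mul ha hb] at h
      simp only [Finsupp.add_apply, Nat.Prime.factorization_pow hp, Nat.Prime.factorization_pow hq,
        Finsupp.single_apply] at h
      have h2 : 1 ≤ k.factorization q := (hq.dvd_iff_one_le_factorization hk0).mp hd
      simp only [if_true, if_neg hpq] at h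
      omega
  obtain ⟨H0, hH0⟩ := hall (X := X) hk hcop
  set H : Subgroup G := H0.map X.subtype with hH
  have hHX : H ≤ X := Subgroup.map_subtype_le H0
  have hHc : Nat.card H = p ^ N.factorization p * q ^ N.factorization q := by
    rw [← hH0, hH]
    exact (Nat.card_congr (H0.equivMapOfInjective _ X.subtype_injective).toEquiv).symm
  -- Sylow subgroups of `H`
  obtain ⟨P0, hP0⟩ := Sylow.exists_subgroup_card_pow_prime (G := H) p (n := N.factorization p)
    (by rw [hHc]; exact Dvd.intro _ rfl)
  obtain ⟨Q0, hQ0⟩ := Sylow.exists_subgroup_card_pow_prime (G := H) q (n := N.factorization q)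
    (by rw [hHc]; exact Dvd.intro_left _ rfl)
  set P1 : Subgroup G := P0.map H.subtype with hP1
  set Q1 : Subgroup G := Q0.map H.subtype with hQ1
  have cP1 : Nat.card P1 = p ^ N.factorization p := by
    rw [← hP0, hP1]
    exact (Nat.card_congr (P0.equivMapOfInjective _ H.subtype_injective).toEquiv).symm
  have cQ1 : Nat.card Q1 = q ^ N.factorization q := by
    rw [← hQ0, hQ1]
    exact (Nat.card_congr (Q0.equivMapOfInjective _ H.subtype_injective).toEquiv).symm
  have lP1 : P1 ≤ H := Subgroup.map_subtype_le P0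
  have lQ1 : Q1 ≤ H := Subgroup.map_subtype_le Q0
  obtain ⟨x, hx, hxe⟩ := P1a_conj hp h1 (lP1.trans hHX) cp cP1
  obtain ⟨y, hy, hye⟩ := P1a_conj hq h2 (lQ1.trans hHX) cq cQ1
  obtain ⟨a, ha, b, hb, -, -, hab⟩ := hf (x⁻¹ * y) (mul_mem (inv_mem hx) hy)
  have e1 : MulAut.conj (x * a) • S p A = P1 := by
    rw [map_mul, mul_smul, S_norm m.nA hp ha, hxe]
  have e2 : MulAut.conj (x * a) • S q B = Q1 := by
    have e : x * a = y * b⁻¹ := by
      have : x * a = x * (a * b) * b⁻¹ := by group
      rw [this, ← hab]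
      group
    rw [e, map_mul, mul_smul, S_norm m.nB hq (inv_mem hb), hye]
  have hdis : P1 ⊓ Q1 = ⊥ := by
    rw [← disjoint_iff]
    apply Subgroup.disjoint_of_coprime_natCard
    rw [cP1, cQ1]
    exact Nat.coprime_pow_primes _ _ hp hq hpq
  have hper : Per P1 Q1 := P1a_per lP1 lQ1 hdis (by rw [cP1, cQ1, hHc])
  have hres := hper.conj (x * a)⁻¹
  rw [← e1, ← e2, ← mul_smul, ← mul_smul, ← map_mul, inv_mul_cancel, map_one, one_smul, one_smul] at hres
  exact hres

end Pool.Agent.H71.KW
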